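import Mathlib

/-!
# Selecting the large ones among finitely many exponentials

For nodes `w` with `|‖w‖ - r| ≥ η` there are coefficients `c k`, `k < N`, of size `r^(-K) (C/η)^N` with
`∑ c k w^(K+k) = 1` for the nodes outside the circle of radius `r` and `= 0` for those inside.
-/

set_option autoImplicit false

open Complex Metric Finset
open scoped Real

namespace Pool.Agent.Run7.h91.SP

lemma ci_int {n : ℕ} {w : ℂ} {r : ℝ} (hr : 0 < r) (hw : ‖w‖ ≠ r) :
    CircleIntegrable (fun z : ℂ => (z ^ n)⁻¹ * (z - w)⁻¹) 0 r := by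
  apply ContinuousOn.circleIntegrable hr.le
  apply ContinuousOn.mul
  · apply ContinuousOn.inv₀ (by fun_prop)
    intro z hz
    apply pow_ne_zero
    rintro rfl
    simp at hz
    exact hr.ne hz
  · apply ContinuousOn.inv₀ (by fun_prop)
    intro z hz h
    rw [sub_eq_zero] at h
    subst h
    exact hw (by simpa using hz)

lemma ci_pow_int (n : ℕ) {r : ℝ} (hr : 0 < r) :
    CircleIntegrable (fun z : ℂ => (z ^ n)⁻¹) 0 r := by
  apply ContinuousOn.circleIntegrable hr.le
  apply ContinuousOn.inv₀ (by fun_prop)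
  intro z hz
  apply pow_ne_zero
  rintro rfl
  simp at hz
  exact hr.ne hz

lemma ci_pow_one {r : ℝ} (hr : 0 < r) : (∮ z in C((0 : ℂ), r), (z ^ 1)⁻¹) = 2 * π * I := by
  have h := circleIntegral.integral_sub_inv_of_mem_ball (c := (0 : ℂ)) (w := 0) (R := r) (by simp [hr])
  simpa using h

lemma ci_pow_ge {n : ℕ} {r : ℝ} (hn : 2 ≤ n) : (∮ z in C((0 : ℂ), r), (z ^ n)⁻¹) = 0 := by
  have h := circleIntegral.integral_sub_zpow_of_ne (n := -(n : ℤ)) (by omega) 0 0 r
  simpa [zpow_neg] using h

/-- the recursion -/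
lemma ci_succ {n : ℕ} {w : ℂ} {r : ℝ} (hr : 0 < r) (hw : ‖w‖ ≠ r) (hw0 : w ≠ 0) :
    (∮ z in C((0 : ℂ), r), (z ^ (n + 1))⁻¹ * (z - w)⁻¹) =
      w⁻¹ * ((∮ z in C((0 : ℂ), r), (z ^ n)⁻¹ * (z - w)⁻¹) - ∮ z in C((0 : ℂ), r), (z ^ (n + 1))⁻¹) := by
  rw [← circleIntegral.integral_sub (ci_int hr hw) (ci_pow_int (n + 1) hr),
    ← circleIntegral.integral_const_mul]
  apply circleIntegral.integral_congr hr.le
  intro z hz
  have hz0 : z ≠ 0 := by
    rintro rfl
    simp at hz
    exact hr.ne hz
  have hzw : z - w ≠ 0 := by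
    intro h
    rw [sub_eq_zero] at h
    subst h
    exact hw (by simpa using hz)
  simp only
  field_simp
  ring

lemma ci_out {w : ℂ} {r : ℝ} (hr : 0 < r) (hw : r < ‖w‖) (n : ℕ) :
    (∮ z in C((0 : ℂ), r), (z ^ (n + 1))⁻¹ * (z - w)⁻¹) = -(2 * π * I) * (w ^ (n + 1))⁻¹ := by
  have hw0 : w ≠ 0 := by
    rintro rfl
    simp at hw
    linarith
  induction n with
  | zero =>
    rw [ci_succ hr hw.ne' hw0, zero_add, ci_pow_one hr]
    have h0 : (∮ z in C((0 : ℂ), r), (z ^ 0)⁻¹ * (z - w)⁻¹) = 0 := by
      simp only [pow_zero, inv_one, one_mul]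
      apply Complex.circleIntegral_eq_zero_of_differentiable_on_off_countable hr.le
        (Set.countable_empty)
      · apply ContinuousOn.inv₀ (by fun_prop)
        intro z hz h
        rw [sub_eq_zero] at h
        subst h
        simp at hz
        linarith
      · intro z hz
        have h1 : z - w ≠ 0 := by
          intro h
          rw [sub_eq_zero] at h
          subst h
          simp at hz
          linarith
        exact DifferentiableAt.inv (by fun_prop) h1
    rw [h0]
    ring
  | succ n ih =>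
    rw [ci_succ hr hw.ne' hw0, ih, ci_pow_ge (by omega)]
    field_simp
    ring

lemma ci_in {w : ℂ} {r : ℝ} (hr : 0 < r) (hw : ‖w‖ < r) (hw0 : w ≠ 0) (n : ℕ) :
    (∮ z in C((0 : ℂ), r), (z ^ (n + 1))⁻¹ * (z - w)⁻¹) = 0 := by
  induction n with
  | zero =>
    rw [ci_succ hr hw.ne hw0, zero_add, ci_pow_one hr]
    have h0 : (∮ z in C((0 : ℂ), r), (z ^ 0)⁻¹ * (z - w)⁻¹) = 2 * π * I := by
      simp only [pow_zero, inv_one, one_mul]
      exact circleIntegral.integral_sub_inv_of_mem_ball (by simpa using hw)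
    rw [h0]
    ring
  | succ n ih =>
    rw [ci_succ hr hw.ne hw0, ih, ci_pow_ge (by omega)]
    ring

open Polynomial in
/-- **Selection.** -/
theorem select {W : Finset ℂ} (hne : W.Nonempty) {r R η : ℝ} (hr : 1 ≤ r) (hη : 0 < η) (hR1 : 1 ≤ R)
    (hR : ∀ w ∈ W, ‖w‖ ≤ R) (h0 : ∀ w ∈ W, w ≠ 0) (hsep : ∀ w ∈ W, η ≤ |‖w‖ - r|) {K : ℕ}
    (hK : W.card ≤ K) :
    ∃ c : ℕ → ℂ, (∀ w ∈ W, ∑ k ∈ range W.card, c k * w ^ (K + k) = if r < ‖w‖ then 1 else 0) ∧
      ∀ k, ‖c k‖ ≤ (r ^ K)⁻¹ * ((R + r) / η) ^ W.card := by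
  classical
  have hr0 : 0 < r := by linarith
  set N := W.card with hN
  set P : ℂ[X] := Lagrange.nodal W id with hP
  have hPm : P.Monic := Lagrange.nodal_monic
  have hPd : P.natDegree = N := Lagrange.natDegree_nodal
  have hPe : ∀ x : ℂ, P.eval x = ∏ w ∈ W, (x - w) := fun x => Lagrange.eval_nodal
  have hsepz : ∀ w ∈ W, ‖w‖ ≠ r := fun w hw h => by
    have := hsep w hw
    rw [h, sub_self, abs_zero] at this
    linarith
  -- the weights
  set lam : ℂ → ℂ := fun w => Lagrange.nodalWeight W id w with hlam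
  have hlamd : ∀ w ∈ W, lam w * P.derivative.eval w = 1 := by
    intro w hw
    have h1 := Lagrange.nodalWeight_eq_eval_derivative_nodal (v := (id : ℂ → ℂ)) hw
    have h2 := Lagrange.nodalWeight_ne_zero (v := (id : ℂ → ℂ)) (s := W) (Set.injOn_id _) hw
    rw [id] at h1
    rw [hlam]
    simp only
    rw [h1] at h2 ⊢
    exact inv_mul_cancel₀ (fun h => h2 (by rw [h, inv_zero]))
  have hinv : ∀ x : ℂ, (∀ w ∈ W, x ≠ w) → (P.eval x)⁻¹ = ∑ w ∈ W, lam w * (x - w)⁻¹ := by
    intro x hx
    have h1 := Lagrange.eval_interpolate_not_at_node (s := W) (v := (id : ℂ → ℂ)) 1 (x := x)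
      (by simpa using hx)
    rw [Lagrange.interpolate_one (Set.injOn_id _) hne, eval_one] at h1
    have h2 : P.eval x ≠ 0 := by
      rw [hPe]
      exact Finset.prod_ne_zero_iff.2 fun w hw => sub_ne_zero.2 (hx w hw)
    simp only [id, Pi.one_apply, mul_one] at h1
    exact (eq_inv_of_mul_eq_one_right h1.symm).symm
  -- the moments
  set A : ℕ → ℂ := fun n => ∑ w ∈ W with r < ‖w‖, lam w * (w ^ n)⁻¹ with hA
  have hsph : ∀ z ∈ sphere (0 : ℂ) r, ∀ w ∈ W, z ≠ w := by
    intro z hz w hw h
    subst h
    exact hsepz z hw (by simpa using hz)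
  have hAI : ∀ n : ℕ, (∮ z in C((0 : ℂ), r), (z ^ (n + 1))⁻¹ * (P.eval z)⁻¹) =
      -(2 * π * I) * A (n + 1) := by
    intro n
    have h1 : (∮ z in C((0 : ℂ), r), (z ^ (n + 1))⁻¹ * (P.eval z)⁻¹) =
        ∮ z in C((0 : ℂ), r), ∑ w ∈ W, lam w * ((z ^ (n + 1))⁻¹ * (z - w)⁻¹) := by
      apply circleIntegral.integral_congr hr0.le
      intro z hz
      simp only
      rw [hinv z (hsph z hz), Finset.mul_sum]
      exact Finset.sum_congr rfl fun w _ => by ring
    rw [h1, circleIntegral.integral_fun_sum (fun w hw => by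
      show IntervalIntegrable _ _ _ _
      exact IntervalIntegrable.const_mul (ci_int hr0 (hsepz w hw)) (lam w))]
    simp only [circleIntegral.integral_const_mul]
    rw [hA]
    beta_reduce
    rw [Finset.sum_filter, Finset.mul_sum]
    apply Finset.sum_congr rfl
    intro w hw
    split_ifs with h
    · rw [ci_out hr0 h]
      ring
    · rw [ci_in hr0 (lt_of_le_of_ne (not_lt.1 h) (hsepz w hw)) (h0 w hw)]
      ring
  have hPlow : ∀ z ∈ sphere (0 : ℂ) r, η ^ N ≤ ‖P.eval z‖ := by
    intro z hz
    rw [hPe, norm_prod, hN, ← Finset.prod_const]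
    apply Finset.prod_le_prod (fun _ _ => hη.le)
    intro w hw
    have hz' : ‖z‖ = r := by simpa using hz
    calc η ≤ |‖w‖ - r| := hsep w hw
      _ = |‖z‖ - ‖w‖| := by rw [hz', abs_sub_comm]
      _ ≤ ‖z - w‖ := abs_norm_sub_norm_le z w
  have hAb : ∀ n : ℕ, ‖A (n + 1)‖ ≤ r * ((r ^ (n + 1))⁻¹ * (η ^ N)⁻¹) := by
    intro n
    have h1 := circleIntegral.norm_integral_le_of_norm_le_const (c := (0 : ℂ)) (R := r)
      (f := fun z => (z ^ (n + 1))⁻¹ * (P.eval z)⁻¹) (C := (r ^ (n + 1))⁻¹ * (η ^ N)⁻¹) hr0.le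
      (fun z hz => by
        have hz' : ‖z‖ = r := by simpa using hz
        rw [norm_mul, norm_inv, norm_inv, norm_pow, hz']
        exact mul_le_mul_of_nonneg_left (inv_anti₀ (by positivity) (hPlow z hz)) (by positivity))
    rw [hAI, norm_mul, norm_neg] at h1
    have h2 : ‖(2 * π * I : ℂ)‖ = 2 * π := by
      simp [Real.pi_pos.le]
    rw [h2, mul_assoc (2 * π) r] at h1
    exact le_of_mul_le_mul_left h1 Real.two_pi_pos
  -- the coefficients
  set c : ℕ → ℂ := fun k => ∑ i ∈ range (N + 1) with k < i, P.coeff i * A (K + k - i + 1) with hc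
  refine ⟨c, fun z hz => ?_, fun k => ?_⟩
  · -- the identity
    have hPz : P.eval z = 0 := by
      have := Lagrange.eval_nodal_at_node (v := (id : ℂ → ℂ)) hz
      simpa using this
    have hexp : ∑ k ∈ range N, c k * z ^ (K + k) = z ^ K * ∑ w ∈ W with r < ‖w‖,
        lam w * (w ^ K)⁻¹ * ∑ i ∈ range (N + 1), P.coeff i * ∑ k ∈ range i, z ^ k * w ^ (i - 1 - k) := by
      have e1 : ∀ k ∈ range N, c k * z ^ (K + k) = ∑ w ∈ W with r < ‖w‖, ∑ i ∈ range (N + 1),
          if k < i then z ^ K * (lam w * (w ^ K)⁻¹ * (P.coeff i * (z ^ k * w ^ (i - 1 - k)))) else 0 := by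
        intro k hk
        rw [Finset.mem_range] at hk
        rw [hc]
        simp only
        rw [Finset.sum_filter, Finset.sum_mul, Finset.sum_comm]
        apply Finset.sum_congr rfl
        intro i hi
        rw [Finset.mem_range] at hi
        split_ifs with hki
        · rw [hA]
          simp only
          rw [Finset.mul_sum, Finset.sum_mul]
          apply Finset.sum_congr rfl
          intro w hw
          have hw0 : w ≠ 0 := h0 w (Finset.mem_filter.1 hw).1
          have e2 : w ^ (i - 1 - k) * w ^ (K + k - i + 1) = w ^ K := by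
            rw [← pow_add]
            congr 1
            omega
          have e3 : (w ^ (K + k - i + 1))⁻¹ = (w ^ K)⁻¹ * w ^ (i - 1 - k) := by
            rw [← e2]
            field_simp
          rw [e3, pow_add]
          ring
        · simp
      rw [Finset.sum_congr rfl e1, Finset.sum_comm, Finset.mul_sum]
      apply Finset.sum_congr rfl
      intro w _
      rw [Finset.sum_comm, Finset.mul_sum, Finset.mul_sum]
      apply Finset.sum_congr rfl
      intro i hi
      rw [Finset.mem_range] at hi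
      rw [← Finset.sum_filter]
      have e4 : (range N).filter (fun k => k < i) = range i := by
        ext k
        simp only [Finset.mem_filter, Finset.mem_range]
        omega
      rw [e4, Finset.mul_sum, Finset.mul_sum, Finset.mul_sum]
    rw [hexp]
    have hD : ∀ w : ℂ, (∑ i ∈ range (N + 1), P.coeff i * ∑ k ∈ range i, z ^ k * w ^ (i - 1 - k)) *
        (z - w) = P.eval z - P.eval w := by
      intro w
      rw [Finset.sum_mul, eval_eq_sum_range, eval_eq_sum_range, hPd, ← Finset.sum_sub_distrib]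
      apply Finset.sum_congr rfl
      intro i _
      rw [mul_assoc, Commute.geom_sum₂_mul (Commute.all z w)]
      ring
    have hDD : ∑ i ∈ range (N + 1), P.coeff i * ∑ k ∈ range i, z ^ k * z ^ (i - 1 - k) =
        P.derivative.eval z := by
      rw [derivative_eval, Polynomial.sum_over_range' P (by intro n; simp) (N + 1) (by rw [hPd]; omega)]
      apply Finset.sum_congr rfl
      intro i _
      rw [geom_sum₂_self]
      ring
    have hz0 : z ≠ 0 := h0 z hz
    split_ifs with hzr
    · have hzm : z ∈ W.filter (fun w => r < ‖w‖) := Finset.mem_filter.2 ⟨hz, hzr⟩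
      rw [Finset.sum_eq_single_of_mem z hzm, hDD]
      · have h1 := hlamd z hz
        have h2 : z ^ K ≠ 0 := pow_ne_zero _ hz0
        field_simp
        linear_combination h1
      · intro w hw hwz
        have hwW := (Finset.mem_filter.1 hw).1
        have hPw : P.eval w = 0 := by
          have := Lagrange.eval_nodal_at_node (v := (id : ℂ → ℂ)) hwW
          simpa using this
        have h1 := hD w
        rw [hPz, hPw, sub_zero] at h1
        rcases mul_eq_zero.1 h1 with h2 | h2
        · rw [h2, mul_zero]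
        · exact absurd (sub_eq_zero.1 h2).symm hwz
    · rw [Finset.sum_eq_zero, mul_zero]
      intro w hw
      have hwW := (Finset.mem_filter.1 hw).1
      have hPw : P.eval w = 0 := by
        have := Lagrange.eval_nodal_at_node (v := (id : ℂ → ℂ)) hwW
        simpa using this
      have h1 := hD w
      rw [hPz, hPw, sub_zero] at h1
      rcases mul_eq_zero.1 h1 with h2 | h2
      · rw [h2, mul_zero]
      · exfalso
        rw [sub_eq_zero] at h2
        subst h2
        exact hzr (Finset.mem_filter.1 hw).2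
  · -- the bound
    have hcf : ∀ i, ‖P.coeff i‖ ≤ R ^ (N - i) * N.choose i := by
      intro i
      have h1 := Polynomial.coeff_le_of_roots_le (p := P) (f := RingHom.id ℂ) (B := R) i hPm
        (by rw [Polynomial.map_id]; exact IsAlgClosed.splits P) (by
          intro w hw
          rw [Polynomial.map_id, mem_roots hPm.ne_zero, IsRoot, hPe, Finset.prod_eq_zero_iff] at hw
          obtain ⟨v, hv, hv2⟩ := hw
          rw [sub_eq_zero] at hv2
          subst hv2
          exact hR _ hv)
      rwa [Polynomial.map_id, hPd] at h1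
    rw [hc]
    simp only
    refine (norm_sum_le _ _).trans ?_
    calc ∑ i ∈ range (N + 1) with k < i, ‖P.coeff i * A (K + k - i + 1)‖
        ≤ ∑ i ∈ range (N + 1) with k < i, (R ^ (N - i) * N.choose i) * (r ^ i * ((r ^ K)⁻¹ * (η ^ N)⁻¹)) := by
          apply Finset.sum_le_sum
          intro i hi
          rw [Finset.mem_filter, Finset.mem_range] at hi
          rw [norm_mul]
          refine mul_le_mul (hcf i) ?_ (norm_nonneg _) (by positivity)
          refine (hAb (K + k - i)).trans ?_
          rw [← mul_assoc, ← mul_assoc]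
          refine mul_le_mul_of_nonneg_right ?_ (by positivity)
          have e1 : r ^ K * r ≤ r ^ i * r ^ (K + k - i + 1) := by
            rw [← pow_succ, ← pow_add]
            exact pow_le_pow_right₀ hr (by omega)
          rw [← div_eq_mul_inv, ← div_eq_mul_inv, div_le_div_iff₀ (by positivity) (by positivity)]
          linarith
      _ ≤ ∑ i ∈ range (N + 1), (R ^ (N - i) * N.choose i) * (r ^ i * ((r ^ K)⁻¹ * (η ^ N)⁻¹)) := by
          apply Finset.sum_le_sum_of_subset_of_nonneg (Finset.filter_subset _ _)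
          intro i _ _
          positivity
      _ = (r ^ K)⁻¹ * ((R + r) / η) ^ N := by
          rw [div_pow, add_comm R r, add_pow, Finset.sum_div, Finset.mul_sum]
          apply Finset.sum_congr rfl
          intro i _
          field_simp

end Pool.Agent.Run7.h91.SP
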