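import Pool.Agent.Run7.h91.SP.Kern
import Pool.Agent.Run7.h91.SP.Nodes

/-!
# The explicit formula with prime sums
-/

set_option autoImplicit false

open Complex Metric Finset Filter Topology MeasureTheory
open scoped Real

namespace Pool.Agent.Run7.h91.SP

/-- `-X'/X = ∑ a(n) n^(-z) - g(z)` on `Re z = 3/4`, `g` regular for `0 ≤ Re z ≤ 3/4` -/
structure Ser (X : ℂ → ℂ) (a : ℕ → ℂ) : Prop where
  sum : Summable fun n : ℕ => ‖a n‖ * (n : ℝ) ^ (-(3 / 4) : ℝ)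
  ex : ∃ (g : ℂ → ℂ) (C : ℝ), 0 ≤ C ∧ DifferentiableOn ℂ g {z | 0 ≤ z.re ∧ z.re ≤ 3 / 4} ∧
    (∀ z : ℂ, 0 ≤ z.re → z.re ≤ 3 / 4 → ‖g z‖ ≤ C * (1 + |z.im|)) ∧
    ∀ t : ℝ, logDeriv X ⟨3 / 4, t⟩ = g ⟨3 / 4, t⟩ - ∑' n : ℕ, a n * (n : ℂ) ^ (-(⟨3 / 4, t⟩ : ℂ))

/-- the smoothed sum -/
noncomputable def SS (a : ℕ → ℂ) (x : ℝ) : ℂ := ∑' n : ℕ, a n * (((x / n) / (1 + (x / n) ^ 2) : ℝ) : ℂ)

lemma norm_ncpow (n : ℕ) (t : ℝ) : ‖(n : ℂ) ^ (-(⟨3 / 4, t⟩ : ℂ))‖ = (n : ℝ) ^ (-(3 / 4) : ℝ) := by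
  rw [Complex.norm_natCast_cpow_of_re_ne_zero]
  · simp
  · simp

lemma line_int {y : ℝ} (hy : 0 < y) : Integrable fun t : ℝ => MM ⟨3 / 4, t⟩ * (y : ℂ) ^ (⟨3 / 4, t⟩ : ℂ) := by
  have hyc : (y : ℂ) ≠ 0 := by exact_mod_cast hy.ne'
  apply int_of (B := 16 * y ^ (3 / 4 : ℝ))
  · apply Continuous.mul
    · apply MM_diff.continuousOn.comp_continuous (cont_mk _)
      intro t
      show |(3 / 4 : ℝ)| < 1
      norm_num [abs_of_pos]
    · exact (cont_mk _).const_cpow (Or.inl hyc)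
  · intro t
    rw [norm_mul, Complex.norm_cpow_eq_rpow_re_of_pos hy]
    have h1 := MM_bd (z := ⟨3 / 4, t⟩) (by norm_num [abs_of_pos])
    simp only at h1
    have h2 : Real.exp (-(3 / 2 * |t|)) ≤ Real.exp (-|t| / 2) :=
      Real.exp_le_exp.2 (by linarith [abs_nonneg t])
    have h3 : 0 < y ^ (3 / 4 : ℝ) := Real.rpow_pos_of_pos hy _
    calc ‖MM ⟨3 / 4, t⟩‖ * y ^ (3 / 4 : ℝ) ≤ (16 * Real.exp (-|t| / 2)) * y ^ (3 / 4 : ℝ) := by
          apply mul_le_mul_of_nonneg_right _ h3.le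
          exact h1.trans (mul_le_mul_of_nonneg_left h2 (by norm_num))
      _ = _ := by ring

/-- one term -/
lemma L0 {y : ℝ} (hy : 0 < y) {n : ℕ} (hn : n ≠ 0) :
    (∫ t : ℝ, (n : ℂ) ^ (-(⟨3 / 4, t⟩ : ℂ)) * (MM ⟨3 / 4, t⟩ * (y : ℂ) ^ (⟨3 / 4, t⟩ : ℂ))) =
      2 * π * (((y / n) / (1 + (y / n) ^ 2) : ℝ) : ℂ) := by
  have hn0 : (0 : ℝ) < n := by exact_mod_cast Nat.pos_of_ne_zero hn
  have h1 := MM_inv (y := y / n) (by positivity)
  have h2 : ∀ t : ℝ, (n : ℂ) ^ (-(⟨3 / 4, t⟩ : ℂ)) * (MM ⟨3 / 4, t⟩ * (y : ℂ) ^ (⟨3 / 4, t⟩ : ℂ)) =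
      MM ⟨3 / 4, t⟩ * ((y / n : ℝ) : ℂ) ^ (⟨3 / 4, t⟩ : ℂ) := by
    intro t
    have e1 : ((y / n : ℝ) : ℂ) ^ (⟨3 / 4, t⟩ : ℂ) = (y : ℂ) ^ (⟨3 / 4, t⟩ : ℂ) * (n : ℂ) ^ (-(⟨3 / 4, t⟩ : ℂ)) := by
      rw [div_eq_mul_inv, Complex.ofReal_mul, Complex.mul_cpow_ofReal_nonneg hy.le (inv_nonneg.2 hn0.le),
        Complex.cpow_neg, ← Complex.inv_cpow]
      · push_cast
        rfl
      · rw [Complex.natCast_arg]
        exact Real.pi_pos.ne
    rw [e1]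
    ring
  simp only [h2]
  rw [h1]
  push_cast
  ring

/-- the prime side for one test function -/
lemma L1 {a : ℕ → ℂ} (ha : Summable fun n : ℕ => ‖a n‖ * (n : ℝ) ^ (-(3 / 4) : ℝ)) {y : ℝ} (hy : 0 < y) :
    (∫ t : ℝ, (∑' n : ℕ, a n * (n : ℂ) ^ (-(⟨3 / 4, t⟩ : ℂ))) * (MM ⟨3 / 4, t⟩ * (y : ℂ) ^ (⟨3 / 4, t⟩ : ℂ))) =
      2 * π * SS a y := by
  set F : ℕ → ℝ → ℂ := fun n t => a n * ((n : ℂ) ^ (-(⟨3 / 4, t⟩ : ℂ)) *
    (MM ⟨3 / 4, t⟩ * (y : ℂ) ^ (⟨3 / 4, t⟩ : ℂ))) with hF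
  have hli := line_int hy
  have hn : ∀ n t, ‖F n t‖ = ‖a n‖ * (n : ℝ) ^ (-(3 / 4) : ℝ) * ‖MM ⟨3 / 4, t⟩ * (y : ℂ) ^ (⟨3 / 4, t⟩ : ℂ)‖ := by
    intro n t
    rw [hF]
    beta_reduce
    rw [norm_mul, norm_mul, norm_ncpow]
    ring
  have hi : ∀ n, Integrable (F n) := by
    intro n
    rcases eq_or_ne n 0 with rfl | hn0
    · have : F 0 = fun _ => 0 := by
        funext t
        rw [← norm_eq_zero, hn]
        rw [Nat.cast_zero, Real.zero_rpow (by norm_num)]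
        ring
      rw [this]
      exact integrable_zero _ _ _
    · apply Integrable.const_mul
      apply hli.bdd_mul (c := (n : ℝ) ^ (-(3 / 4) : ℝ))
      · apply Continuous.aestronglyMeasurable
        exact (cont_mk _).neg.const_cpow (Or.inl (by exact_mod_cast hn0))
      · exact Eventually.of_forall fun t => (norm_ncpow n t).le
  have h1 := integral_tsum_of_summable_integral_norm hi (by
    have : (fun n => ∫ t : ℝ, ‖F n t‖) = fun n => ‖a n‖ * (n : ℝ) ^ (-(3 / 4) : ℝ) *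
        ∫ t : ℝ, ‖MM ⟨3 / 4, t⟩ * (y : ℂ) ^ (⟨3 / 4, t⟩ : ℂ)‖ := by
      funext n
      rw [← integral_const_mul]
      exact integral_congr_ae (Eventually.of_forall fun t => hn n t)
    rw [this]
    exact ha.mul_right _)
  have h2 : ∀ t : ℝ, (∑' n : ℕ, a n * (n : ℂ) ^ (-(⟨3 / 4, t⟩ : ℂ))) *
      (MM ⟨3 / 4, t⟩ * (y : ℂ) ^ (⟨3 / 4, t⟩ : ℂ)) = ∑' n, F n t := by
    intro t
    rw [← tsum_mul_right]
    exact tsum_congr fun n => by rw [hF]; ring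
  simp only [h2]
  rw [← h1]
  unfold SS
  rw [← tsum_mul_left]
  apply tsum_congr
  intro n
  rw [hF]
  beta_reduce
  rw [integral_const_mul]
  rcases eq_or_ne n 0 with rfl | hn0
  · have h3 : ∀ t : ℝ, ((0 : ℕ) : ℂ) ^ (-(⟨3 / 4, t⟩ : ℂ)) = 0 := by
      intro t
      rw [← norm_eq_zero, norm_ncpow, Nat.cast_zero, Real.zero_rpow (by norm_num)]
    simp only [h3, zero_mul, integral_zero]
    simp
  · rw [L0 hy hn0]
    ring

/-- the test function of an exponential polynomial -/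
noncomputable def hh (m : ℕ) (c : ℕ → ℂ) (y : ℕ → ℝ) (z : ℂ) : ℂ := MM z * ∑ k ∈ range m, c k * (y k : ℂ) ^ z

lemma hh_bd {m : ℕ} {c : ℕ → ℂ} {y : ℕ → ℝ} (hy : ∀ k, 1 ≤ y k) {z : ℂ} (hz : |z.re| ≤ 3 / 4) :
    ‖hh m c y z‖ ≤ 16 * (∑ k ∈ range m, ‖c k‖ * y k ^ z.re) * Real.exp (-(3 / 2 * |z.im|)) := by
  have h1 := MM_bd hz
  have h2 : ‖∑ k ∈ range m, c k * (y k : ℂ) ^ z‖ ≤ ∑ k ∈ range m, ‖c k‖ * y k ^ z.re := by
    refine (norm_sum_le _ _).trans (Finset.sum_le_sum fun k _ => ?_)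
    rw [norm_mul, Complex.norm_cpow_eq_rpow_re_of_pos (by linarith [hy k])]
  unfold hh
  rw [norm_mul]
  calc _ ≤ (16 * Real.exp (-(3 / 2 * |z.im|))) * ∑ k ∈ range m, ‖c k‖ * y k ^ z.re :=
        mul_le_mul h1 h2 (norm_nonneg _) (by positivity)
    _ = _ := by ring

lemma hh_tst {m : ℕ} {c : ℕ → ℂ} {y : ℕ → ℝ} (hy : ∀ k, 1 ≤ y k) : Tst (hh m c y)
    (16 * ∑ k ∈ range m, ‖c k‖ * y k ^ (3 / 4 : ℝ)) := by
  constructor
  · apply MM_diff.mul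
    apply DifferentiableOn.fun_sum
    intro k _
    intro z _
    apply DifferentiableAt.differentiableWithinAt
    apply DifferentiableAt.const_mul
    exact (differentiableAt_id).const_cpow (Or.inl (by
      have := hy k
      exact_mod_cast (by linarith : y k ≠ 0)))
  · intro z hz
    refine (hh_bd hy hz).trans ?_
    have h1 : ∑ k ∈ range m, ‖c k‖ * y k ^ z.re ≤ ∑ k ∈ range m, ‖c k‖ * y k ^ (3 / 4 : ℝ) := by
      apply Finset.sum_le_sum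
      intro k _
      apply mul_le_mul_of_nonneg_left _ (norm_nonneg _)
      exact Real.rpow_le_rpow_of_exponent_le (hy k) (abs_le.1 hz).2
    have h2 : Real.exp (-(3 / 2 * |z.im|)) ≤ Real.exp (-|z.im|) :=
      Real.exp_le_exp.2 (by linarith [abs_nonneg z.im])
    have h3 : 0 ≤ ∑ k ∈ range m, ‖c k‖ * y k ^ z.re :=
      Finset.sum_nonneg fun k _ => mul_nonneg (norm_nonneg _) (Real.rpow_nonneg (by linarith [hy k]) _)
    exact mul_le_mul (by linarith) h2 (Real.exp_pos _).le (by linarith)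

/-- **The explicit formula with the prime side.** -/
theorem formula {X : ℂ → ℂ} (hX : Dat X) {a : ℕ → ℂ} (ha : Ser X a) : ∃ C : ℝ, 0 ≤ C ∧
    ∀ (m : ℕ) (c : ℕ → ℂ) (y : ℕ → ℝ), (∀ k, 1 ≤ y k) →
      ‖JJ X (hh m c y) + 2 * π * ∑ k ∈ range m, c k * SS a (y k)‖ ≤ C * ∑ k ∈ range m, ‖c k‖ := by
  obtain ⟨g, C, hC, hgd, hgb, hg⟩ := ha.ex
  obtain ⟨C1, hC1, hline⟩ := hX.line
  set I0 : ℝ := ∫ t : ℝ, Real.exp (-|t| / 2) with hI0
  have hI00 : 0 ≤ I0 := integral_nonneg fun t => (Real.exp_pos _).le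
  refine ⟨256 * (C + C1) * I0, by positivity, fun m c y hy => ?_⟩
  set h := hh m c y with hh'
  set A := ∑ k ∈ range m, ‖c k‖ with hA
  have hA0 : 0 ≤ A := Finset.sum_nonneg fun k _ => norm_nonneg _
  have hT : Tst h _ := hh_tst hy
  have hsplit : ∀ s : ℝ, 0 ≤ s → (1 + s) * Real.exp (-(3 / 2 * s)) ≤ 16 * Real.exp (-s / 2) := by
    intro s hs
    refine le_trans ?_ (poly_exp hs)
    have h1 : Real.exp (-(3 / 2 * s)) ≤ Real.exp (-s) := Real.exp_le_exp.2 (by linarith)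
    have h2 : (1 + s) ≤ (1 + s) ^ 2 := by nlinarith
    exact mul_le_mul h2 h1 (Real.exp_pos _).le (by positivity)
  -- a bound for the test function to the left
  have hleft : ∀ z : ℂ, -(3 / 4) ≤ z.re → z.re ≤ 0 → ‖h z‖ ≤ 16 * A * Real.exp (-(3 / 2 * |z.im|)) := by
    intro z h1 h2
    refine (hh_bd hy (abs_le.2 ⟨h1, by linarith⟩)).trans ?_
    have h3 : ∑ k ∈ range m, ‖c k‖ * y k ^ z.re ≤ A := by
      apply Finset.sum_le_sum
      intro k _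
      have h4 : y k ^ z.re ≤ 1 := Real.rpow_le_one_of_one_le_of_nonpos (hy k) h2
      calc ‖c k‖ * y k ^ z.re ≤ ‖c k‖ * 1 := mul_le_mul_of_nonneg_left h4 (norm_nonneg _)
        _ = _ := mul_one _
    have h5 := Real.exp_pos (-(3 / 2 * |z.im|))
    nlinarith
  -- the left line
  have e1 : ‖∫ t : ℝ, logDeriv X ⟨-(3 / 4), t⟩ * h ⟨-(3 / 4), t⟩‖ ≤ 256 * C1 * A * I0 := by
    rw [hI0, ← integral_const_mul]
    apply norm_integral_le_of_norm_le (int_exp.const_mul _)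
    refine Eventually.of_forall fun t => ?_
    have h1 := hline (-(3 / 4)) t (by norm_num [abs_of_pos])
    have h2 := hleft ⟨-(3 / 4), t⟩ le_rfl (by norm_num)
    simp only at h2
    rw [norm_mul]
    calc _ ≤ (C1 * (1 + |t|)) * (16 * A * Real.exp (-(3 / 2 * |t|))) :=
          mul_le_mul h1 h2 (norm_nonneg _) (by positivity)
      _ = 16 * C1 * A * ((1 + |t|) * Real.exp (-(3 / 2 * |t|))) := by ring
      _ ≤ 16 * C1 * A * (16 * Real.exp (-|t| / 2)) :=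
          mul_le_mul_of_nonneg_left (hsplit _ (abs_nonneg t)) (by positivity)
      _ = _ := by ring
  -- the gamma factors
  have e2 : (∫ t : ℝ, g ⟨3 / 4, t⟩ * h ⟨3 / 4, t⟩) = ∫ t : ℝ, g ⟨0, t⟩ * h ⟨0, t⟩ := by
    apply shift (f := fun z => g z * h z)
      (B := 256 * C * ∑ k ∈ range m, ‖c k‖ * y k ^ (3 / 4 : ℝ)) (by norm_num)
    · apply hgd.mul
      apply hT.diff.mono
      intro z hz
      show |z.re| < 1
      rw [abs_lt]
      exact ⟨by linarith [hz.1], by linarith [hz.2]⟩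
    · intro z h1 h2
      have h3 := hgb z h1 h2
      have h4 : ‖h z‖ ≤ 16 * (∑ k ∈ range m, ‖c k‖ * y k ^ (3 / 4 : ℝ)) * Real.exp (-(3 / 2 * |z.im|)) := by
        refine (hh_bd hy (abs_le.2 ⟨by linarith, h2⟩)).trans ?_
        have h5 : ∑ k ∈ range m, ‖c k‖ * y k ^ z.re ≤ ∑ k ∈ range m, ‖c k‖ * y k ^ (3 / 4 : ℝ) := by
          apply Finset.sum_le_sum
          intro k _
          apply mul_le_mul_of_nonneg_left _ (norm_nonneg _)
          exact Real.rpow_le_rpow_of_exponent_le (hy k) h2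
        have h6 := Real.exp_pos (-(3 / 2 * |z.im|))
        nlinarith
      have h7 : 0 ≤ ∑ k ∈ range m, ‖c k‖ * y k ^ (3 / 4 : ℝ) :=
        Finset.sum_nonneg fun k _ => mul_nonneg (norm_nonneg _) (Real.rpow_nonneg (by linarith [hy k]) _)
      rw [norm_mul]
      calc _ ≤ (C * (1 + |z.im|)) * (16 * (∑ k ∈ range m, ‖c k‖ * y k ^ (3 / 4 : ℝ)) *
              Real.exp (-(3 / 2 * |z.im|))) := mul_le_mul h3 h4 (norm_nonneg _) (by positivity)
        _ = 16 * C * (∑ k ∈ range m, ‖c k‖ * y k ^ (3 / 4 : ℝ)) *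
              ((1 + |z.im|) * Real.exp (-(3 / 2 * |z.im|))) := by ring
        _ ≤ 16 * C * (∑ k ∈ range m, ‖c k‖ * y k ^ (3 / 4 : ℝ)) * (16 * Real.exp (-|z.im| / 2)) :=
            mul_le_mul_of_nonneg_left (hsplit _ (abs_nonneg _)) (by positivity)
        _ = _ := by ring
  have e3 : ‖∫ t : ℝ, g ⟨0, t⟩ * h ⟨0, t⟩‖ ≤ 256 * C * A * I0 := by
    rw [hI0, ← integral_const_mul]
    apply norm_integral_le_of_norm_le (int_exp.const_mul _)
    refine Eventually.of_forall fun t => ?_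
    have h1 := hgb ⟨0, t⟩ le_rfl (by norm_num)
    have h2 := hleft ⟨0, t⟩ (by norm_num) le_rfl
    simp only at h1 h2
    rw [norm_mul]
    calc _ ≤ (C * (1 + |t|)) * (16 * A * Real.exp (-(3 / 2 * |t|))) :=
          mul_le_mul h1 h2 (norm_nonneg _) (by positivity)
      _ = 16 * C * A * ((1 + |t|) * Real.exp (-(3 / 2 * |t|))) := by ring
      _ ≤ 16 * C * A * (16 * Real.exp (-|t| / 2)) :=
          mul_le_mul_of_nonneg_left (hsplit _ (abs_nonneg t)) (by positivity)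
      _ = _ := by ring
  -- the prime side
  set P : ℝ → ℂ := fun t => ∑' n : ℕ, a n * (n : ℂ) ^ (-(⟨3 / 4, t⟩ : ℂ)) with hP
  have hPb : ∀ t, ‖P t‖ ≤ ∑' n : ℕ, ‖a n‖ * (n : ℝ) ^ (-(3 / 4) : ℝ) := by
    intro t
    apply tsum_of_norm_bounded ha.sum.hasSum
    intro n
    rw [norm_mul, norm_ncpow]
  have hgi : Integrable fun t : ℝ => g ⟨3 / 4, t⟩ * h ⟨3 / 4, t⟩ := by
    apply int_of (B := 256 * C * ∑ k ∈ range m, ‖c k‖ * y k ^ (3 / 4 : ℝ))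
    · apply Continuous.mul
      · apply hgd.continuousOn.comp_continuous (cont_mk _)
        intro t
        exact ⟨by norm_num, le_rfl⟩
      · exact hT.line (by norm_num [abs_of_pos])
    · intro t
      have h3 := hgb ⟨3 / 4, t⟩ (by norm_num) le_rfl
      have h4 := hh_bd (m := m) (c := c) hy (z := ⟨3 / 4, t⟩) (by norm_num [abs_of_pos])
      simp only at h3 h4
      have h7 : 0 ≤ ∑ k ∈ range m, ‖c k‖ * y k ^ (3 / 4 : ℝ) :=
        Finset.sum_nonneg fun k _ => mul_nonneg (norm_nonneg _) (Real.rpow_nonneg (by linarith [hy k]) _)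
      show ‖g ⟨3 / 4, t⟩ * h ⟨3 / 4, t⟩‖ ≤ _
      rw [norm_mul]
      calc _ ≤ (C * (1 + |t|)) * (16 * (∑ k ∈ range m, ‖c k‖ * y k ^ (3 / 4 : ℝ)) *
              Real.exp (-(3 / 2 * |t|))) := mul_le_mul h3 h4 (norm_nonneg _) (by positivity)
        _ = 16 * C * (∑ k ∈ range m, ‖c k‖ * y k ^ (3 / 4 : ℝ)) *
              ((1 + |t|) * Real.exp (-(3 / 2 * |t|))) := by ring
        _ ≤ 16 * C * (∑ k ∈ range m, ‖c k‖ * y k ^ (3 / 4 : ℝ)) * (16 * Real.exp (-|t| / 2)) :=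
            mul_le_mul_of_nonneg_left (hsplit _ (abs_nonneg _)) (by positivity)
        _ = _ := by ring
  have hPc : AEStronglyMeasurable P volume := by
    apply Continuous.aestronglyMeasurable
    apply continuous_tsum (u := fun n : ℕ => ‖a n‖ * (n : ℝ) ^ (-(3 / 4) : ℝ))
    · intro n
      rcases eq_or_ne n 0 with rfl | hn0
      · have : (fun t : ℝ => a 0 * ((0 : ℕ) : ℂ) ^ (-(⟨3 / 4, t⟩ : ℂ))) = fun _ => 0 := by
          funext t
          rw [← norm_eq_zero, norm_mul, norm_ncpow, Nat.cast_zero, Real.zero_rpow (by norm_num), mul_zero]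
        rw [this]
        exact continuous_const
      · exact continuous_const.mul ((cont_mk _).neg.const_cpow (Or.inl (by exact_mod_cast hn0)))
    · exact ha.sum
    · intro n t
      rw [norm_mul, norm_ncpow]
  have hPi : ∀ k, Integrable fun t : ℝ => P t * (MM ⟨3 / 4, t⟩ * (y k : ℂ) ^ (⟨3 / 4, t⟩ : ℂ)) := fun k =>
    (line_int (by linarith [hy k])).bdd_mul hPc (Eventually.of_forall hPb)
  have e4 : (∫ t : ℝ, P t * h ⟨3 / 4, t⟩) = 2 * π * ∑ k ∈ range m, c k * SS a (y k) := by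
    have e5 : ∀ t : ℝ, P t * h ⟨3 / 4, t⟩ =
        ∑ k ∈ range m, c k * (P t * (MM ⟨3 / 4, t⟩ * (y k : ℂ) ^ (⟨3 / 4, t⟩ : ℂ))) := by
      intro t
      rw [hh']
      unfold hh
      rw [Finset.mul_sum, Finset.mul_sum]
      exact Finset.sum_congr rfl fun k _ => by ring
    simp only [e5]
    rw [integral_finsetSum _ fun k _ => (hPi k).const_mul (c k), Finset.mul_sum]
    apply Finset.sum_congr rfl
    intro k _
    rw [integral_const_mul, L1 ha.sum (by linarith [hy k])]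
    ring
  have hPhi : Integrable fun t : ℝ => P t * h ⟨3 / 4, t⟩ := by
    apply Integrable.bdd_mul _ hPc (Eventually.of_forall hPb)
    apply int_of (B := 16 * ∑ k ∈ range m, ‖c k‖ * y k ^ (3 / 4 : ℝ)) (hT.line (by norm_num [abs_of_pos]))
    intro t
    exact (hT.bd ⟨3 / 4, t⟩ (by norm_num [abs_of_pos])).trans (mul_le_mul_of_nonneg_left (exp_half t) hT.nonneg)
  have e6 : (∫ t : ℝ, logDeriv X ⟨3 / 4, t⟩ * h ⟨3 / 4, t⟩) =
      (∫ t : ℝ, g ⟨3 / 4, t⟩ * h ⟨3 / 4, t⟩) - ∫ t : ℝ, P t * h ⟨3 / 4, t⟩ := by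
    rw [← integral_sub hgi hPhi]
    apply integral_congr_ae
    refine Eventually.of_forall fun t => ?_
    beta_reduce
    rw [hg t, sub_mul]
  have e7 : JJ X h + 2 * π * ∑ k ∈ range m, c k * SS a (y k) =
      (∫ t : ℝ, g ⟨0, t⟩ * h ⟨0, t⟩) - ∫ t : ℝ, logDeriv X ⟨-(3 / 4), t⟩ * h ⟨-(3 / 4), t⟩ := by
    unfold JJ
    rw [e6, e4, e2]
    ring
  rw [e7]
  calc _ ≤ ‖∫ t : ℝ, g ⟨0, t⟩ * h ⟨0, t⟩‖ + ‖∫ t : ℝ, logDeriv X ⟨-(3 / 4), t⟩ * h ⟨-(3 / 4), t⟩‖ := norm_sub_le _ _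
    _ ≤ 256 * C * A * I0 + 256 * C1 * A * I0 := add_le_add e3 e1
    _ = 256 * (C + C1) * I0 * A := by ring

end Pool.Agent.Run7.h91.SP
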