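import Pool.Agent.Run7.h91.SP.Pri
import Pool.Agent.R838.TW.Cnt
import Pool.Agent.R838.TW.Form

/-!
# Families of twists of the newform of an elliptic curve
-/

set_option autoImplicit false

open Complex Metric Finset Filter Topology MeasureTheory
open UpperHalfPlane hiding I
open MatrixGroups
open CongruenceSubgroup hiding Gamma
open scoped Real ComplexConjugate

namespace Pool.Agent.Run7.h91.SP

open Pool.Agent.R838.TW (PL Sy pl_fac pl_prod S_fin)
open Pool.Agent.W355.UN (Conv Eu2 lam2 facE eu2_of)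
open Pool.Agent.W169.HF (IsForm coef)

/-! ### the digamma function -/

lemma dig_bd : ∃ C : ℝ, 0 ≤ C ∧ ∀ s : ℂ, 1 ≤ s.re → ‖logDeriv Gamma s‖ ≤ C * (1 + ‖s‖) := by
  set Z : ℝ := ∑' n : ℕ, 1 / ((n : ℝ) + 1) ^ 2 with hZ
  have hZ0 : 0 ≤ Z := tsum_nonneg fun n => by positivity
  refine ⟨2 + Z, by positivity, fun s hs => ?_⟩
  rw [H370.DG.logDeriv_Gamma (by linarith)]
  have h1 : 1 ≤ ‖s‖ := hs.trans (Complex.re_le_norm s)
  have h2 : 1 ≤ ‖s + 1‖ := by
    refine le_trans ?_ (Complex.re_le_norm _)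
    rw [Complex.add_re, Complex.one_re]
    linarith
  have h3 : ‖∑' n, H370.DG.gd n s‖ ≤ (1 + ‖s‖) * Z := by
    rw [hZ, ← tsum_mul_left]
    apply tsum_of_norm_bounded (Summable.hasSum (by
      refine (H370.DG.summable_bd ‖s‖).congr fun n => ?_
      ring))
    intro n
    refine (H370.DG.norm_gd_le n (by linarith) le_rfl).trans (le_of_eq ?_)
    ring
  have h4 : ‖(1 : ℂ) / s‖ ≤ 1 := by
    rw [norm_div, norm_one, div_le_one (by linarith)]
    exact h1
  have h5 : ‖(1 : ℂ) / (s + 1)‖ ≤ 1 := by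
    rw [norm_div, norm_one, div_le_one (by linarith)]
    exact h2
  calc _ ≤ ‖(1 : ℂ) / s‖ + ‖(1 : ℂ) / (s + 1)‖ + ‖∑' n, H370.DG.gd n s‖ := by
        refine (norm_add_le _ _).trans (add_le_add_left ?_ _)
        refine (norm_sub_le _ _).trans ?_
        rw [norm_neg]
    _ ≤ 1 + 1 + (1 + ‖s‖) * Z := by linarith
    _ ≤ (2 + Z) * (1 + ‖s‖) := by nlinarith [norm_nonneg s]

lemma gam_diff {s : ℂ} (hs : 0 < s.re) : DifferentiableAt ℂ (logDeriv Gamma) s := by
  have hop : IsOpen {z : ℂ | 0 < z.re} := isOpen_lt continuous_const continuous_re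
  have h1 : DifferentiableOn ℂ Gamma {z : ℂ | 0 < z.re} := by
    intro z hz
    apply (Complex.differentiableAt_Gamma z _).differentiableWithinAt
    intro m h
    rw [h] at hz
    simp at hz
    have : (0 : ℝ) ≤ m := Nat.cast_nonneg m
    linarith
  have h2 : DifferentiableOn ℂ (deriv Gamma) {z : ℂ | 0 < z.re} := h1.deriv hop
  have h3 : DifferentiableAt ℂ (deriv Gamma) s := h2.differentiableAt (hop.mem_nhds hs)
  have h4 : DifferentiableAt ℂ Gamma s := h1.differentiableAt (hop.mem_nhds hs)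
  have h5 := h3.div h4 (Complex.Gamma_ne_zero_of_re_pos hs)
  exact h5

/-! ### one factor -/

variable {N : ℕ} [NeZero N] {f : CuspForm (Gamma0 N : Subgroup (GL (Fin 2) ℝ)) 2} {w : ℝ}

lemma conv_prime {b c : ℕ → ℂ} (h : Conv b c) (h1 : b 1 = 1) {p : ℕ} (hp : p.Prime) : c p = b p := by
  have h2 := h p hp.ne_zero
  rw [hp.divisors, Finset.sum_pair hp.one_lt.ne, ArithmeticFunction.vonMangoldt_apply_one, Nat.div_self hp.pos,
    ArithmeticFunction.vonMangoldt_apply_prime hp, h1] at h2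
  have h3 : ((Real.log p : ℝ) : ℂ) ≠ 0 := by
    have : 0 < Real.log p := Real.log_pos (by exact_mod_cast hp.one_lt)
    exact_mod_cast this.ne'
  apply mul_left_cancel₀ h3
  push_cast at h2 ⊢
  linear_combination -h2

lemma tsum_cf (c : ℕ → ℂ) (z : ℂ) :
    LSeries (fun n => ((ArithmeticFunction.vonMangoldt n : ℝ) : ℂ) * c n) (1 / 2 + z) =
      ∑' n : ℕ, cf c n * (n : ℂ) ^ (-z) := by
  unfold LSeries
  apply tsum_congr
  intro n
  rcases eq_or_ne n 0 with rfl | hn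
  · rw [LSeries.term_zero]
    unfold cf
    simp
  · rw [LSeries.term_of_ne_zero hn]
    have hn0 : (n : ℂ) ≠ 0 := by exact_mod_cast hn
    unfold cf
    have e1 : (((n : ℝ) ^ (-(1 / 2) : ℝ) : ℝ) : ℂ) = (n : ℂ) ^ (-(1 / 2) : ℂ) := by
      rw [Complex.ofReal_cpow (Nat.cast_nonneg _), Complex.ofReal_natCast]
      norm_num
    rw [e1, Complex.cpow_add _ _ hn0, Complex.cpow_neg, Complex.cpow_neg]
    rw [div_eq_mul_inv, mul_inv]
    ring

lemma fac_ser {q : ℕ} [NeZero q] (χ : DirichletCharacter ℂ q) (hf : IsForm N f w) {X : ℂ → ℂ} {v : ℂ}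
    (hv : v ≠ 0) (hX : ∀ s : ℂ, 3 / 2 < s.re → X (s - 1) = v * facE f χ s) :
    ∃ c : ℕ → ℂ, (∀ n, ‖c n‖ ≤ 2) ∧ (∀ p : ℕ, p.Prime → c p = χ (p : ZMod q) * lam2 f p) ∧
      ∀ z : ℂ, 1 / 2 < z.re → logDeriv X z =
        ((Real.log (Real.sqrt N * q / (2 * π)) : ℝ) : ℂ) + logDeriv Gamma (1 + z) -
          ∑' n : ℕ, cf c n * (n : ℂ) ^ (-z) := by
  have hE := (eu2_of hf).twist χ
  obtain ⟨c, hc, hconv⟩ := hE.conv
  refine ⟨c, hc, fun p hp => conv_prime hconv hE.one hp, fun z hz => ?_⟩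
  have hN0 : (0 : ℝ) < N := by exact_mod_cast Nat.pos_of_ne_zero (NeZero.ne N)
  have hq0 : (0 : ℝ) < q := by exact_mod_cast Nat.pos_of_ne_zero (NeZero.ne q)
  have hsq : 0 < Real.sqrt N := Real.sqrt_pos.2 hN0
  obtain ⟨A, hA⟩ : ∃ A : ℝ, A = Real.sqrt N * q / (2 * π) := ⟨_, rfl⟩
  have hA0 : 0 < A := by rw [hA]; positivity
  have hAc : (A : ℂ) ≠ 0 := by exact_mod_cast hA0.ne'
  obtain ⟨b, hb⟩ : ∃ b : ℕ → ℂ, b = fun n : ℕ => χ (n : ZMod q) * lam2 f n := ⟨_, rfl⟩
  rw [← hb] at hconv hE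
  have hco := fun (s : ℂ) (hs : 1 < s.re) => Pool.Agent.W672.UN.coef 2 b c hE.one (fun n => by simpa using hc n) hconv s hs
  have hop : IsOpen {z : ℂ | 1 / 2 < z.re} := isOpen_lt continuous_const continuous_re
  have hEq : ∀ y : ℂ, 1 / 2 < y.re → X y = v * ((A : ℂ) ^ (1 + y) * Gamma (1 + y) * LSeries b (1 / 2 + y)) := by
    intro y hy
    have h1 := hX (1 + y) (by rw [Complex.add_re, Complex.one_re]; linarith)
    rw [add_sub_cancel_left] at h1
    rw [h1]
    unfold facE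
    rw [hA]
    congr 2
    have h2 := (hco (1 / 2 + y) (by
      have : ((1 : ℂ) / 2 + y).re = 1 / 2 + y.re := by simp
      rw [this]; linarith)).1
    rw [Pool.Agent.W355.LJ.lseries_tsum h2]
    apply tsum_congr
    intro n
    have hn : ((n + 1 : ℕ) : ℂ) ≠ 0 := by exact_mod_cast Nat.succ_ne_zero n
    have h3 : -(1 + y) = ((-(1 / 2) : ℝ) : ℂ) + -(1 / 2 + y) := by push_cast; ring
    have h4 : ((((n + 1 : ℕ) : ℝ) ^ (-(1 / 2 : ℝ)) : ℝ) : ℂ) =
        ((n + 1 : ℕ) : ℂ) ^ ((-(1 / 2) : ℝ) : ℂ) := by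
      rw [Complex.ofReal_cpow (Nat.cast_nonneg _), Complex.ofReal_natCast]
    rw [h3, Complex.cpow_add _ _ hn, ← h4, hb]
    unfold lam2 coef
    ring
  have hev : X =ᶠ[𝓝 z] fun y => v * ((A : ℂ) ^ (1 + y) * Gamma (1 + y) * LSeries b (1 / 2 + y)) := by
    filter_upwards [hop.mem_nhds hz] with y hy
    exact hEq y hy
  have hz1 : 0 < (1 + z).re := by rw [Complex.add_re, Complex.one_re]; linarith
  have hz2 : 1 < (1 / 2 + z).re := by
    have : ((1 : ℂ) / 2 + z).re = 1 / 2 + z.re := by simp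
    rw [this]; linarith
  have d1 : HasDerivAt (fun y : ℂ => (A : ℂ) ^ (1 + y)) ((A : ℂ) ^ (1 + z) * Complex.log A * 1) z :=
    ((hasDerivAt_id z).const_add 1).const_cpow (Or.inl hAc)
  have d2 : DifferentiableAt ℂ (fun y : ℂ => Gamma (1 + y)) z := by
    apply DifferentiableAt.comp z _ (by fun_prop)
    apply Complex.differentiableAt_Gamma
    intro m h
    have h5 := congrArg Complex.re h
    rw [Complex.neg_re, Complex.natCast_re] at h5
    have : (0 : ℝ) ≤ m := Nat.cast_nonneg m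
    linarith
  have hbab : LSeries.abscissaOfAbsConv b ≤ 1 := by
    apply LSeries.abscissaOfAbsConv_le_of_forall_lt_LSeriesSummable'
    intro y hy
    have hy' : (1 : ℝ) < y := by exact_mod_cast hy
    exact (hco y (by rwa [Complex.ofReal_re])).1
  have hd3 : DifferentiableAt ℂ (LSeries b) (1 / 2 + z) :=
    (LSeries_analyticOnNhd b _ (lt_of_le_of_lt hbab (by exact_mod_cast hz2))).differentiableAt
  have d3 : DifferentiableAt ℂ (fun y : ℂ => LSeries b (1 / 2 + y)) z :=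
    DifferentiableAt.comp z hd3 (by fun_prop)
  have n1 : (A : ℂ) ^ (1 + z) ≠ 0 := by
    rw [Ne, Complex.cpow_eq_zero_iff]
    exact fun h => hAc h.1
  have n2 : Gamma (1 + z) ≠ 0 := Complex.Gamma_ne_zero_of_re_pos hz1
  have n3 : LSeries b (1 / 2 + z) ≠ 0 := (hco _ hz2).2.1
  have e0 : logDeriv X z = logDeriv (fun y => v * ((A : ℂ) ^ (1 + y) * Gamma (1 + y) * LSeries b (1 / 2 + y))) z := by
    rw [logDeriv_apply, logDeriv_apply, hev.deriv_eq, hev.eq_of_nhds]
  have e1 : logDeriv (fun y => v * ((A : ℂ) ^ (1 + y) * Gamma (1 + y) * LSeries b (1 / 2 + y))) z =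
      logDeriv (fun y => (A : ℂ) ^ (1 + y) * Gamma (1 + y) * LSeries b (1 / 2 + y)) z := by
    rw [logDeriv_const_mul z v hv]
  have e2 : logDeriv (fun y => (A : ℂ) ^ (1 + y) * Gamma (1 + y) * LSeries b (1 / 2 + y)) z =
      logDeriv (fun y => (A : ℂ) ^ (1 + y) * Gamma (1 + y)) z + logDeriv (fun y => LSeries b (1 / 2 + y)) z :=
    logDeriv_mul z (mul_ne_zero n1 n2) n3 (d1.differentiableAt.mul d2) d3
  have e3 : logDeriv (fun y => (A : ℂ) ^ (1 + y) * Gamma (1 + y)) z =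
      logDeriv (fun y => (A : ℂ) ^ (1 + y)) z + logDeriv (fun y => Gamma (1 + y)) z :=
    logDeriv_mul z n1 n2 d1.differentiableAt d2
  have e4 : logDeriv (fun y => (A : ℂ) ^ (1 + y)) z = ((Real.log A : ℝ) : ℂ) := by
    rw [logDeriv_apply, d1.deriv, mul_one, mul_div_assoc, mul_comm, div_mul_cancel₀ _ n1, Complex.ofReal_log hA0.le]
  have e5 : logDeriv (fun y => Gamma (1 + y)) z = logDeriv Gamma (1 + z) := by
    rw [logDeriv_apply, logDeriv_apply]
    congr 1
    exact deriv_comp_const_add _ _ _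
  have e6 : logDeriv (fun y => LSeries b (1 / 2 + y)) z = logDeriv (LSeries b) (1 / 2 + z) := by
    rw [logDeriv_apply, logDeriv_apply]
    congr 1
    exact deriv_comp_const_add _ _ _
  rw [e0, e1, e2, e3, e4, e5, e6, (hco _ hz2).2.2, tsum_cf, ← hA]
  ring

/-! ### families -/

section fam

variable {ι : Type} [Fintype ι] [DecidableEq ι] [Nonempty ι] (q : ι → ℕ) [∀ i, NeZero (q i)]
  (χ : ∀ i, DirichletCharacter ℂ (q i))

/-- what we need of a family of twists -/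
structure Fam (f : CuspForm (Gamma0 N : Subgroup (GL (Fin 2) ℝ)) 2) (X : ℂ → ℂ) (v : ℂ) (c : ℕ → ℂ) : Prop where
  pl : PL (Fintype.card ι : ℝ) X
  hv : v ≠ 0
  eq : ∀ s : ℂ, 3 / 2 < s.re → X (s - 1) = v * ∏ i, facE f (χ i) s
  bd : ∀ n, ‖c n‖ ≤ 2 * Fintype.card ι
  pr : ∀ p : ℕ, p.Prime → c p = (∑ i, χ i (p : ZMod (q i))) * lam2 f p
  ld : ∃ A : ℂ, ∀ z : ℂ, 1 / 2 < z.re → logDeriv X z = A + (Fintype.card ι : ℂ) * logDeriv Gamma (1 + z) -
    ∑' n : ℕ, cf c n * (n : ℂ) ^ (-z)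

lemma cf_tsum_summable {c : ℕ → ℂ} {B : ℝ} (hc : ∀ n, ‖c n‖ ≤ B) {z : ℂ} (hz : 1 / 2 < z.re) :
    Summable fun n : ℕ => cf c n * (n : ℂ) ^ (-z) := by
  have h1 := (vm_sum' (σ := 1 / 2 + z.re) (by linarith)).mul_left B
  refine Summable.of_norm_bounded h1 fun n => ?_
  rcases eq_or_ne n 0 with rfl | hn
  · simp [cf]
  · have hn0 : (0 : ℝ) < n := by exact_mod_cast Nat.pos_of_ne_zero hn
    rw [norm_mul, Complex.norm_natCast_cpow_of_pos (Nat.pos_of_ne_zero hn), Complex.neg_re]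
    refine (mul_le_mul_of_nonneg_right (cf_norm hc n) (Real.rpow_nonneg (Nat.cast_nonneg n) _)).trans (le_of_eq ?_)
    rw [mul_assoc, mul_assoc, ← Real.rpow_add hn0]
    congr 3
    ring

theorem exists_fam (hχ : ∀ i, (χ i).IsPrimitive) (hco : ∀ i, Nat.Coprime (q i) N) (hf : IsForm N f w) :
    ∃ (X : ℂ → ℂ) (v : ℂ) (c : ℕ → ℂ), Fam q χ f X v c := by
  choose X v hP hv hX using fun i => pl_fac (q := q i) (χ := χ i) hf (hχ i) (hco i)
  choose c hc hcp hld using fun i => fac_ser (χ i) hf (hv i) (hX i)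
  refine ⟨fun z => ∏ i, X i z, ∏ i, v i, fun n => ∑ i, c i n, ?_, ?_, ?_, ?_, ?_, ?_⟩
  · have := pl_prod (Finset.univ : Finset ι) Finset.univ_nonempty X fun i _ => hP i
    rwa [Finset.card_univ] at this
  · exact Finset.prod_ne_zero_iff.2 fun i _ => hv i
  · intro s hs
    rw [← Finset.prod_mul_distrib]
    exact Finset.prod_congr rfl fun i _ => hX i s hs
  · intro n
    refine (norm_sum_le _ _).trans ?_
    calc ∑ i, ‖c i n‖ ≤ ∑ _i : ι, (2 : ℝ) := Finset.sum_le_sum fun i _ => hc i n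
      _ = _ := by rw [Finset.sum_const, Finset.card_univ, nsmul_eq_mul]; ring
  · intro p hp
    rw [Finset.sum_mul]
    exact Finset.sum_congr rfl fun i _ => hcp i p hp
  · refine ⟨∑ i, ((Real.log (Real.sqrt N * q i / (2 * π)) : ℝ) : ℂ), fun z hz => ?_⟩
    have hne : ∀ i ∈ (Finset.univ : Finset ι), X i z ≠ 0 := by
      intro i _ h0
      have h1 := (hP i).strip z h0
      have h2 := le_abs_self z.re
      linarith
    have e1 : logDeriv (fun z => ∏ i, X i z) z = ∑ i, logDeriv (X i) z :=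
      logDeriv_prod (f := X) hne (fun i _ => (hP i).diff z)
    rw [e1, Finset.sum_congr rfl fun i _ => hld i z hz, Finset.sum_sub_distrib, Finset.sum_add_distrib,
      Finset.sum_const, Finset.card_univ, nsmul_eq_mul]
    congr 1
    rw [← Summable.tsum_finsetSum (fun i _ => cf_tsum_summable (hc i) hz)]
    apply tsum_congr
    intro n
    unfold cf
    rw [Finset.mul_sum, Finset.sum_mul, Finset.sum_mul]

end fam

end Pool.Agent.Run7.h91.SP
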