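import Pool.Agent.Run7.h91.SP.EC

/-!
# Families of twists: the hypotheses of the sampling theorem
-/

set_option autoImplicit false

open Complex Metric Finset Filter Topology MeasureTheory
open UpperHalfPlane hiding I
open MatrixGroups
open CongruenceSubgroup hiding Gamma
open scoped Real ComplexConjugate

namespace Pool.Agent.Run7.h91.SP

open Pool.Agent.R838.TW (PL Sy pl_fac pl_prod S_fin)
open Pool.Agent.W355.UN (Conv Eu2 lam2 facE eu2_of)
open Pool.Agent.W169.HF (IsForm coef)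

lemma logDeriv_refl {X : ℂ → ℂ} (hs : ∀ z, X (-(conj z)) = conj (X z)) (hd : Differentiable ℂ X) (z : ℂ) :
    logDeriv X (-(conj z)) = -conj (logDeriv X z) := by
  have h1 : (fun w => X (-w)) = (fun w : ℂ => conj (X (conj w))) := by
    funext w
    have := hs (conj w)
    rwa [Complex.conj_conj] at this
  have h2 : deriv (fun w => X (-w)) (conj z) = -deriv X (-(conj z)) := deriv_comp_neg X (conj z)
  have h3 : deriv (fun w : ℂ => conj (X (conj w))) (conj z) = conj (deriv X z) := by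
    have h4 := ((hd z).hasDerivAt.conj_conj).deriv
    exact h4
  rw [h1] at h2
  rw [h3] at h2
  rw [logDeriv_apply, logDeriv_apply, hs, map_div₀, h2, neg_div, neg_neg]

section fam

variable {N : ℕ} [NeZero N] {f : CuspForm (Gamma0 N : Subgroup (GL (Fin 2) ℝ)) 2} {w : ℝ}
variable {ι : Type} [Fintype ι] [DecidableEq ι] [Nonempty ι] {q : ι → ℕ} [∀ i, NeZero (q i)]
  {χ : ∀ i, DirichletCharacter ℂ (q i)} {X : ℂ → ℂ} {v : ℂ} {c : ℕ → ℂ}

lemma Fam.ser (h : Fam q χ f X v c) : Ser X (cf c) := by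
  obtain ⟨A, hA⟩ := h.ld
  obtain ⟨C, hC, hdig⟩ := dig_bd
  have hre : ∀ z : ℂ, 0 ≤ z.re → 1 ≤ (1 + z).re := by
    intro z hz
    rw [Complex.add_re, Complex.one_re]
    linarith
  refine ⟨cf_sum h.bd, fun z => A + (Fintype.card ι : ℂ) * logDeriv Gamma (1 + z),
    ‖A‖ + (Fintype.card ι : ℝ) * (C * 3), by positivity, ?_, ?_, fun t => hA _ (by norm_num)⟩
  · intro z hz
    apply DifferentiableAt.differentiableWithinAt
    apply DifferentiableAt.const_add
    apply DifferentiableAt.const_mul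
    exact (gam_diff (by linarith [hre z hz.1])).comp z (by fun_prop)
  · intro z h1 h2
    have him := abs_nonneg z.im
    have h3 : ‖1 + z‖ ≤ 2 + |z.im| := by
      have h4 := norm_add_le (1 : ℂ) z
      have h5 := Complex.norm_le_abs_re_add_abs_im z
      rw [norm_one] at h4
      rw [abs_of_nonneg h1] at h5
      linarith
    have h6 := hdig (1 + z) (hre z h1)
    have h7 : ‖logDeriv Gamma (1 + z)‖ ≤ C * 3 * (1 + |z.im|) := by
      refine h6.trans ?_
      rw [mul_assoc]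
      exact mul_le_mul_of_nonneg_left (by linarith) hC
    calc ‖A + (Fintype.card ι : ℂ) * logDeriv Gamma (1 + z)‖
        ≤ ‖A‖ + (Fintype.card ι : ℝ) * ‖logDeriv Gamma (1 + z)‖ := by
          refine (norm_add_le _ _).trans ?_
          rw [norm_mul, Complex.norm_natCast]
      _ ≤ ‖A‖ * (1 + |z.im|) + (Fintype.card ι : ℝ) * (C * 3 * (1 + |z.im|)) := by
          apply add_le_add
          · exact le_mul_of_one_le_right (norm_nonneg _) (by linarith)
          · exact mul_le_mul_of_nonneg_left h7 (Nat.cast_nonneg _)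
      _ = _ := by ring

lemma Fam.dat (h : Fam q χ f X v c) : Dat X := by
  have hsy := h.pl.sy
  obtain ⟨K, hK, hslow⟩ := hsy.slow
  obtain ⟨g, C, hC, -, hgb, hg⟩ := h.ser.ex
  have hright : ∀ t : ℝ, ‖logDeriv X ⟨3 / 4, t⟩‖ ≤
      (C + ∑' n : ℕ, ‖cf c n‖ * (n : ℝ) ^ (-(3 / 4) : ℝ)) * (1 + |t|) := by
    intro t
    have ht := abs_nonneg t
    rw [hg t]
    have h1 := hgb ⟨3 / 4, t⟩ (by norm_num) le_rfl
    have h2 : ‖∑' n : ℕ, cf c n * (n : ℂ) ^ (-(⟨3 / 4, t⟩ : ℂ))‖ ≤ ∑' n : ℕ, ‖cf c n‖ * (n : ℝ) ^ (-(3 / 4) : ℝ) := by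
      apply tsum_of_norm_bounded h.ser.sum.hasSum
      intro n
      rw [norm_mul, norm_ncpow]
    have h3 : 0 ≤ ∑' n : ℕ, ‖cf c n‖ * (n : ℝ) ^ (-(3 / 4) : ℝ) :=
      tsum_nonneg fun n => mul_nonneg (norm_nonneg _) (Real.rpow_nonneg (Nat.cast_nonneg n) _)
    simp only at h1
    calc _ ≤ _ + _ := norm_sub_le _ _
      _ ≤ C * (1 + |t|) + (∑' n : ℕ, ‖cf c n‖ * (n : ℝ) ^ (-(3 / 4) : ℝ)) * (1 + |t|) := by
          apply add_le_add h1
          exact h2.trans (le_mul_of_one_le_right h3 (by linarith))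
      _ = _ := by ring
  refine ⟨h.pl.diff, ⟨K, hK.le, hslow⟩, h.pl.strip,
    ⟨C + ∑' n : ℕ, ‖cf c n‖ * (n : ℝ) ^ (-(3 / 4) : ℝ), ?_, fun σ t hσ => ?_⟩⟩
  · have h3 : 0 ≤ ∑' n : ℕ, ‖cf c n‖ * (n : ℝ) ^ (-(3 / 4) : ℝ) :=
      tsum_nonneg fun n => mul_nonneg (norm_nonneg _) (Real.rpow_nonneg (Nat.cast_nonneg n) _)
    linarith
  · rcases (abs_eq (by norm_num : (0 : ℝ) ≤ 3 / 4)).1 hσ with h1 | h1
    · rw [h1]
      exact hright t
    · rw [h1]
      have e : (⟨-(3 / 4), t⟩ : ℂ) = -(conj (⟨3 / 4, t⟩ : ℂ)) := by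
        apply Complex.ext <;> simp
      rw [e, logDeriv_refl hsy.symm hsy.diff, norm_neg, Complex.norm_conj]
      exact hright t

/-! ### the other half plane -/

omit [NeZero N] in
lemma coef_conj (hf : IsForm N f w) (n : ℕ) : conj (coef f n) = coef f n := by
  apply Complex.ext
  · simp
  · rw [Complex.conj_im, hf.real, neg_zero]

lemma facE_conj (hf : IsForm N f w) {q : ℕ} [NeZero q] (χ : DirichletCharacter ℂ q) (s : ℂ) :
    facE f χ⁻¹ s = conj (facE f χ (conj s)) := by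
  have hN0 : (0 : ℝ) < N := by exact_mod_cast Nat.pos_of_ne_zero (NeZero.ne N)
  have hq0 : (0 : ℝ) < q := by exact_mod_cast Nat.pos_of_ne_zero (NeZero.ne q)
  have hsq : 0 < Real.sqrt N := Real.sqrt_pos.2 hN0
  have hA0 : 0 < Real.sqrt N * q / (2 * π) := by positivity
  unfold facE
  rw [map_mul, map_mul, ← Complex.Gamma_conj, Complex.conj_conj, Complex.conj_tsum]
  congr 1
  · congr 1
    have h1 := Complex.conj_cpow ((Real.sqrt N * q / (2 * π) : ℝ) : ℂ) s (by
      rw [Complex.arg_ofReal_of_nonneg hA0.le]; exact Real.pi_pos.ne)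
    rw [Complex.conj_ofReal] at h1
    exact h1
  · apply tsum_congr
    intro n
    rw [map_mul, map_mul, coef_conj hf]
    have h2 : conj (χ ((n + 1 : ℕ) : ZMod q)) = χ⁻¹ ((n + 1 : ℕ) : ZMod q) := MulChar.star_apply' χ _
    have h3 := Complex.conj_cpow ((n + 1 : ℕ) : ℂ) (-s) (by
      rw [Complex.natCast_arg]; exact Real.pi_pos.ne)
    rw [map_natCast, map_neg] at h3
    rw [h2, ← h3]

lemma Fam.conj_eq (hf : IsForm N f w) (h : Fam q χ f X v c) {X2 : ℂ → ℂ} {v2 : ℂ} {c2 : ℕ → ℂ}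
    (h2 : Fam q (fun i => (χ i)⁻¹) f X2 v2 c2) (z : ℂ) : X2 z = v2 * (conj v)⁻¹ * conj (X (conj z)) := by
  have hcv : conj v ≠ 0 := (map_ne_zero _).2 h.hv
  have hd : Differentiable ℂ fun z : ℂ => v2 * (conj v)⁻¹ * conj (X (conj z)) := by
    intro z
    apply DifferentiableAt.const_mul
    exact differentiableAt_conj_conj_iff.2 (h.pl.diff _)
  have h3 := Pool.Agent.R838.TW.uniq (G := fun z : ℂ => v2 * (conj v)⁻¹ * conj (X (conj z))) hd h2.pl.diff
    ⟨1 / 2, fun s _ => rfl⟩ ⟨1 / 2, fun s hs => by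
      have e1 := h2.eq (s + 1) (by rw [Complex.add_re, Complex.one_re]; linarith)
      have e2 := h.eq (conj s + 1) (by rw [Complex.add_re, Complex.one_re, Complex.conj_re]; linarith)
      rw [add_sub_cancel_right] at e1 e2
      rw [e1, e2, map_mul, map_prod, mul_assoc, ← mul_assoc (conj v)⁻¹, inv_mul_cancel₀ hcv, one_mul]
      congr 1
      apply Finset.prod_congr rfl
      intro i _
      rw [facE_conj hf]
      congr 2
      rw [map_add, map_one]⟩
  exact congrFun h3 z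

lemma count_pos {κ : ℝ} (hP : PL κ X) {d : ℝ} (hd : 0 < d) (hd2 : d ≤ 1 / 2) : ∃ C : ℝ, 0 < C ∧ ∀ T : ℝ, 2 ≤ T →
    ∀ S : Finset ℂ, (∀ s ∈ S, X s = 0 ∧ d ≤ |s.re| ∧ 0 < s.im ∧ s.im ≤ T) → (S.card : ℝ) ≤ C * T ^ (1 - d / 4) := by
  obtain ⟨C, hC, h1⟩ := hP.ncard_S (c := 1 / 2) (by norm_num)
  refine ⟨C * (4 / d), by positivity, fun T hT S hS => ?_⟩
  have hT0 : 0 < T := by linarith
  obtain ⟨h2, h3⟩ := h1 d T hd.le hT
  have h4 : (S.card : ℝ) ≤ ((Pool.Agent.Y22.RX.S X d T).ncard : ℝ) := by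
    have h5 : (S : Set ℂ) ⊆ Pool.Agent.Y22.RX.S X d T := fun s hs => hS s hs
    have h6 := Set.ncard_le_ncard h5 h2
    rw [Set.ncard_coe_finset] at h6
    exact_mod_cast h6
  have h7 : Real.log T ≤ T ^ (d / 4) / (d / 4) := Real.log_le_rpow_div hT0.le (by positivity)
  calc (S.card : ℝ) ≤ C * T ^ (1 - 1 / 2 * d) * Real.log T := h4.trans h3
    _ ≤ C * T ^ (1 - 1 / 2 * d) * (T ^ (d / 4) / (d / 4)) := by gcongr
    _ = C * (4 / d) * (T ^ (1 - 1 / 2 * d) * T ^ (d / 4)) := by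
        field_simp
    _ = _ := by
        rw [← Real.rpow_add hT0]
        congr 2
        ring

lemma Fam.dens (hf : IsForm N f w) (h : Fam q χ f X v c) {X2 : ℂ → ℂ} {v2 : ℂ} {c2 : ℕ → ℂ}
    (h2 : Fam q (fun i => (χ i)⁻¹) f X2 v2 c2) : Dens X := by
  classical
  intro d0 hd0
  obtain ⟨d, hd⟩ : ∃ d : ℝ, d = min d0 (1 / 2) := ⟨_, rfl⟩
  have hdp : 0 < d := by rw [hd]; positivity
  have hd2 : d ≤ 1 / 2 := by rw [hd]; exact min_le_right _ _
  have hd3 : d ≤ d0 := by rw [hd]; exact min_le_left _ _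
  obtain ⟨C1, hC1, k1⟩ := count_pos h.pl hdp hd2
  obtain ⟨C2, hC2, k2⟩ := count_pos h2.pl hdp hd2
  have hK : IsCompact (Set.Icc (-(1 / 2 : ℝ)) (1 / 2) ×ℂ Set.Icc (0 : ℝ) 0) := isCompact_Icc.reProdIm isCompact_Icc
  have hfin := Pool.Agent.W605.SD.fin_zeros h.pl.diff h.pl.ne hK
  refine ⟨d / 4, C1 + C2 + hfin.toFinset.card + 1, by positivity, by linarith, by positivity, fun T hT S hS => ?_⟩
  have hT1 : 1 ≤ T ^ (1 - d / 4) := Real.one_le_rpow (by linarith) (by linarith)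
  have e1 : (S.card : ℝ) = ((S.filter fun s => 0 < s.im).card : ℝ) + ((S.filter fun s => ¬ 0 < s.im).card : ℝ) := by
    rw [← Nat.cast_add, Finset.card_filter_add_card_filter_not]
  have e2 : ((S.filter fun s => ¬ 0 < s.im).card : ℝ) ≤ ((S.filter fun s => s.im < 0).card : ℝ) +
      ((S.filter fun s => s.im = 0).card : ℝ) := by
    rw [← Nat.cast_add]
    have : S.filter (fun s => ¬ 0 < s.im) ⊆ (S.filter fun s => s.im < 0) ∪ (S.filter fun s => s.im = 0) := by
      intro s hs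
      rw [Finset.mem_filter] at hs
      rw [Finset.mem_union, Finset.mem_filter, Finset.mem_filter]
      rcases lt_or_eq_of_le (not_lt.1 hs.2) with h3 | h3
      · exact Or.inl ⟨hs.1, h3⟩
      · exact Or.inr ⟨hs.1, h3⟩
    exact_mod_cast (Finset.card_le_card this).trans (Finset.card_union_le _ _)
  have b1 : ((S.filter fun s => 0 < s.im).card : ℝ) ≤ C1 * T ^ (1 - d / 4) := by
    apply k1 T hT
    intro s hs
    rw [Finset.mem_filter] at hs
    obtain ⟨h3, h4, h5⟩ := hS s hs.1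
    exact ⟨h3, hd3.trans (h4.trans (le_abs_self _)), hs.2, (abs_le.1 h5).2⟩
  have b2 : ((S.filter fun s => s.im < 0).card : ℝ) ≤ C2 * T ^ (1 - d / 4) := by
    have h6 : ((S.filter fun s => s.im < 0).image (fun s => conj s)).card = (S.filter fun s => s.im < 0).card :=
      Finset.card_image_of_injective _ (RingHom.injective _)
    rw [← h6]
    apply k2 T hT
    intro s hs
    rw [Finset.mem_image] at hs
    obtain ⟨s, hs, rfl⟩ := hs
    rw [Finset.mem_filter] at hs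
    obtain ⟨h3, h4, h5⟩ := hS s hs.1
    refine ⟨?_, ?_, ?_, ?_⟩
    · rw [h.conj_eq hf h2, Complex.conj_conj, h3, map_zero, mul_zero]
    · rw [Complex.conj_re]
      exact hd3.trans (h4.trans (le_abs_self _))
    · rw [Complex.conj_im]
      linarith [hs.2]
    · rw [Complex.conj_im]
      linarith [(abs_le.1 h5).1]
  have b3 : ((S.filter fun s => s.im = 0).card : ℝ) ≤ hfin.toFinset.card := by
    have : (S.filter fun s => s.im = 0) ⊆ hfin.toFinset := by
      intro s hs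
      rw [Finset.mem_filter] at hs
      rw [Set.Finite.mem_toFinset]
      obtain ⟨h3, h4, h5⟩ := hS s hs.1
      refine ⟨?_, h3⟩
      rw [mem_reProdIm]
      have := abs_le.1 (h.pl.strip _ h3)
      exact ⟨⟨this.1, this.2⟩, hs.2.ge, hs.2.le⟩
    exact_mod_cast Finset.card_le_card this
  have b4 : (hfin.toFinset.card : ℝ) ≤ hfin.toFinset.card * T ^ (1 - d / 4) :=
    le_mul_of_one_le_right (Nat.cast_nonneg _) hT1
  calc (S.card : ℝ) ≤ C1 * T ^ (1 - d / 4) + (C2 * T ^ (1 - d / 4) + hfin.toFinset.card * T ^ (1 - d / 4)) := by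
        linarith
    _ ≤ _ := by nlinarith

end fam

end Pool.Agent.Run7.h91.SP
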