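import Pool.Agent.Run7.h91.SP.Part
import Pool.Agent.H370R2.Rect

/-!
# The explicit formula, all zeros, general test function
-/

set_option autoImplicit false

open Complex Metric Finset Filter Topology MeasureTheory
open scoped Real

namespace Pool.Agent.Run7.h91.SP

open H370 (RI RI_zero RI_inv RI_add RI_congr RI_const_mul mk_eq Bd Bd_sub Bd_not_Ioo)

lemma cont_mk (σ : ℝ) : Continuous fun t : ℝ => (⟨σ, t⟩ : ℂ) := by
  have : (fun t : ℝ => (⟨σ, t⟩ : ℂ)) = fun t : ℝ => (σ : ℂ) + t * I := by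
    funext t
    exact mk_eq σ t
  rw [this]
  fun_prop

lemma cont_mk' (V : ℝ) : Continuous fun x : ℝ => (⟨x, V⟩ : ℂ) := by
  have : (fun x : ℝ => (⟨x, V⟩ : ℂ)) = fun x : ℝ => (x : ℂ) + V * I := by
    funext t
    exact mk_eq t V
  rw [this]
  fun_prop

lemma int_exp : Integrable (fun t : ℝ => Real.exp (-|t| / 2)) := by
  refine (integrable_inv_one_add_sq.const_mul 8).mono' (by fun_prop) (Eventually.of_forall fun t => ?_)
  rw [Real.norm_eq_abs, abs_of_pos (Real.exp_pos _), show -|t| / 2 = -(|t| / 2) by ring, Real.exp_neg,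
    ← div_eq_mul_inv]
  rw [inv_le_comm₀ (Real.exp_pos _) (by positivity), inv_div]
  have h1 := Real.quadratic_le_exp_of_nonneg (x := |t| / 2) (by positivity)
  have h2 : 0 ≤ |t| := abs_nonneg t
  have h3 : |t| ^ 2 = t ^ 2 := sq_abs t
  refine le_trans ?_ h1
  rw [div_le_iff₀ (by norm_num)]
  nlinarith

lemma int_of {f : ℝ → ℂ} (hc : Continuous f) {B : ℝ} (hb : ∀ t, ‖f t‖ ≤ B * Real.exp (-|t| / 2)) :
    Integrable f :=
  (int_exp.const_mul B).mono' hc.aestronglyMeasurable (Eventually.of_forall hb)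

lemma poly_exp {s : ℝ} (hs : 0 ≤ s) : (1 + s) ^ 2 * Real.exp (-s) ≤ 16 * Real.exp (-s / 2) := by
  have h1 : Real.exp (-s) = Real.exp (-s / 2) * Real.exp (-s / 2) := by
    rw [← Real.exp_add]; congr 1; ring
  have h2 : 1 + s / 4 ≤ Real.exp (s / 4) := by linarith [Real.add_one_le_exp (s / 4)]
  have h3 : (1 + s) ^ 2 ≤ 16 * Real.exp (s / 2) := by
    have h4 : Real.exp (s / 2) = Real.exp (s / 4) ^ 2 := by
      rw [← Real.exp_nat_mul]; congr 1; push_cast; ring
    rw [h4]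
    have h5 : (1 + s) ≤ 4 * Real.exp (s / 4) := by linarith
    calc (1 + s) ^ 2 ≤ (4 * Real.exp (s / 4)) ^ 2 := pow_le_pow_left₀ (by linarith) h5 2
      _ = 16 * Real.exp (s / 4) ^ 2 := by ring
  have h6 : Real.exp (s / 2) * Real.exp (-s / 2) = 1 := by
    rw [← Real.exp_add, show s / 2 + -s / 2 = 0 by ring, Real.exp_zero]
  rw [h1, ← mul_assoc]
  calc (1 + s) ^ 2 * Real.exp (-s / 2) * Real.exp (-s / 2)
      ≤ 16 * Real.exp (s / 2) * Real.exp (-s / 2) * Real.exp (-s / 2) := by gcongr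
    _ = 16 * Real.exp (-s / 2) := by rw [mul_assoc 16, h6, mul_one]

/-- letting the height of the rectangle tend to infinity -/
lemma RI_lim {a b : ℝ} (hab : a ≤ b) {f : ℂ → ℂ} {B : ℝ} {c : ℂ}
    (ha : Integrable fun t : ℝ => f ⟨a, t⟩) (hb : Integrable fun t : ℝ => f ⟨b, t⟩)
    (hbd : ∀ᶠ V : ℝ in atTop, ∀ x ∈ Set.Icc a b, ‖f ⟨x, V⟩‖ ≤ B * Real.exp (-V / 2) ∧
      ‖f ⟨x, -V⟩‖ ≤ B * Real.exp (-V / 2))
    (hRI : ∀ᶠ V : ℝ in atTop, RI a b (-V) V f = c) :
    I * (∫ t : ℝ, f ⟨b, t⟩) - I * (∫ t : ℝ, f ⟨a, t⟩) = c := by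
  have e0 : Tendsto (fun V : ℝ => B * Real.exp (-V / 2) * |b - a|) atTop (𝓝 0) := by
    have h1 : Tendsto (fun V : ℝ => Real.exp (-V / 2)) atTop (𝓝 0) := by
      have h2 : Tendsto (fun V : ℝ => -(V / 2)) atTop atBot :=
        tendsto_neg_atTop_atBot.comp (tendsto_id.atTop_div_const (by norm_num))
      have h3 := Real.tendsto_exp_atBot.comp h2
      refine h3.congr fun V => ?_
      simp only [Function.comp_apply]
      congr 1
      ring
    have := (h1.const_mul B).mul_const |b - a|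
    simpa using this
  have t1 : Tendsto (fun V : ℝ => ∫ x in a..b, f ⟨x, -V⟩) atTop (𝓝 0) := by
    apply squeeze_zero_norm' _ e0
    filter_upwards [hbd] with V hV
    apply intervalIntegral.norm_integral_le_of_norm_le_const
    intro x hx
    rw [Set.uIoc_of_le hab] at hx
    exact (hV x ⟨hx.1.le, hx.2⟩).2
  have t2 : Tendsto (fun V : ℝ => ∫ x in a..b, f ⟨x, V⟩) atTop (𝓝 0) := by
    apply squeeze_zero_norm' _ e0
    filter_upwards [hbd] with V hV
    apply intervalIntegral.norm_integral_le_of_norm_le_const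
    intro x hx
    rw [Set.uIoc_of_le hab] at hx
    exact (hV x ⟨hx.1.le, hx.2⟩).1
  have t3 : Tendsto (fun V : ℝ => ∫ y in (-V)..V, f ⟨b, y⟩) atTop (𝓝 (∫ t : ℝ, f ⟨b, t⟩)) :=
    intervalIntegral_tendsto_integral hb tendsto_neg_atTop_atBot tendsto_id
  have t4 : Tendsto (fun V : ℝ => ∫ y in (-V)..V, f ⟨a, y⟩) atTop (𝓝 (∫ t : ℝ, f ⟨a, t⟩)) :=
    intervalIntegral_tendsto_integral ha tendsto_neg_atTop_atBot tendsto_id
  have t5 : Tendsto (fun V : ℝ => RI a b (-V) V f) atTop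
      (𝓝 (0 - 0 + I * (∫ t : ℝ, f ⟨b, t⟩) - I * (∫ t : ℝ, f ⟨a, t⟩))) := by
    unfold RI
    exact ((t1.sub t2).add (t3.const_mul I)).sub (t4.const_mul I)
  have t6 : Tendsto (fun V : ℝ => RI a b (-V) V f) atTop (𝓝 c) :=
    tendsto_const_nhds.congr' (hRI.mono fun V hV => hV.symm)
  have := tendsto_nhds_unique t5 t6
  rw [← this]
  ring

/-- shifting a line of integration -/
lemma shift {a b : ℝ} (hab : a ≤ b) {f : ℂ → ℂ} {B : ℝ}
    (hf : DifferentiableOn ℂ f {z | a ≤ z.re ∧ z.re ≤ b})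
    (hb : ∀ z : ℂ, a ≤ z.re → z.re ≤ b → ‖f z‖ ≤ B * Real.exp (-|z.im| / 2)) :
    (∫ t : ℝ, f ⟨b, t⟩) = ∫ t : ℝ, f ⟨a, t⟩ := by
  have hB : 0 ≤ B := by
    have h1 := (norm_nonneg _).trans (hb ⟨a, 0⟩ le_rfl hab)
    have h2 : 0 < Real.exp (-|(⟨a, 0⟩ : ℂ).im| / 2) := Real.exp_pos _
    exact nonneg_of_mul_nonneg_left h1 h2
  have hi : ∀ σ : ℝ, a ≤ σ → σ ≤ b → Integrable fun t : ℝ => f ⟨σ, t⟩ := by
    intro σ h1 h2
    apply int_of (B := B)
    · exact hf.continuousOn.comp_continuous (cont_mk σ) fun t => ⟨h1, h2⟩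
    · intro t
      exact hb ⟨σ, t⟩ h1 h2
  have h := RI_lim (B := B) (c := 0) hab (hi a le_rfl hab) (hi b hab le_rfl)
    (by
      filter_upwards [eventually_ge_atTop 0] with V hV x hx
      have h1 := hb ⟨x, V⟩ hx.1 hx.2
      have h2 := hb ⟨x, -V⟩ hx.1 hx.2
      simp only [abs_neg, abs_of_nonneg hV] at h1 h2
      exact ⟨h1, h2⟩)
    (by
      filter_upwards [eventually_ge_atTop 0] with V hV
      apply RI_zero hab (by linarith)
      apply hf.mono
      intro z hz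
      exact hz.1)
  have h3 : I * ((∫ t : ℝ, f ⟨b, t⟩) - ∫ t : ℝ, f ⟨a, t⟩) = 0 := by rw [mul_sub]; exact h
  rcases mul_eq_zero.1 h3 with h4 | h4
  · exact absurd h4 I_ne_zero
  · exact sub_eq_zero.1 h4

/-- test functions -/
structure Tst (h : ℂ → ℂ) (B : ℝ) : Prop where
  diff : DifferentiableOn ℂ h {z | |z.re| < 1}
  bd : ∀ z : ℂ, |z.re| ≤ 3 / 4 → ‖h z‖ ≤ B * Real.exp (-|z.im|)

lemma Tst.nonneg {h : ℂ → ℂ} {B : ℝ} (H : Tst h B) : 0 ≤ B := by
  have := H.bd 0 (by norm_num)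
  simp at this
  exact (norm_nonneg _).trans this

lemma exp_half (t : ℝ) : Real.exp (-|t|) ≤ Real.exp (-|t| / 2) :=
  Real.exp_le_exp.2 (by linarith [abs_nonneg t])

lemma Tst.line {h : ℂ → ℂ} {B : ℝ} (H : Tst h B) {σ : ℝ} (hσ : |σ| ≤ 3 / 4) :
    Continuous fun t : ℝ => h ⟨σ, t⟩ := by
  apply H.diff.continuousOn.comp_continuous (cont_mk σ)
  intro t
  show |σ| < 1
  linarith

lemma Tst.J_one {h : ℂ → ℂ} {B : ℝ} (H : Tst h B) :
    (∫ t : ℝ, h ⟨3 / 4, t⟩) - (∫ t : ℝ, h ⟨-(3 / 4), t⟩) = 0 := by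
  rw [sub_eq_zero]
  apply shift (B := B) (by norm_num)
  · apply H.diff.mono
    intro z hz
    show |z.re| < 1
    rw [abs_lt]
    exact ⟨by linarith [hz.1], by linarith [hz.2]⟩
  · intro z h1 h2
    exact (H.bd z (abs_le.2 ⟨h1, h2⟩)).trans (mul_le_mul_of_nonneg_left (exp_half _) H.nonneg)

/-- the residue at one point -/
lemma Tst.J_inv {h : ℂ → ℂ} {B : ℝ} (H : Tst h B) {p : ℂ} (hp : |p.re| ≤ 1 / 2) :
    (∫ t : ℝ, h ⟨3 / 4, t⟩ * ((⟨3 / 4, t⟩ : ℂ) - p)⁻¹) -
      (∫ t : ℝ, h ⟨-(3 / 4), t⟩ * ((⟨-(3 / 4), t⟩ : ℂ) - p)⁻¹) = 2 * π * h p := by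
  have hB := H.nonneg
  have hp' := abs_le.1 hp
  have hdist : ∀ σ t : ℝ, |σ| = 3 / 4 → 1 / 4 ≤ ‖(⟨σ, t⟩ : ℂ) - p‖ := by
    intro σ t hσ
    have h1 := Complex.abs_re_le_norm ((⟨σ, t⟩ : ℂ) - p)
    rw [Complex.sub_re] at h1
    have h2 : |σ| - |p.re| ≤ |σ - p.re| := abs_sub_abs_le_abs_sub _ _
    simp only at h1
    linarith
  have hi : ∀ σ : ℝ, |σ| = 3 / 4 → Integrable fun t : ℝ => h ⟨σ, t⟩ * ((⟨σ, t⟩ : ℂ) - p)⁻¹ := by
    intro σ hσ
    apply int_of (B := 4 * B)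
    · apply (H.line hσ.le).mul
      apply Continuous.inv₀ ((cont_mk σ).sub continuous_const)
      intro t h0
      have h0' : (⟨σ, t⟩ : ℂ) - p = 0 := h0
      have := hdist σ t hσ
      rw [h0', norm_zero] at this
      norm_num at this
    · intro t
      rw [norm_mul, norm_inv]
      have h1 := H.bd ⟨σ, t⟩ hσ.le
      have h2 := hdist σ t hσ
      have h3 : ‖(⟨σ, t⟩ : ℂ) - p‖⁻¹ ≤ 4 := by
        rw [inv_le_comm₀ (by linarith) (by norm_num)]
        linarith
      calc ‖h ⟨σ, t⟩‖ * ‖(⟨σ, t⟩ : ℂ) - p‖⁻¹ ≤ (B * Real.exp (-|t|)) * 4 :=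
            mul_le_mul h1 h3 (by positivity) (by positivity)
        _ ≤ 4 * B * Real.exp (-|t| / 2) := by
            have := mul_le_mul_of_nonneg_left (exp_half t) hB
            linarith
  have hds : DifferentiableOn ℂ (dslope h p) {z | |z.re| < 1} := by
    apply (Complex.differentiableOn_dslope _).2 H.diff
    apply IsOpen.mem_nhds
    · exact isOpen_lt (continuous_abs.comp Complex.continuous_re) continuous_const
    · show |p.re| < 1
      linarith
  have hmain := RI_lim (a := -(3 / 4)) (b := 3 / 4) (B := B) (c := 2 * π * I * h p)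
    (f := fun z => h z * (z - p)⁻¹) (by norm_num) (hi _ (by norm_num [abs_of_pos]))
    (hi _ (by norm_num [abs_of_pos]))
    (by
      filter_upwards [eventually_ge_atTop (|p.im| + 1)] with V hV x hx
      have hV0 : 0 ≤ V := by linarith [abs_nonneg p.im]
      have hx' : |x| ≤ 3 / 4 := abs_le.2 hx
      have key : ∀ W : ℝ, |W| = V → ‖h ⟨x, W⟩ * ((⟨x, W⟩ : ℂ) - p)⁻¹‖ ≤ B * Real.exp (-V / 2) := by
        intro W hW
        have h1 := H.bd ⟨x, W⟩ hx'
        have h2 : 1 ≤ ‖(⟨x, W⟩ : ℂ) - p‖ := by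
          have h3 := Complex.abs_im_le_norm ((⟨x, W⟩ : ℂ) - p)
          rw [Complex.sub_im] at h3
          simp only at h3
          have h4 : |W| - |p.im| ≤ |W - p.im| := abs_sub_abs_le_abs_sub _ _
          linarith
        rw [norm_mul, norm_inv]
        have h5 : ‖(⟨x, W⟩ : ℂ) - p‖⁻¹ ≤ 1 := inv_le_one_of_one_le₀ h2
        simp only [hW] at h1
        calc ‖h ⟨x, W⟩‖ * ‖(⟨x, W⟩ : ℂ) - p‖⁻¹ ≤ (B * Real.exp (-V)) * 1 :=
              mul_le_mul h1 h5 (by positivity) (by positivity)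
          _ ≤ B * Real.exp (-V / 2) := by
              rw [mul_one]
              apply mul_le_mul_of_nonneg_left _ hB
              exact Real.exp_le_exp.2 (by linarith)
      exact ⟨key V (abs_of_nonneg hV0), key (-V) (by rw [abs_neg, abs_of_nonneg hV0])⟩)
    (by
      filter_upwards [eventually_ge_atTop (|p.im| + 1)] with V hV
      have hV0 : 0 ≤ V := by linarith [abs_nonneg p.im]
      have him := abs_le.1 (show |p.im| ≤ V - 1 by linarith)
      have hab : (-(3 / 4) : ℝ) ≤ 3 / 4 := by norm_num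
      have hcd : -V ≤ V := by linarith
      have hpin : p ∈ Set.Ioo (-(3 / 4) : ℝ) (3 / 4) ×ℂ Set.Ioo (-V) V :=
        ⟨⟨by linarith, by linarith⟩, ⟨by linarith, by linarith⟩⟩
      have hB' : ∀ s ∈ Bd (-(3 / 4)) (3 / 4) (-V) V, s ≠ p := fun s hs he => Bd_not_Ioo hs (he ▸ hpin)
      have hsub : Set.Icc (-(3 / 4) : ℝ) (3 / 4) ×ℂ Set.Icc (-V) V ⊆ {z | |z.re| < 1} := by
        intro z hz
        show |z.re| < 1
        rw [abs_lt]
        exact ⟨by linarith [hz.1.1], by linarith [hz.1.2]⟩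
      have hci : ContinuousOn (fun s : ℂ => (s - p)⁻¹) (Bd (-(3 / 4)) (3 / 4) (-V) V) := by
        apply ContinuousOn.inv₀ (by fun_prop)
        intro s hs
        exact sub_ne_zero.2 (hB' s hs)
      have hcd' : ContinuousOn (dslope h p) (Bd (-(3 / 4)) (3 / 4) (-V) V) :=
        (hds.continuousOn.mono hsub).mono (Bd_sub hab hcd)
      rw [RI_congr hab hcd (g := fun s => dslope h p s + h p * (s - p)⁻¹), RI_add hab hcd
        (g := fun s => h p * (s - p)⁻¹) hcd' (continuousOn_const.mul hci), RI_const_mul, RI_inv hpin, RI_zero hab hcd (hds.mono hsub)]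
      · ring
      · intro s hs
        have h1 := hB' s hs
        have h2 : s - p ≠ 0 := sub_ne_zero.2 h1
        rw [dslope_of_ne _ h1, slope_def_field]
        field_simp
        ring)
  have h3 : I * ((∫ t : ℝ, h ⟨3 / 4, t⟩ * ((⟨3 / 4, t⟩ : ℂ) - p)⁻¹) -
      (∫ t : ℝ, h ⟨-(3 / 4), t⟩ * ((⟨-(3 / 4), t⟩ : ℂ) - p)⁻¹)) = I * (2 * π * h p) := by
    rw [mul_sub]
    rw [hmain]
    ring
  exact mul_left_cancel₀ I_ne_zero h3

/-- entire functions of order at most `3/2`, zeros in a strip, logarithmic derivative bounded on two lines -/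
structure Dat (X : ℂ → ℂ) : Prop where
  diff : Differentiable ℂ X
  slow : ∃ K : ℝ, 0 ≤ K ∧ ∀ w : ℂ, ‖X w‖ ≤ Real.exp (K * (1 + ‖w‖) ^ (3 / 2 : ℝ))
  strip : ∀ z : ℂ, X z = 0 → |z.re| ≤ 1 / 2
  line : ∃ C : ℝ, 0 ≤ C ∧ ∀ σ t : ℝ, |σ| = 3 / 4 → ‖logDeriv X ⟨σ, t⟩‖ ≤ C * (1 + |t|)

/-- the integral of `X'/X h` over the two lines -/
noncomputable def JJ (X h : ℂ → ℂ) : ℂ :=
  (∫ t : ℝ, logDeriv X ⟨3 / 4, t⟩ * h ⟨3 / 4, t⟩) - ∫ t : ℝ, logDeriv X ⟨-(3 / 4), t⟩ * h ⟨-(3 / 4), t⟩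

lemma exp_sq {u : ℂ} (h1 : -(5 / 4) ≤ u.re) (h2 : u.re ≤ -(1 / 4)) : Real.exp (-|u.im|) ≤ 3 * (1 / ‖u‖ ^ 2) := by
  have h0 : 0 < ‖u‖ := by
    apply norm_pos_iff.2
    rintro rfl
    simp at h2
    norm_num at h2
  have h3 : ‖u‖ ^ 2 = u.re ^ 2 + u.im ^ 2 := by
    rw [← Complex.normSq_eq_norm_sq, Complex.normSq_apply]
    ring
  have h4 := Real.quadratic_le_exp_of_nonneg (abs_nonneg u.im)
  rw [sq_abs] at h4
  rw [Real.exp_neg, mul_one_div, le_div_iff₀ (by positivity), h3]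
  rw [inv_mul_le_iff₀ (Real.exp_pos _)]
  have h5 : u.re ^ 2 ≤ (5 / 4) ^ 2 := by
    apply sq_le_sq'
    · linarith
    · linarith
  nlinarith [abs_nonneg u.im]

/-- **The explicit formula.** -/
theorem Dat.ef {X : ℂ → ℂ} (hX : Dat X) : ∃ (C : ℝ) (N : ℕ → ℕ) (ρ : ℕ → ℕ → ℂ), 0 < C ∧
    (∀ n, ∀ i < N n, X (ρ n i) = 0) ∧ (∀ z, X z = 0 → ∀ᶠ n in atTop, ∃ i < N n, ρ n i = z) ∧
    (∀ n, ∑ i ∈ range (N n), Real.exp (-|(ρ n i).im|) ≤ C) ∧
    ∀ (h : ℂ → ℂ) (B : ℝ), Tst h B →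
      Tendsto (fun n => 2 * π * ∑ i ∈ range (N n), h (ρ n i)) atTop (𝓝 (JJ X h)) := by
  obtain ⟨K, hK, hKb⟩ := hX.slow
  obtain ⟨C1, hC1, hline⟩ := hX.line
  set a : ℂ := ⟨3 / 4, 0⟩ with ha
  have hare : a.re = 3 / 4 := rfl
  have haim : a.im = 0 := rfl
  have han : ‖a‖ ≤ 1 := by
    have : a = ((3 / 4 : ℝ) : ℂ) := by apply Complex.ext <;> simp [ha]
    rw [this, Complex.norm_real]
    norm_num
  set F : ℂ → ℂ := fun w => X (a + w) with hFdef
  have hF : Differentiable ℂ F := hX.diff.comp (by fun_prop)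
  have hstr : ∀ w, F w = 0 → -(5 / 4) ≤ w.re ∧ w.re ≤ -(1 / 4) := by
    intro w hw
    have h1 := hX.strip _ hw
    rw [Complex.add_re, hare, abs_le] at h1
    exact ⟨by linarith [h1.1], by linarith [h1.2]⟩
  have hF0 : F 0 ≠ 0 := by
    intro h
    have := (hstr 0 h).2
    norm_num at this
  have hb : ∀ w, ‖F w‖ ≤ Real.exp (3 * K * (1 + ‖w‖) ^ (3 / 2 : ℝ)) := by
    intro w
    refine (hKb _).trans (Real.exp_le_exp.2 ?_)
    have h1 : 1 + ‖a + w‖ ≤ 2 * (1 + ‖w‖) := by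
      have := norm_add_le a w
      have := norm_nonneg w
      linarith
    have h2 := r32_le (x := 1 + ‖a + w‖) (y := 1 + ‖w‖) (c := 2) (d := 3) (by positivity) (by norm_num)
      (by positivity) h1 (by norm_num) (by norm_num)
    rw [← r32 (by positivity)] at h2
    calc K * (1 + ‖a + w‖) ^ (3 / 2 : ℝ) ≤ K * (3 * (1 + ‖w‖) ^ (3 / 2 : ℝ)) :=
          mul_le_mul_of_nonneg_left h2 hK
      _ = _ := by ring
  have hfar : ∀ w, F w = 0 → 1 / 4 ≤ ‖w‖ := by
    intro w hw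
    have h1 := (hstr w hw).2
    have h2 := Complex.abs_re_le_norm w
    have h3 := neg_abs_le w.re
    linarith
  obtain ⟨C, hC, H⟩ := pfrac hF hF0 (K := 3 * K) (by positivity) hb hfar
  choose! N u hz hall hsum hld using fun n : ℕ => H ((n : ℝ) + 1) (by linarith [Nat.cast_nonneg (α := ℝ) n])
  have hzX : ∀ n, ∀ i < N n, X (a + u n i) = 0 := fun n i hi => hz n i hi
  refine ⟨3 * C, N, fun n i => a + u n i, by positivity, hzX, fun z hz' => ?_, fun n => ?_, fun h B hh => ?_⟩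
  · filter_upwards [eventually_ge_atTop ⌈‖z - a‖⌉₊] with n hn
    have h1 : ‖z - a‖ ≤ (n : ℝ) + 1 := by
      have := Nat.ceil_le.1 hn
      linarith
    obtain ⟨i, hi, h2⟩ := hall n (z - a) h1 (by show X (a + (z - a)) = 0; rw [add_sub_cancel]; exact hz')
    exact ⟨i, hi, by rw [h2]; ring⟩
  · calc ∑ i ∈ range (N n), Real.exp (-|(a + u n i).im|) ≤ ∑ i ∈ range (N n), 3 * (1 / ‖u n i‖ ^ 2) := by
          apply Finset.sum_le_sum
          intro i hi
          have h1 := hstr _ (hz n i (Finset.mem_range.1 hi))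
          rw [Complex.add_im, haim, zero_add]
          exact exp_sq h1.1 h1.2
      _ ≤ 3 * C := by
          rw [← Finset.mul_sum]
          exact mul_le_mul_of_nonneg_left (hsum n) (by norm_num)
  · -- the limit
    have hB := hh.nonneg
    set c0 := logDeriv X a with hc0
    have hldF : ∀ w, logDeriv F w = logDeriv X (a + w) := by
      intro w
      rw [logDeriv_apply, logDeriv_apply, hFdef]
      beta_reduce
      rw [deriv_comp_const_add]
    set D : ℕ → ℂ → ℂ := fun n z => ∑ i ∈ range (N n), (1 / (z - a - u n i) + 1 / u n i) with hD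
    have hXne : ∀ σ t : ℝ, |σ| = 3 / 4 → X ⟨σ, t⟩ ≠ 0 := by
      intro σ t hσ h0
      have := hX.strip _ h0
      simp only at this
      linarith
    -- pointwise bound for D
    have hdist : ∀ σ t : ℝ, |σ| = 3 / 4 → ∀ n, ∀ i < N n, 1 / 4 ≤ ‖(⟨σ, t⟩ : ℂ) - a - u n i‖ := by
      intro σ t hσ n i hi
      have h1 := hX.strip _ (hzX n i hi)
      have h2 := Complex.abs_re_le_norm ((⟨σ, t⟩ : ℂ) - a - u n i)
      have h3 : ((⟨σ, t⟩ : ℂ) - a - u n i).re = σ - (a + u n i).re := by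
        simp only [Complex.sub_re, Complex.add_re]
        ring
      rw [h3] at h2
      have h4 : |σ| - |(a + u n i).re| ≤ |σ - (a + u n i).re| := abs_sub_abs_le_abs_sub _ _
      linarith
    have hwb : ∀ σ t : ℝ, |σ| = 3 / 4 → ‖(⟨σ, t⟩ : ℂ) - a‖ ≤ 2 * (1 + |t|) := by
      intro σ t hσ
      have h1 := norm_sub_le (⟨σ, t⟩ : ℂ) a
      have h2 := Complex.norm_le_abs_re_add_abs_im (⟨σ, t⟩ : ℂ)
      simp only at h2
      have := abs_nonneg t
      linarith
    have hDb : ∀ σ t : ℝ, |σ| = 3 / 4 → ∀ n, ‖D n ⟨σ, t⟩‖ ≤ 18 * C * (1 + |t|) ^ 2 := by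
      intro σ t hσ n
      set w : ℂ := (⟨σ, t⟩ : ℂ) - a with hw
      have hwn := hwb σ t hσ
      rw [← hw] at hwn
      calc ‖D n ⟨σ, t⟩‖ ≤ ∑ i ∈ range (N n), ‖1 / (w - u n i) + 1 / u n i‖ := norm_sum_le _ _
        _ ≤ ∑ i ∈ range (N n), ‖w‖ * (1 + 4 * ‖w‖) * (1 / ‖u n i‖ ^ 2) := by
            apply Finset.sum_le_sum
            intro i hi
            have h1 := hdist σ t hσ n i (Finset.mem_range.1 hi)
            rw [← hw] at h1
            have h2 := hfar _ (hz n i (Finset.mem_range.1 hi))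
            have hu0 : u n i ≠ 0 := by
              rintro h
              rw [h, norm_zero] at h2
              norm_num at h2
            have hwu : w - u n i ≠ 0 := by
              intro h
              rw [h, norm_zero] at h1
              norm_num at h1
            have h3 : 1 / (w - u n i) + 1 / u n i = w / ((w - u n i) * u n i) := by
              field_simp
              ring
            have h4 : ‖u n i‖ ≤ ‖w - u n i‖ * (1 + 4 * ‖w‖) := by
              have h5 := norm_sub_le w (w - u n i)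
              rw [sub_sub_cancel] at h5
              have := norm_nonneg w
              nlinarith
            have h6 : 0 < ‖w - u n i‖ := by linarith
            have h7 : 0 < ‖u n i‖ := by linarith
            rw [h3, norm_div, norm_mul, mul_one_div, div_le_div_iff₀ (by positivity) (by positivity)]
            have h8 : ‖u n i‖ ^ 2 ≤ (1 + 4 * ‖w‖) * (‖w - u n i‖ * ‖u n i‖) := by
              rw [sq]
              calc ‖u n i‖ * ‖u n i‖ ≤ (‖w - u n i‖ * (1 + 4 * ‖w‖)) * ‖u n i‖ :=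
                    mul_le_mul_of_nonneg_right h4 h7.le
                _ = _ := by ring
            rw [mul_assoc]
            exact mul_le_mul_of_nonneg_left h8 (norm_nonneg _)
        _ ≤ ‖w‖ * (1 + 4 * ‖w‖) * C := by
            rw [← Finset.mul_sum]
            exact mul_le_mul_of_nonneg_left (hsum n) (by positivity)
        _ ≤ (2 * (1 + |t|)) * (9 * (1 + |t|)) * C := by
            have h9 := abs_nonneg t
            have h10 : 1 + 4 * ‖w‖ ≤ 9 * (1 + |t|) := by linarith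
            gcongr
        _ = 18 * C * (1 + |t|) ^ 2 := by ring
    set E : ℝ := C1 + ‖c0‖ + 18 * C with hE
    have hE0 : 0 ≤ E := by positivity
    have hfb : ∀ σ t : ℝ, |σ| = 3 / 4 → ∀ n,
        ‖(logDeriv X ⟨σ, t⟩ - c0 - D n ⟨σ, t⟩) * h ⟨σ, t⟩‖ ≤ 16 * E * B * Real.exp (-|t| / 2) := by
      intro σ t hσ n
      have ht := abs_nonneg t
      have h1 := hline σ t hσ
      have h2 := hDb σ t hσ n
      have h3 := hh.bd ⟨σ, t⟩ hσ.le
      simp only at h3
      have h4 : ‖logDeriv X ⟨σ, t⟩ - c0 - D n ⟨σ, t⟩‖ ≤ E * (1 + |t|) ^ 2 := by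
        calc _ ≤ ‖logDeriv X ⟨σ, t⟩‖ + ‖c0‖ + ‖D n ⟨σ, t⟩‖ :=
              (norm_sub_le _ _).trans (add_le_add_left (norm_sub_le _ _) _)
          _ ≤ C1 * (1 + |t|) + ‖c0‖ + 18 * C * (1 + |t|) ^ 2 := by linarith
          _ ≤ C1 * (1 + |t|) ^ 2 + ‖c0‖ * (1 + |t|) ^ 2 + 18 * C * (1 + |t|) ^ 2 := by
              have h5 : 1 ≤ (1 + |t|) ^ 2 := one_le_pow₀ (by linarith)
              have h6 : (1 + |t|) ≤ (1 + |t|) ^ 2 := by nlinarith
              have h7 := mul_le_mul_of_nonneg_left h6 hC1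
              have h8 := mul_le_mul_of_nonneg_left h5 (norm_nonneg c0)
              linarith
          _ = E * (1 + |t|) ^ 2 := by rw [hE]; ring
      rw [norm_mul]
      calc _ ≤ (E * (1 + |t|) ^ 2) * (B * Real.exp (-|t|)) := mul_le_mul h4 h3 (norm_nonneg _) (by positivity)
        _ = E * B * ((1 + |t|) ^ 2 * Real.exp (-|t|)) := by ring
        _ ≤ E * B * (16 * Real.exp (-|t| / 2)) := mul_le_mul_of_nonneg_left (poly_exp ht) (by positivity)
        _ = _ := by ring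
    have hfc : ∀ σ : ℝ, |σ| = 3 / 4 → Continuous fun t : ℝ => logDeriv X ⟨σ, t⟩ := by
      intro σ hσ
      have h1 : Continuous fun t : ℝ => deriv X ⟨σ, t⟩ :=
        ((hX.diff.contDiff (n := 1)).continuous_deriv (by norm_num)).comp (cont_mk σ)
      have h2 : Continuous fun t : ℝ => X ⟨σ, t⟩ := hX.diff.continuous.comp (cont_mk σ)
      exact h1.div h2 fun t => hXne σ t hσ
    have hDc : ∀ σ : ℝ, |σ| = 3 / 4 → ∀ n, Continuous fun t : ℝ => D n ⟨σ, t⟩ := by
      intro σ hσ n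
      apply continuous_finsetSum
      intro i hi
      apply Continuous.add _ continuous_const
      apply continuous_const.div (((cont_mk σ).sub continuous_const).sub continuous_const)
      intro t h0
      have h0' : (⟨σ, t⟩ : ℂ) - a - u n i = 0 := h0
      have := hdist σ t hσ n i (Finset.mem_range.1 hi)
      rw [h0', norm_zero] at this
      norm_num at this
    have hlim : ∀ σ : ℝ, |σ| = 3 / 4 →
        Tendsto (fun n => ∫ t : ℝ, (logDeriv X ⟨σ, t⟩ - c0 - D n ⟨σ, t⟩) * h ⟨σ, t⟩) atTop (𝓝 0) := by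
      intro σ hσ
      have h1 := tendsto_integral_of_dominated_convergence (μ := volume)
        (F := fun n (t : ℝ) => (logDeriv X ⟨σ, t⟩ - c0 - D n ⟨σ, t⟩) * h ⟨σ, t⟩) (f := fun _ => (0 : ℂ))
        (fun t => 16 * E * B * Real.exp (-|t| / 2))
        (fun n => ((((hfc σ hσ).sub continuous_const).sub (hDc σ hσ n)).mul (hh.line hσ.le)).aestronglyMeasurable)
        (int_exp.const_mul _) (fun n => Eventually.of_forall fun t => hfb σ t hσ n)
        (Eventually.of_forall fun t => ?_)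
      · simpa using h1
      · -- pointwise
        set w : ℂ := (⟨σ, t⟩ : ℂ) - a with hw
        have haw : a + w = ⟨σ, t⟩ := by rw [hw]; ring
        have hFw : F w ≠ 0 := by
          show X (a + w) ≠ 0
          rw [haw]
          exact hXne σ t hσ
        have h2 : Tendsto (fun n : ℕ => C * ‖w‖ / Real.sqrt ((n : ℝ) + 1) * ‖h ⟨σ, t⟩‖) atTop (𝓝 0) := by
          have h3 : Tendsto (fun n : ℕ => Real.sqrt ((n : ℝ) + 1)) atTop atTop :=
            Real.tendsto_sqrt_atTop.comp (tendsto_atTop_add_const_right _ _ tendsto_natCast_atTop_atTop)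
          have h4 := (h3.const_div_atTop (C * ‖w‖)).mul_const ‖h ⟨σ, t⟩‖
          simpa using h4
        apply squeeze_zero_norm' _ h2
        filter_upwards [eventually_ge_atTop ⌈8 * ‖w‖⌉₊] with n hn
        have h5 : ‖w‖ ≤ ((n : ℝ) + 1) / 8 := by
          have := Nat.ceil_le.1 hn
          linarith
        have h6 := hld n w hFw h5
        rw [hldF, hldF, add_zero, haw] at h6
        rw [norm_mul]
        exact mul_le_mul_of_nonneg_right h6 (norm_nonneg _)
    have hlim2 := (hlim (3 / 4) (by norm_num [abs_of_pos])).sub (hlim (-(3 / 4)) (by norm_num [abs_of_pos]))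
    rw [sub_zero] at hlim2
    have hval : ∀ n, (∫ t : ℝ, (logDeriv X ⟨3 / 4, t⟩ - c0 - D n ⟨3 / 4, t⟩) * h ⟨3 / 4, t⟩) -
        (∫ t : ℝ, (logDeriv X ⟨-(3 / 4), t⟩ - c0 - D n ⟨-(3 / 4), t⟩) * h ⟨-(3 / 4), t⟩) =
        JJ X h - 2 * π * ∑ i ∈ range (N n), h (a + u n i) := by
      intro n
      have hih : ∀ σ : ℝ, |σ| = 3 / 4 → Integrable fun t : ℝ => h ⟨σ, t⟩ := fun σ hσ =>
        int_of (B := B) (hh.line hσ.le) fun t =>
          (hh.bd ⟨σ, t⟩ hσ.le).trans (mul_le_mul_of_nonneg_left (exp_half t) hB)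
      have hil : ∀ σ : ℝ, |σ| = 3 / 4 → Integrable fun t : ℝ => logDeriv X ⟨σ, t⟩ * h ⟨σ, t⟩ := by
        intro σ hσ
        apply int_of (B := 16 * C1 * B) ((hfc σ hσ).mul (hh.line hσ.le))
        intro t
        have ht := abs_nonneg t
        have h1 := hline σ t hσ
        have h3 := hh.bd ⟨σ, t⟩ hσ.le
        simp only at h3
        have h4 : C1 * (1 + |t|) ≤ C1 * (1 + |t|) ^ 2 :=
          mul_le_mul_of_nonneg_left (by nlinarith) hC1
        show ‖logDeriv X ⟨σ, t⟩ * h ⟨σ, t⟩‖ ≤ _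
        rw [norm_mul]
        calc _ ≤ (C1 * (1 + |t|) ^ 2) * (B * Real.exp (-|t|)) :=
              mul_le_mul (h1.trans h4) h3 (norm_nonneg _) (by positivity)
          _ = C1 * B * ((1 + |t|) ^ 2 * Real.exp (-|t|)) := by ring
          _ ≤ C1 * B * (16 * Real.exp (-|t| / 2)) := mul_le_mul_of_nonneg_left (poly_exp ht) (by positivity)
          _ = _ := by ring
      have hii : ∀ σ : ℝ, |σ| = 3 / 4 → ∀ i < N n,
          Integrable fun t : ℝ => h ⟨σ, t⟩ * ((⟨σ, t⟩ : ℂ) - (a + u n i))⁻¹ := by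
        intro σ hσ i hi
        have hd := fun t => hdist σ t hσ n i hi
        apply int_of (B := 4 * B)
        · apply (hh.line hσ.le).mul
          apply Continuous.inv₀ ((cont_mk σ).sub continuous_const)
          intro t h0
          have h0' : (⟨σ, t⟩ : ℂ) - (a + u n i) = 0 := h0
          have := hd t
          rw [sub_sub, h0', norm_zero] at this
          norm_num at this
        · intro t
          rw [norm_mul, norm_inv]
          have h1 := hh.bd ⟨σ, t⟩ hσ.le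
          have h2 := hd t
          rw [sub_sub] at h2
          have h3 : ‖(⟨σ, t⟩ : ℂ) - (a + u n i)‖⁻¹ ≤ 4 := by
            rw [inv_le_comm₀ (by linarith) (by norm_num)]
            linarith
          calc ‖h ⟨σ, t⟩‖ * ‖(⟨σ, t⟩ : ℂ) - (a + u n i)‖⁻¹ ≤ (B * Real.exp (-|t|)) * 4 :=
                mul_le_mul h1 h3 (by positivity) (by positivity)
            _ ≤ 4 * B * Real.exp (-|t| / 2) := by
                have := mul_le_mul_of_nonneg_left (exp_half t) hB
                linarith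
      have hone : ∀ σ : ℝ, |σ| = 3 / 4 →
          (∫ t : ℝ, (logDeriv X ⟨σ, t⟩ - c0 - D n ⟨σ, t⟩) * h ⟨σ, t⟩) =
          (∫ t : ℝ, logDeriv X ⟨σ, t⟩ * h ⟨σ, t⟩) - c0 * (∫ t : ℝ, h ⟨σ, t⟩) -
            ∑ i ∈ range (N n), ((∫ t : ℝ, h ⟨σ, t⟩ * ((⟨σ, t⟩ : ℂ) - (a + u n i))⁻¹) +
              1 / u n i * ∫ t : ℝ, h ⟨σ, t⟩) := by
        intro σ hσ
        have e1 : (fun t : ℝ => (logDeriv X ⟨σ, t⟩ - c0 - D n ⟨σ, t⟩) * h ⟨σ, t⟩) =
            fun t : ℝ => (logDeriv X ⟨σ, t⟩ * h ⟨σ, t⟩ - c0 * h ⟨σ, t⟩) -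
              ∑ i ∈ range (N n), (h ⟨σ, t⟩ * ((⟨σ, t⟩ : ℂ) - (a + u n i))⁻¹ + 1 / u n i * h ⟨σ, t⟩) := by
          funext t
          rw [sub_mul, sub_mul, hD]
          beta_reduce
          rw [Finset.sum_mul]
          congr 1
          apply Finset.sum_congr rfl
          intro i _
          rw [sub_sub, one_div (_ - _)]
          ring
        have i1 : Integrable (fun t : ℝ => logDeriv X ⟨σ, t⟩ * h ⟨σ, t⟩ - c0 * h ⟨σ, t⟩) :=
          (hil σ hσ).sub ((hih σ hσ).const_mul c0)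
        have i2 : ∀ i ∈ range (N n), Integrable (fun t : ℝ =>
            h ⟨σ, t⟩ * ((⟨σ, t⟩ : ℂ) - (a + u n i))⁻¹ + 1 / u n i * h ⟨σ, t⟩) := fun i hi =>
          (hii σ hσ i (Finset.mem_range.1 hi)).add ((hih σ hσ).const_mul (1 / u n i))
        rw [e1, integral_sub i1 (integrable_finsetSum _ i2),
          integral_sub (hil σ hσ) ((hih σ hσ).const_mul c0), integral_const_mul,
          integral_finsetSum _ i2]
        congr 1
        apply Finset.sum_congr rfl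
        intro i hi
        rw [integral_add (hii σ hσ i (Finset.mem_range.1 hi)) ((hih σ hσ).const_mul (1 / u n i)),
          integral_const_mul]
      rw [hone _ (by norm_num [abs_of_pos]), hone _ (by norm_num [abs_of_pos])]
      have hJ1 := hh.J_one
      have hJi : ∀ i ∈ range (N n), (∫ t : ℝ, h ⟨3 / 4, t⟩ * ((⟨3 / 4, t⟩ : ℂ) - (a + u n i))⁻¹) -
          (∫ t : ℝ, h ⟨-(3 / 4), t⟩ * ((⟨-(3 / 4), t⟩ : ℂ) - (a + u n i))⁻¹) = 2 * π * h (a + u n i) :=
        fun i hi => hh.J_inv (hX.strip _ (hzX n i (Finset.mem_range.1 hi)))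
      have hs : ∑ i ∈ range (N n), ((∫ t : ℝ, h ⟨3 / 4, t⟩ * ((⟨3 / 4, t⟩ : ℂ) - (a + u n i))⁻¹) +
              1 / u n i * ∫ t : ℝ, h ⟨3 / 4, t⟩) -
          ∑ i ∈ range (N n), ((∫ t : ℝ, h ⟨-(3 / 4), t⟩ * ((⟨-(3 / 4), t⟩ : ℂ) - (a + u n i))⁻¹) +
              1 / u n i * ∫ t : ℝ, h ⟨-(3 / 4), t⟩) = 2 * π * ∑ i ∈ range (N n), h (a + u n i) := by
        rw [← Finset.sum_sub_distrib, Finset.mul_sum]
        apply Finset.sum_congr rfl
        intro i hi
        rw [← hJi i hi]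
        linear_combination (1 / u n i) * hJ1
      unfold JJ
      linear_combination -c0 * hJ1 - hs
    have h7 : Tendsto (fun n => JJ X h - 2 * π * ∑ i ∈ range (N n), h (a + u n i)) atTop (𝓝 0) :=
      hlim2.congr hval
    have h8 := (tendsto_const_nhds (x := JJ X h)).sub h7
    rw [sub_zero] at h8
    refine h8.congr fun n => ?_
    ring

end Pool.Agent.Run7.h91.SP
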