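import Pool.Agent.Run7.h91.SP.Low

/-!
# From the smoothed sums to sums over primes; the equivalence
-/

set_option autoImplicit false

open Complex Metric Finset Filter Topology MeasureTheory
open scoped Real

namespace Pool.Agent.Run7.h91.SP

/-- windows `[K, K + ℓ K]` of length at least `K^(1-o(1))` -/
def Win (ℓ : ℕ → ℕ) : Prop := ∀ δ : ℝ, 0 < δ → ∀ᶠ K : ℕ in atTop, (K : ℝ) ^ (1 - δ) ≤ ℓ K

lemma exp_tendsto {q δ : ℝ} (hq : 1 < q) (hδ : 0 < δ) :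
    Tendsto (fun n : ℕ => q ^ ((n : ℝ) * δ)) atTop atTop := by
  have h1 : (1 : ℝ) < q ^ δ := Real.one_lt_rpow hq hδ
  refine (tendsto_pow_atTop_atTop_of_one_lt h1).congr fun n => ?_
  rw [← Real.rpow_natCast, ← Real.rpow_mul (by linarith), mul_comm]

lemma qn_rpow {q : ℝ} (hq : 1 < q) (n : ℕ) (s : ℝ) : ((q ^ n : ℝ)) ^ s = q ^ ((n : ℝ) * s) := by
  rw [← Real.rpow_natCast, ← Real.rpow_mul (by linarith)]

/-- large values in every window -/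
theorem low_P {X : ℂ → ℂ} (hX : Dat X) {a : ℕ → ℂ} (ha : Ser X a) (hD : Dens X) {P : ℝ → ℝ} {κ0 : ℝ}
    (hκ0 : 0 < κ0) (hP : ∀ δ : ℝ, 0 < δ → δ ≤ 1 → ∃ C : ℝ, ∀ x : ℝ, 1 ≤ x → ‖SS a x - κ0 * P x‖ ≤ C * x ^ δ)
    {ρ0 : ℂ} (h0 : X ρ0 = 0) {q ε : ℝ} (hq : 1 < q) (hε : 0 < ε) (hεβ : ε < ρ0.re) {ℓ : ℕ → ℕ} (hℓ : Win ℓ) :
    ∀ᶠ K : ℕ in atTop, ∃ n, K ≤ n ∧ n ≤ K + ℓ K ∧ q ^ ((n : ℝ) * (ρ0.re - ε)) ≤ |P (q ^ n)| := by
  have hq0 : 0 < q := by linarith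
  have hβ2 : ρ0.re ≤ 1 / 2 := (le_abs_self _).trans (hX.strip _ h0)
  obtain ⟨β, hβ⟩ : ∃ β : ℝ, β = ρ0.re := ⟨_, rfl⟩
  rw [← hβ] at hβ2 hεβ ⊢
  have h1 := lower hX ha hD h0 hq (ε := ε / 2) (by positivity) (by rw [← hβ]; linarith) hℓ
  rw [← hβ] at h1
  obtain ⟨C, hC⟩ := hP ((β - ε) / 2) (by linarith) (by linarith)
  have hC0 : 0 ≤ C := by
    have := (norm_nonneg _).trans (hC 1 le_rfl)
    simpa using this
  have h2 := (exp_tendsto (q := q) (δ := ε / 2) hq (by positivity)).eventually_ge_atTop (κ0 + C)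
  filter_upwards [h1, eventually_forall_ge_atTop.2 h2] with K hK1 hK2
  obtain ⟨n, hn1, hn2, hn3⟩ := hK1
  refine ⟨n, hn1, hn2, ?_⟩
  have h3 := hK2 n hn1
  have h4 := hC (q ^ n) (one_le_pow₀ hq.le)
  rw [qn_rpow hq] at h4
  have h5 : q ^ ((n : ℝ) * (β - ε / 2)) = q ^ ((n : ℝ) * (ε / 2)) * q ^ ((n : ℝ) * (β - ε)) := by
    rw [← Real.rpow_add hq0]
    congr 1
    ring
  have h6 : q ^ ((n : ℝ) * ((β - ε) / 2)) ≤ q ^ ((n : ℝ) * (β - ε)) := by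
    apply Real.rpow_le_rpow_of_exponent_le hq.le
    have : (0 : ℝ) ≤ n := Nat.cast_nonneg n
    nlinarith
  have h7 : 0 < q ^ ((n : ℝ) * (β - ε)) := Real.rpow_pos_of_pos hq0 _
  have h8 : ‖SS a (q ^ n)‖ ≤ C * q ^ ((n : ℝ) * ((β - ε) / 2)) + κ0 * |P (q ^ n)| := by
    have e : SS a (q ^ n) = (SS a (q ^ n) - κ0 * P (q ^ n)) + κ0 * P (q ^ n) := by ring
    rw [e]
    refine (norm_add_le _ _).trans (add_le_add h4 ?_)
    rw [norm_mul, Complex.norm_real, Complex.norm_real, Real.norm_eq_abs, Real.norm_eq_abs, abs_of_pos hκ0]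
  have h9 : (κ0 + C) * q ^ ((n : ℝ) * (β - ε)) ≤ q ^ ((n : ℝ) * (β - ε / 2)) := by
    rw [h5]
    exact mul_le_mul_of_nonneg_right h3 h7.le
  have h10 : C * q ^ ((n : ℝ) * ((β - ε) / 2)) ≤ C * q ^ ((n : ℝ) * (β - ε)) := mul_le_mul_of_nonneg_left h6 hC0
  have h11 : κ0 * q ^ ((n : ℝ) * (β - ε)) ≤ κ0 * |P (q ^ n)| := by linarith
  exact le_of_mul_le_mul_left h11 hκ0

theorem up_P {X : ℂ → ℂ} (hX : Dat X) {a : ℕ → ℂ} (ha : Ser X a) {P : ℝ → ℝ} {κ0 : ℝ}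
    (hκ0 : 0 < κ0) (hP : ∀ δ : ℝ, 0 < δ → δ ≤ 1 → ∃ C : ℝ, ∀ x : ℝ, 1 ≤ x → ‖SS a x - κ0 * P x‖ ≤ C * x ^ δ)
    {Θ ε : ℝ} (hΘ : 0 ≤ Θ) (hε : 0 < ε) (hz : ∀ z, X z = 0 → z.re ≤ Θ) :
    ∃ C : ℝ, 0 < C ∧ ∀ x : ℝ, 1 ≤ x → |P x| ≤ C * x ^ (Θ + ε) := by
  obtain ⟨C1, hC1, h1⟩ := upper hX ha hΘ hz
  obtain ⟨C, hC⟩ := hP (min ε 1) (by positivity) (min_le_right _ _)
  have hC0 : 0 ≤ C := by
    have := (norm_nonneg _).trans (hC 1 le_rfl)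
    simpa using this
  refine ⟨(C1 + C) / κ0, by positivity, fun x hx => ?_⟩
  have h2 := h1 x hx
  have h3 := hC x hx
  have h4 : x ^ Θ ≤ x ^ (Θ + ε) := Real.rpow_le_rpow_of_exponent_le hx (by linarith)
  have h5 : x ^ (min ε 1) ≤ x ^ (Θ + ε) :=
    Real.rpow_le_rpow_of_exponent_le hx (by linarith [min_le_left ε 1])
  have h6 : κ0 * |P x| ≤ ‖SS a x‖ + ‖SS a x - κ0 * P x‖ := by
    have e : ((κ0 * P x : ℝ) : ℂ) = SS a x - (SS a x - κ0 * P x) := by push_cast; ring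
    have h7 := norm_sub_le (SS a x) (SS a x - κ0 * P x)
    rw [← e, Complex.norm_real, Real.norm_eq_abs, abs_mul, abs_of_pos hκ0] at h7
    exact h7
  rw [div_mul_eq_mul_div, le_div_iff₀ hκ0]
  calc |P x| * κ0 = κ0 * |P x| := mul_comm _ _
    _ ≤ ‖SS a x‖ + ‖SS a x - κ0 * P x‖ := h6
    _ ≤ C1 * x ^ Θ + C * x ^ (min ε 1) := add_le_add h2 h3
    _ ≤ C1 * x ^ (Θ + ε) + C * x ^ (Θ + ε) := add_le_add (mul_le_mul_of_nonneg_left h4 hC1.le)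
        (mul_le_mul_of_nonneg_left h5 hC0)
    _ = _ := by ring

/-- **The equivalence.** -/
theorem iff_P {X : ℂ → ℂ} (hX : Dat X) {a : ℕ → ℂ} (ha : Ser X a) (hD : Dens X) {P : ℝ → ℝ} {κ0 : ℝ}
    (hκ0 : 0 < κ0) (hP : ∀ δ : ℝ, 0 < δ → δ ≤ 1 → ∃ C : ℝ, ∀ x : ℝ, 1 ≤ x → ‖SS a x - κ0 * P x‖ ≤ C * x ^ δ)
    {θ q : ℝ} (hθ : 0 ≤ θ) (hq : 1 < q) {ℓ : ℕ → ℕ} (hℓ : Win ℓ) :
    (∀ z, X z = 0 → z.re ≤ θ) ↔ ∀ ε : ℝ, 0 < ε → ∃ᶠ K : ℕ in atTop, ∀ n, K ≤ n → n ≤ K + ℓ K →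
      |P (q ^ n)| ≤ q ^ ((n : ℝ) * (θ + ε)) := by
  have hq0 : 0 < q := by linarith
  constructor
  · intro hz ε hε
    obtain ⟨C, hC, h1⟩ := up_P hX ha hκ0 hP (ε := ε / 2) hθ (by positivity) hz
    have h2 := (exp_tendsto (q := q) (δ := ε / 2) hq (by positivity)).eventually_ge_atTop C
    apply Eventually.frequently
    filter_upwards [eventually_forall_ge_atTop.2 h2] with K hK n hn _
    have h3 := h1 (q ^ n) (one_le_pow₀ hq.le)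
    rw [qn_rpow hq] at h3
    refine h3.trans ?_
    have h4 : q ^ ((n : ℝ) * (θ + ε)) = q ^ ((n : ℝ) * (ε / 2)) * q ^ ((n : ℝ) * (θ + ε / 2)) := by
      rw [← Real.rpow_add hq0]
      congr 1
      ring
    rw [h4]
    exact mul_le_mul_of_nonneg_right (hK n hn) (Real.rpow_nonneg hq0.le _)
  · intro h z hz
    by_contra hcon
    push Not at hcon
    have h1 := h ((z.re - θ) / 3) (by linarith)
    have h2 := low_P hX ha hD hκ0 hP hz hq (ε := (z.re - θ) / 3) (by linarith) (by linarith) hℓ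
    obtain ⟨K, hK1, hK2, hK3⟩ := (h1.and_eventually (h2.and (eventually_ge_atTop 1))).exists
    obtain ⟨n, hn1, hn2, hn3⟩ := hK2
    have h3 := hK1 n hn1 hn2
    have h4 : q ^ ((n : ℝ) * (θ + (z.re - θ) / 3)) < q ^ ((n : ℝ) * (z.re - (z.re - θ) / 3)) := by
      apply Real.rpow_lt_rpow_of_exponent_lt hq
      have hn0 : (0 : ℝ) < n := by
        have : 1 ≤ n := hK3.trans hn1
        exact_mod_cast this
      apply mul_lt_mul_of_pos_left _ hn0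
      linarith
    linarith

/-! ### small sums -/

lemma small {a : ℕ → ℂ} {δ : ℝ} (hδ : 0 < δ) (hδ1 : δ ≤ 1) (hs : Summable fun n : ℕ => ‖a n‖ * (n : ℝ) ^ (-δ))
    {x : ℝ} (hx : 0 < x) : ‖SS a x‖ ≤ (∑' n : ℕ, ‖a n‖ * (n : ℝ) ^ (-δ)) * x ^ δ := by
  unfold SS
  apply tsum_of_norm_bounded (hs.hasSum.mul_right _)
  intro n
  rw [norm_mul, Complex.norm_real, Real.norm_eq_abs]
  rcases eq_or_ne n 0 with rfl | hn
  · simp
    positivity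
  · have hn0 : (0 : ℝ) < n := by exact_mod_cast Nat.pos_of_ne_zero hn
    have hu : 0 < x / n := by positivity
    rw [mul_assoc]
    apply mul_le_mul_of_nonneg_left _ (norm_nonneg _)
    have h1 : (n : ℝ) ^ (-δ) * x ^ δ = (x / n) ^ δ := by
      rw [Real.div_rpow hx.le hn0.le, Real.rpow_neg hn0.le]
      field_simp
    rw [h1, abs_of_nonneg (by positivity), div_le_iff₀ (by positivity)]
    rcases le_total 1 (x / n) with h2 | h2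
    · have h3 : 1 ≤ (x / n) ^ δ := Real.one_le_rpow h2 hδ.le
      nlinarith [sq_nonneg (x / n)]
    · have h3 : x / n ≤ (x / n) ^ δ := by
        calc x / n = (x / n) ^ (1 : ℝ) := (Real.rpow_one _).symm
          _ ≤ (x / n) ^ δ := Real.rpow_le_rpow_of_exponent_ge hu h2 hδ1
      nlinarith [sq_nonneg (x / n)]

end Pool.Agent.Run7.h91.SP
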