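import Pool.Agent.Run7.h91.SP.EF

/-!
# The kernel `(π/2) / cos (π z / 2)` and its inverse Mellin transform `y / (1 + y²)`
-/

set_option autoImplicit false

open Complex Metric Finset Filter Topology MeasureTheory
open scoped Real

namespace Pool.Agent.Run7.h91.SP

open H370 (RI RI_zero RI_inv RI_add RI_congr RI_const_mul mk_eq Bd Bd_sub Bd_not_Ioo)

/-- the kernel -/
noncomputable def MM (z : ℂ) : ℂ := (π / 2) / Complex.cos (π * z / 2)

lemma cos_mk (z : ℂ) : Complex.cos (π * z / 2) =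
    ((Real.cos (π * z.re / 2) * Real.cosh (π * z.im / 2) : ℝ) : ℂ) -
      ((Real.sin (π * z.re / 2) * Real.sinh (π * z.im / 2) : ℝ) : ℂ) * I := by
  have h1 : (π * z / 2 : ℂ) = ((π * z.re / 2 : ℝ) : ℂ) + ((π * z.im / 2 : ℝ) : ℂ) * I := by
    conv_lhs => rw [← Complex.re_add_im z]
    push_cast
    ring
  rw [h1, Complex.cos_add_mul_I]
  push_cast
  ring

lemma cos_re (z : ℂ) : (Complex.cos (π * z / 2)).re = Real.cos (π * z.re / 2) * Real.cosh (π * z.im / 2) := by
  rw [cos_mk]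
  simp only [Complex.sub_re, Complex.ofReal_re, Complex.mul_re, Complex.I_re, Complex.ofReal_im, Complex.I_im]
  ring

lemma cos_im (z : ℂ) : (Complex.cos (π * z / 2)).im = -(Real.sin (π * z.re / 2) * Real.sinh (π * z.im / 2)) := by
  rw [cos_mk]
  simp only [Complex.sub_im, Complex.ofReal_im, Complex.mul_im, Complex.I_re, Complex.ofReal_re, Complex.I_im]
  ring

lemma cos_low {s : ℝ} (hs : |s| ≤ 1) : 1 - |s| ≤ Real.cos (π * s / 2) := by
  have h1 : Real.cos (π * s / 2) = Real.cos (π * |s| / 2) := by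
    rw [← Real.cos_abs (π * s / 2), abs_div, abs_mul, abs_of_pos Real.pi_pos, abs_of_pos (two_pos (α := ℝ))]
  rw [h1]
  have h2 := Real.one_sub_mul_le_cos (x := π * |s| / 2) (by positivity)
    (by nlinarith [Real.pi_pos])
  have h3 : 2 / π * (π * |s| / 2) = |s| := by
    field_simp
  rwa [h3] at h2

lemma cos_norm {z : ℂ} (hz : |z.re| ≤ 1) : (1 - |z.re|) * Real.cosh (π * z.im / 2) ≤ ‖Complex.cos (π * z / 2)‖ := by
  have h1 := Complex.re_le_norm (Complex.cos (π * z / 2))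
  rw [cos_re] at h1
  refine le_trans ?_ h1
  exact mul_le_mul_of_nonneg_right (cos_low hz) (Real.cosh_pos _).le

lemma cosh_low (y : ℝ) : Real.exp |y| / 2 ≤ Real.cosh y := by
  rw [← Real.cosh_abs, Real.cosh_eq]
  have := Real.exp_pos (-|y|)
  linarith

lemma cos_ne {z : ℂ} (hz : |z.re| < 1) : Complex.cos (π * z / 2) ≠ 0 := by
  intro h
  have h1 := cos_norm hz.le
  rw [h, norm_zero] at h1
  have h2 : 0 < (1 - |z.re|) * Real.cosh (π * z.im / 2) := mul_pos (by linarith) (Real.cosh_pos _)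
  linarith

lemma MM_diff : DifferentiableOn ℂ MM {z | |z.re| < 1} := by
  intro z hz
  apply DifferentiableAt.differentiableWithinAt
  exact DifferentiableAt.fun_div (by fun_prop) (by fun_prop) (cos_ne hz)

lemma MM_bd {z : ℂ} (hz : |z.re| ≤ 3 / 4) : ‖MM z‖ ≤ 16 * Real.exp (-(3 / 2 * |z.im|)) := by
  have hpi := Real.pi_pos
  have hpi3 := Real.pi_gt_three
  have hpi4 := Real.pi_le_four
  have h1 := cos_norm (z := z) (by linarith)
  have h2 := cosh_low (π * z.im / 2)
  have h3 : Real.exp (3 / 2 * |z.im|) ≤ Real.exp |π * z.im / 2| := by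
    apply Real.exp_le_exp.2
    rw [abs_div, abs_mul, abs_of_pos hpi, abs_of_pos (two_pos (α := ℝ))]
    nlinarith [abs_nonneg z.im]
  have h4 : Real.exp (3 / 2 * |z.im|) / 8 ≤ ‖Complex.cos (π * z / 2)‖ := by
    have h5 := Real.exp_pos (3 / 2 * |z.im|)
    have h6 : 0 < Real.cosh (π * z.im / 2) := Real.cosh_pos _
    nlinarith
  have h7 : 0 < ‖Complex.cos (π * z / 2)‖ := lt_of_lt_of_le (by positivity) h4
  unfold MM
  rw [norm_div, div_le_iff₀ h7, Real.exp_neg]
  have h8 : ‖(π / 2 : ℂ)‖ = π / 2 := by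
    rw [norm_div, Complex.norm_real, Real.norm_eq_abs, abs_of_pos hpi]
    norm_num
  rw [h8]
  calc π / 2 ≤ 2 := by linarith
    _ = 16 * (Real.exp (3 / 2 * |z.im|))⁻¹ * (Real.exp (3 / 2 * |z.im|) / 8) := by
        field_simp
        norm_num
    _ ≤ _ := mul_le_mul_of_nonneg_left h4 (by positivity)

lemma MM_re {z : ℂ} (hz : |z.re| < 1) : 0 < (MM z).re := by
  have hpi := Real.pi_pos
  have h1 := cos_ne hz
  have h2 : 0 < (Complex.cos (π * z / 2)).re := by
    rw [cos_re]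
    exact mul_pos (lt_of_lt_of_le (by linarith) (cos_low hz.le)) (Real.cosh_pos _)
  have h3 : 0 < Complex.normSq (Complex.cos (π * z / 2)) := Complex.normSq_pos.2 h1
  unfold MM
  have h4 : ((π / 2 : ℂ) / Complex.cos (π * z / 2)).re =
      π / 2 * ((Complex.cos (π * z / 2)).re / Complex.normSq (Complex.cos (π * z / 2))) := by
    rw [show (π / 2 : ℂ) = ((π / 2 : ℝ) : ℂ) by push_cast; rfl, div_eq_mul_inv, Complex.re_ofReal_mul,
      Complex.inv_re]
  rw [h4]
  positivity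

/-- the residue at one point, rectangle version -/
lemma RI_cau {a b c d : ℝ} (hab : a ≤ b) (hcd : c ≤ d) {U : Set ℂ} (hU : IsOpen U) {g : ℂ → ℂ}
    (hg : DifferentiableOn ℂ g U) (hsub : Set.Icc a b ×ℂ Set.Icc c d ⊆ U) {p : ℂ}
    (hp : p ∈ Set.Ioo a b ×ℂ Set.Ioo c d) :
    RI a b c d (fun s => g s * (s - p)⁻¹) = 2 * π * I * g p := by
  have hpU : p ∈ U := hsub ⟨Set.Ioo_subset_Icc_self hp.1, Set.Ioo_subset_Icc_self hp.2⟩
  have hds : DifferentiableOn ℂ (dslope g p) U :=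
    (Complex.differentiableOn_dslope (hU.mem_nhds hpU)).2 hg
  have hB' : ∀ s ∈ Bd a b c d, s ≠ p := fun s hs he => Bd_not_Ioo hs (he ▸ hp)
  have hci : ContinuousOn (fun s : ℂ => (s - p)⁻¹) (Bd a b c d) := by
    apply ContinuousOn.inv₀ (by fun_prop)
    intro s hs
    exact sub_ne_zero.2 (hB' s hs)
  have hcd' : ContinuousOn (dslope g p) (Bd a b c d) :=
    (hds.continuousOn.mono hsub).mono (Bd_sub hab hcd)
  rw [RI_congr hab hcd (g := fun s => dslope g p s + g p * (s - p)⁻¹), RI_add hab hcd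
    (g := fun s => g p * (s - p)⁻¹) hcd' (continuousOn_const.mul hci), RI_const_mul, RI_inv hp,
    RI_zero hab hcd (hds.mono hsub)]
  · ring
  · intro s hs
    have h1 := hB' s hs
    have h2 : s - p ≠ 0 := sub_ne_zero.2 h1
    rw [dslope_of_ne _ h1, slope_def_field]
    field_simp
    ring

lemma cos_shift (z : ℂ) : Complex.cos (π * (z - 2) / 2) = -Complex.cos (π * z / 2) := by
  rw [show (π * (z - 2) / 2 : ℂ) = π * z / 2 - π by ring, Complex.cos_sub_pi]

lemma sinh_low {y : ℝ} (hy : 1 ≤ |y|) : Real.exp |y| / 4 ≤ |Real.sinh y| := by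
  rw [Real.abs_sinh, Real.sinh_eq]
  have h1 : Real.exp (-|y|) ≤ Real.exp |y| / 2 := by
    have h2 : Real.exp (-|y|) ≤ Real.exp (-1) := Real.exp_le_exp.2 (by linarith)
    have h3 : Real.exp 1 ≤ Real.exp |y| := Real.exp_le_exp.2 hy
    have h4 : (2 : ℝ) ≤ Real.exp 1 := by linarith [Real.add_one_le_exp (1 : ℝ)]
    have h5 : Real.exp (-1) ≤ 1 := by
      rw [Real.exp_neg]
      exact inv_le_one_of_one_le₀ (by linarith)
    linarith
  linarith

/-- the kernel away from the real axis -/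
lemma MM_far {z : ℂ} (hz : 1 ≤ |z.im|) : ‖MM z‖ ≤ 8 * Real.exp (-|z.im|) := by
  have hpi := Real.pi_pos
  have hpi3 := Real.pi_gt_three
  have hpi4 := Real.pi_le_four
  have h0 : |π * z.im / 2| = π * |z.im| / 2 := by
    rw [abs_div, abs_mul, abs_of_pos hpi, abs_of_pos (two_pos (α := ℝ))]
  have h1 : Real.exp |π * z.im / 2| / 4 ≤ |Real.sinh (π * z.im / 2)| := by
    apply sinh_low
    rw [h0]
    nlinarith
  have h2 : |Real.sinh (π * z.im / 2)| ≤ ‖Complex.cos (π * z / 2)‖ := by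
    apply abs_le_of_sq_le_sq _ (norm_nonneg _)
    rw [← Complex.normSq_eq_norm_sq, Complex.normSq_apply, cos_re, cos_im]
    have h3 := Real.cosh_sq (π * z.im / 2)
    have h4 := Real.sin_sq_add_cos_sq (π * z.re / 2)
    nlinarith [sq_nonneg (Real.cos (π * z.re / 2))]
  have h5 : Real.exp |z.im| ≤ Real.exp |π * z.im / 2| := by
    apply Real.exp_le_exp.2
    rw [h0]
    nlinarith
  have h6 : Real.exp |z.im| / 4 ≤ ‖Complex.cos (π * z / 2)‖ := by linarith
  have h7 : 0 < ‖Complex.cos (π * z / 2)‖ := lt_of_lt_of_le (by positivity) h6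
  unfold MM
  rw [norm_div, div_le_iff₀ h7, Real.exp_neg]
  have h8 : ‖(π / 2 : ℂ)‖ = π / 2 := by
    rw [norm_div, Complex.norm_real, Real.norm_eq_abs, abs_of_pos hpi]
    norm_num
  rw [h8]
  calc π / 2 ≤ 2 := by linarith
    _ = 8 * (Real.exp |z.im|)⁻¹ * (Real.exp |z.im| / 4) := by
        field_simp
        norm_num
    _ ≤ _ := mul_le_mul_of_nonneg_left h6 (by positivity)

/-- **The inverse Mellin transform of the kernel.** -/
theorem MM_inv {y : ℝ} (hy : 0 < y) :
    (∫ t : ℝ, MM ⟨3 / 4, t⟩ * (y : ℂ) ^ (⟨3 / 4, t⟩ : ℂ)) = ((2 * π * (y / (1 + y ^ 2)) : ℝ) : ℂ) := by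
  have hyc : (y : ℂ) ≠ 0 := by exact_mod_cast hy.ne'
  have hpi := Real.pi_pos
  set f : ℂ → ℂ := fun z => MM z * (y : ℂ) ^ z with hf
  have hcp : ∀ z : ℂ, ‖(y : ℂ) ^ z‖ = y ^ z.re := fun z => Complex.norm_cpow_eq_rpow_re_of_pos hy z
  -- the value on the left line
  have hleft : ∀ t : ℝ, f ⟨-(5 / 4), t⟩ = -(((y ^ 2)⁻¹ : ℝ) : ℂ) * f ⟨3 / 4, t⟩ := by
    intro t
    have e1 : (⟨-(5 / 4), t⟩ : ℂ) = ⟨3 / 4, t⟩ - 2 := by
      apply Complex.ext
      · simp; norm_num
      · simp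
    rw [hf]
    beta_reduce
    rw [e1]
    unfold MM
    rw [cos_shift, Complex.cpow_sub _ _ hyc]
    rw [show ((y : ℂ) ^ (2 : ℂ)) = (y : ℂ) ^ (2 : ℕ) by rw [← Complex.cpow_natCast]; norm_num]
    push_cast
    rw [div_neg]
    field_simp
  have hline : ∀ t : ℝ, ‖f ⟨3 / 4, t⟩‖ ≤ 16 * y ^ (3 / 4 : ℝ) * Real.exp (-|t| / 2) := by
    intro t
    rw [hf]
    beta_reduce
    rw [norm_mul, hcp]
    have h1 := MM_bd (z := ⟨3 / 4, t⟩) (by norm_num [abs_of_pos])
    simp only at h1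
    have h2 : Real.exp (-(3 / 2 * |t|)) ≤ Real.exp (-|t| / 2) :=
      Real.exp_le_exp.2 (by linarith [abs_nonneg t])
    have h3 : 0 < y ^ (3 / 4 : ℝ) := Real.rpow_pos_of_pos hy _
    calc ‖MM ⟨3 / 4, t⟩‖ * y ^ (3 / 4 : ℝ) ≤ (16 * Real.exp (-|t| / 2)) * y ^ (3 / 4 : ℝ) := by
          apply mul_le_mul_of_nonneg_right _ h3.le
          exact h1.trans (mul_le_mul_of_nonneg_left h2 (by norm_num))
      _ = _ := by ring
  have hic : Integrable fun t : ℝ => f ⟨3 / 4, t⟩ := by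
    apply int_of (B := 16 * y ^ (3 / 4 : ℝ)) _ hline
    apply Continuous.mul
    · apply MM_diff.continuousOn.comp_continuous (cont_mk _)
      intro t
      show |(3 / 4 : ℝ)| < 1
      norm_num [abs_of_pos]
    · exact (cont_mk _).const_cpow (Or.inl hyc)
  have hia : Integrable fun t : ℝ => f ⟨-(5 / 4), t⟩ := by
    have : (fun t : ℝ => f ⟨-(5 / 4), t⟩) = fun t : ℝ => -(((y ^ 2)⁻¹ : ℝ) : ℂ) * f ⟨3 / 4, t⟩ := funext hleft
    rw [this]
    exact hic.const_mul _
  -- the regular part at `z = -1`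
  set S : ℂ → ℂ := fun w => Complex.sin (π * w / 2) with hS
  have hSd : Differentiable ℂ S := by
    rw [hS]; fun_prop
  have hSds : Differentiable ℂ (dslope S 0) := by
    have := (Complex.differentiableOn_dslope (s := Set.univ) (c := (0 : ℂ)) (f := S) univ_mem).2
      hSd.differentiableOn
    exact differentiableOn_univ.1 this
  have hcs : ∀ z : ℂ, Complex.cos (π * z / 2) = S (z + 1) := by
    intro z
    rw [hS]
    beta_reduce
    rw [show (π * (z + 1) / 2 : ℂ) = π * z / 2 + π / 2 by ring, Complex.sin_add_pi_div_two]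
  have hS0 : S 0 = 0 := by rw [hS]; simp
  have hSw : ∀ w : ℂ, S w = w * dslope S 0 w := by
    intro w
    have := sub_smul_dslope S 0 w
    rw [smul_eq_mul, sub_zero, hS0, sub_zero] at this
    exact this.symm
  have hSd0 : dslope S 0 0 = π / 2 := by
    rw [dslope_same]
    have h1 : HasDerivAt S (Complex.cos (π * 0 / 2) * (π * 1 / 2)) 0 :=
      (((hasDerivAt_id (0 : ℂ)).const_mul (π : ℂ)).div_const 2).csin
    rw [h1.deriv]
    simp
  have hSne : ∀ w : ℂ, |w.re| < 2 → dslope S 0 w ≠ 0 := by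
    intro w hw h0
    rcases eq_or_ne w 0 with rfl | hw0
    · rw [hSd0] at h0
      have : (π : ℂ) ≠ 0 := by exact_mod_cast hpi.ne'
      exact this (by linear_combination 2 * h0)
    · have h1 : S w = 0 := by rw [hSw, h0, mul_zero]
      rw [hS] at h1
      beta_reduce at h1
      rw [Complex.sin_eq_zero_iff] at h1
      obtain ⟨k, hk⟩ := h1
      have hk2 : w = 2 * k := by
        have : (π : ℂ) ≠ 0 := by exact_mod_cast hpi.ne'
        field_simp at hk
        linear_combination hk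
      have hre : w.re = 2 * k := by rw [hk2]; simp
      rw [hre, abs_mul, abs_of_pos (two_pos (α := ℝ))] at hw
      have hk1 : |(k : ℝ)| < 1 := by linarith
      have hk0 : k = 0 := by
        rw [← Int.abs_lt_one_iff]
        exact_mod_cast hk1
      apply hw0
      rw [hk2, hk0]
      simp
  set g : ℂ → ℂ := fun z => (π / 2) * (y : ℂ) ^ z / dslope S 0 (z + 1) with hg
  have hgd : DifferentiableOn ℂ g {z | |(z + 1).re| < 2} := by
    intro z hz
    apply DifferentiableAt.differentiableWithinAt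
    have d1 : DifferentiableAt ℂ (fun z : ℂ => (π / 2 : ℂ) * (y : ℂ) ^ z) z := by
      apply DifferentiableAt.const_mul
      exact (differentiableAt_id).const_cpow (Or.inl hyc)
    have d2 : DifferentiableAt ℂ (fun z : ℂ => dslope S 0 (z + 1)) z :=
      (hSds (z + 1)).comp z (by fun_prop)
    exact d1.fun_div d2 (hSne _ hz)
  have hfg : ∀ z : ℂ, z ≠ -1 → f z = g z * (z - (-1))⁻¹ := by
    intro z hz
    have h1 : z + 1 ≠ 0 := fun h => hz (by linear_combination h)
    rw [hf, hg]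
    beta_reduce
    unfold MM
    rw [hcs, hSw, sub_neg_eq_add, div_mul_eq_mul_div, div_mul_eq_div_div]
    rw [div_eq_mul_inv _ (z + 1)]
    ring
  have hg1 : g (-1) = ((y⁻¹ : ℝ) : ℂ) := by
    rw [hg]
    beta_reduce
    rw [neg_add_cancel, hSd0, Complex.cpow_neg_one]
    have : (π : ℂ) ≠ 0 := by exact_mod_cast hpi.ne'
    push_cast
    field_simp
  have hmain := RI_lim (a := -(5 / 4)) (b := 3 / 4) (f := f) (B := 8 * (y ^ (3 / 4 : ℝ) + y ^ (-(5 / 4) : ℝ)))
    (c := 2 * π * I * g (-1)) (by norm_num) hia hic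
    (by
      filter_upwards [eventually_ge_atTop 1] with V hV x hx
      have h3 : 0 < y ^ (3 / 4 : ℝ) := Real.rpow_pos_of_pos hy _
      have h4 : 0 < y ^ (-(5 / 4) : ℝ) := Real.rpow_pos_of_pos hy _
      have key : ∀ W : ℝ, |W| = V → ‖f ⟨x, W⟩‖ ≤ 8 * (y ^ (3 / 4 : ℝ) + y ^ (-(5 / 4) : ℝ)) * Real.exp (-V / 2) := by
        intro W hW
        have h1 := MM_far (z := ⟨x, W⟩) (by simp only; linarith)
        simp only [hW] at h1
        have h5 : y ^ x ≤ y ^ (3 / 4 : ℝ) + y ^ (-(5 / 4) : ℝ) := by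
          rcases le_total 1 y with h6 | h6
          · have := Real.rpow_le_rpow_of_exponent_le h6 hx.2
            linarith
          · have := Real.rpow_le_rpow_of_exponent_ge hy h6 hx.1
            linarith
        rw [hf]
        beta_reduce
        rw [norm_mul, hcp]
        have h7 : Real.exp (-V) ≤ Real.exp (-V / 2) := Real.exp_le_exp.2 (by linarith)
        calc ‖MM ⟨x, W⟩‖ * y ^ x ≤ (8 * Real.exp (-V / 2)) * (y ^ (3 / 4 : ℝ) + y ^ (-(5 / 4) : ℝ)) := by
              apply mul_le_mul _ h5 (Real.rpow_nonneg hy.le _) (by positivity)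
              exact h1.trans (mul_le_mul_of_nonneg_left h7 (by norm_num))
          _ = _ := by ring
      exact ⟨key V (abs_of_nonneg (by linarith)), key (-V) (by rw [abs_neg, abs_of_nonneg (by linarith)])⟩)
    (by
      filter_upwards [eventually_ge_atTop 1] with V hV
      have hab : (-(5 / 4) : ℝ) ≤ 3 / 4 := by norm_num
      have hcd : -V ≤ V := by linarith
      have hpin : (-1 : ℂ) ∈ Set.Ioo (-(5 / 4) : ℝ) (3 / 4) ×ℂ Set.Ioo (-V) V := by
        refine ⟨?_, ?_⟩
        · simp only [Set.mem_preimage, Complex.neg_re, Complex.one_re, Set.mem_Ioo]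
          norm_num
        · simp only [Set.mem_preimage, Complex.neg_im, Complex.one_im, Set.mem_Ioo]
          constructor <;> linarith
      rw [RI_congr hab hcd (g := fun s => g s * (s - (-1))⁻¹)]
      · apply RI_cau hab hcd (U := {z | |(z + 1).re| < 2}) _ hgd _ hpin
        · exact isOpen_lt (continuous_abs.comp (Complex.continuous_re.comp (by fun_prop))) continuous_const
        · intro z hz
          show |(z + 1).re| < 2
          have h1 := hz.1
          rw [Set.mem_preimage, Set.mem_Icc] at h1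
          rw [Complex.add_re, Complex.one_re, abs_lt]
          exact ⟨by linarith [h1.1], by linarith [h1.2]⟩
      · intro s hs
        exact hfg s fun he => Bd_not_Ioo hs (he ▸ hpin))
  rw [hg1] at hmain
  have hI : (∫ t : ℝ, f ⟨-(5 / 4), t⟩) = -(((y ^ 2)⁻¹ : ℝ) : ℂ) * ∫ t : ℝ, f ⟨3 / 4, t⟩ := by
    rw [← integral_const_mul]
    exact integral_congr_ae (Eventually.of_forall hleft)
  rw [hI] at hmain
  have h1 : (∫ t : ℝ, f ⟨3 / 4, t⟩) * (1 + ((y ^ 2)⁻¹ : ℝ)) = 2 * π * ((y⁻¹ : ℝ) : ℂ) := by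
    apply mul_left_cancel₀ I_ne_zero
    linear_combination hmain
  have h2 : (1 + (((y ^ 2)⁻¹ : ℝ) : ℂ)) ≠ 0 := by
    have : (0 : ℝ) < 1 + (y ^ 2)⁻¹ := by positivity
    exact_mod_cast this.ne'
  have h3 : (∫ t : ℝ, f ⟨3 / 4, t⟩) = 2 * π * ((y⁻¹ : ℝ) : ℂ) / (1 + ((y ^ 2)⁻¹ : ℝ)) := by
    rw [eq_div_iff h2]
    exact h1
  show (∫ t : ℝ, f ⟨3 / 4, t⟩) = _
  rw [h3]
  have h4 : (1 + y ^ 2 : ℂ) ≠ 0 := by
    have : (0 : ℝ) < 1 + y ^ 2 := by positivity
    exact_mod_cast this.ne'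
  have h5 : (y ^ 2 + 1 : ℂ) ≠ 0 := by rw [add_comm]; exact h4
  push_cast at h2 ⊢
  field_simp
  ring

end Pool.Agent.Run7.h91.SP
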