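import Pool.Agent.Run7.h91.SP.Core

/-!
# Lower and upper bounds for the smoothed sums at the powers of `q`
-/

set_option autoImplicit false

open Complex Metric Finset Filter Topology MeasureTheory
open scoped Real

namespace Pool.Agent.Run7.h91.SP

/-- few zeros to the right of every line `Re z = d > 0` -/
def Dens (X : ℂ → ℂ) : Prop := ∀ d : ℝ, 0 < d → ∃ κ C : ℝ, 0 < κ ∧ κ < 1 ∧ 0 < C ∧ ∀ T : ℝ, 2 ≤ T →
  ∀ S : Finset ℂ, (∀ s ∈ S, X s = 0 ∧ d ≤ s.re ∧ |s.im| ≤ T) → (S.card : ℝ) ≤ C * T ^ (1 - κ)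

/-- a radius away from finitely many numbers -/
lemma radius (V : Finset ℝ) {r1 r2 : ℝ} (h : r1 < r2) :
    ∃ r : ℝ, r1 < r ∧ r < r2 ∧ ∀ v ∈ V, (r2 - r1) / (2 * (V.card + 1)) ≤ |v - r| := by
  classical
  set N := V.card with hN
  set η := (r2 - r1) / (2 * ((N : ℝ) + 1)) with hη
  have hη0 : 0 < η := by
    rw [hη]
    have : 0 < r2 - r1 := by linarith
    positivity
  have hηN : η * (2 * ((N : ℝ) + 1)) = r2 - r1 := by
    rw [hη]
    field_simp
  set p : ℕ → ℝ := fun i => r1 + (2 * i + 1) * η with hp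
  by_contra hcon
  push Not at hcon
  have h1 : ∀ i ∈ range (N + 1), ∃ v ∈ V, |v - p i| < η := by
    intro i hi
    rw [Finset.mem_range] at hi
    have hi' : (i : ℝ) ≤ N := by exact_mod_cast Nat.lt_succ_iff.1 hi
    apply hcon
    · rw [hp]
      beta_reduce
      have : (0 : ℝ) < 2 * i + 1 := by positivity
      nlinarith
    · rw [hp]
      beta_reduce
      nlinarith
  choose! f hf1 hf2 using h1
  have h2 : (range (N + 1)).card ≤ V.card := by
    apply Finset.card_le_card_of_injOn f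
    · intro i hi
      exact hf1 i hi
    · intro i hi j hj hij
      by_contra hne
      have h3 := hf2 i hi
      have h4 := hf2 j hj
      rw [hij] at h3
      have h5 : |p i - p j| < 2 * η := by
        have : p i - p j = (f j - p j) - (f j - p i) := by ring
        rw [this]
        calc _ ≤ |f j - p j| + |f j - p i| := abs_sub _ _
          _ < 2 * η := by linarith
      have h6 : p i - p j = 2 * ((i : ℝ) - j) * η := by
        rw [hp]
        ring
      rw [h6, abs_mul, abs_mul, abs_of_pos hη0, abs_of_pos (two_pos (α := ℝ))] at h5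
      have h7 : (1 : ℝ) ≤ |(i : ℝ) - j| := by
        have h8 : (i : ℤ) - j ≠ 0 := by
          intro h
          apply hne
          omega
        have h9 := Int.one_le_abs h8
        exact_mod_cast h9
      nlinarith
  rw [Finset.card_range] at h2
  omega

/-- the asymptotic estimate -/
lemma asy {κ C L c δ m E : ℝ} (hκ : 0 < κ) (hκ1 : κ < 1) (hC : 0 < C) (hL : 0 < L) (hc : 1 ≤ c) (hδ : 0 < δ)
    (hm : 0 < m) (hE : 0 ≤ E) :
    ∀ᶠ K : ℕ in atTop, ∀ N : ℕ, (N : ℝ) ≤ C * (L * K + 2) ^ (1 - κ) →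
      E * (N * (c * (N + 1)) ^ N * Real.exp (-(δ * K))) < m := by
  set C7 : ℝ := C * (L + 2) ^ (1 - κ) + 1 with hC7
  have hC70 : 1 ≤ C7 := by
    rw [hC7]
    have : 0 ≤ C * (L + 2) ^ (1 - κ) := by positivity
    linarith
  set C8 : ℝ := (c * C7) ^ (κ / 2) / (κ / 2) with hC8
  have hC80 : 0 ≤ C8 := by positivity
  have t1 : Tendsto (fun K : ℕ => (K : ℝ) ^ (-(κ / 2))) atTop (𝓝 0) :=
    (tendsto_rpow_neg_atTop (by positivity)).comp tendsto_natCast_atTop_atTop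
  have t2 := t1.const_mul (C7 * C8)
  rw [mul_zero] at t2
  have t3 : Tendsto (fun K : ℕ => Real.exp (-(δ / 2 * K))) atTop (𝓝 0) := by
    apply Real.tendsto_exp_neg_atTop_nhds_zero.comp
    exact tendsto_natCast_atTop_atTop.const_mul_atTop (by positivity)
  have t4 := t3.const_mul E
  rw [mul_zero] at t4
  filter_upwards [eventually_ge_atTop 1, t2.eventually (gt_mem_nhds (show 0 < δ / 2 by positivity)),
    t4.eventually (gt_mem_nhds hm)] with K hK1 h2 h4 N hN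
  have hK : (1 : ℝ) ≤ K := by exact_mod_cast hK1
  have hK0 : (0 : ℝ) < K := by linarith
  have h5 : (N : ℝ) + 1 ≤ C7 * (K : ℝ) ^ (1 - κ) := by
    have h6 : (L * K + 2) ^ (1 - κ) ≤ ((L + 2) * K) ^ (1 - κ) := by
      apply Real.rpow_le_rpow (by positivity) (by nlinarith) (by linarith)
    rw [Real.mul_rpow (by positivity) hK0.le] at h6
    have h7 : 1 ≤ (K : ℝ) ^ (1 - κ) := Real.one_le_rpow hK (by linarith)
    rw [hC7]
    calc (N : ℝ) + 1 ≤ C * ((L + 2) ^ (1 - κ) * (K : ℝ) ^ (1 - κ)) + (K : ℝ) ^ (1 - κ) :=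
          add_le_add (hN.trans (mul_le_mul_of_nonneg_left h6 hC.le)) h7
      _ = _ := by ring
  have h8 : 1 ≤ c * ((N : ℝ) + 1) := by
    have : (0 : ℝ) ≤ N := Nat.cast_nonneg N
    nlinarith
  have h9 : Real.log (c * ((N : ℝ) + 1)) ≤ C8 * (K : ℝ) ^ (κ / 2) := by
    have h10 : c * ((N : ℝ) + 1) ≤ c * C7 * K := by
      have h11 : (K : ℝ) ^ (1 - κ) ≤ K := by
        calc (K : ℝ) ^ (1 - κ) ≤ (K : ℝ) ^ (1 : ℝ) := Real.rpow_le_rpow_of_exponent_le hK (by linarith)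
          _ = K := Real.rpow_one _
      calc c * ((N : ℝ) + 1) ≤ c * (C7 * (K : ℝ) ^ (1 - κ)) := mul_le_mul_of_nonneg_left h5 (by linarith)
        _ ≤ c * (C7 * K) := by gcongr
        _ = _ := by ring
    calc Real.log (c * ((N : ℝ) + 1)) ≤ Real.log (c * C7 * K) := Real.log_le_log (by linarith) h10
      _ ≤ (c * C7 * K) ^ (κ / 2) / (κ / 2) := Real.log_le_rpow_div (by positivity) (by positivity)
      _ = _ := by
          rw [Real.mul_rpow (by positivity) hK0.le, hC8]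
          ring
  have h12 : (N : ℝ) * (c * (N + 1)) ^ N ≤ Real.exp (C7 * C8 * (K : ℝ) ^ (-(κ / 2)) * K) := by
    have h13 : (N : ℝ) * (c * (N + 1)) ^ N ≤ (c * (N + 1)) ^ (N + 1) := by
      rw [pow_succ']
      apply mul_le_mul_of_nonneg_right _ (by positivity)
      have : (0 : ℝ) ≤ N := Nat.cast_nonneg N
      nlinarith
    have h14 : (c * ((N : ℝ) + 1)) ^ (N + 1) = Real.exp (((N : ℝ) + 1) * Real.log (c * (N + 1))) := by
      rw [show ((N : ℝ) + 1) * Real.log (c * (N + 1)) = ((N + 1 : ℕ) : ℝ) * Real.log (c * (N + 1)) by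
        push_cast; ring, Real.exp_nat_mul, Real.exp_log (by linarith)]
    refine h13.trans ?_
    rw [h14]
    apply Real.exp_le_exp.2
    have h15 : 0 ≤ Real.log (c * ((N : ℝ) + 1)) := Real.log_nonneg h8
    calc ((N : ℝ) + 1) * Real.log (c * (N + 1)) ≤ (C7 * (K : ℝ) ^ (1 - κ)) * (C8 * (K : ℝ) ^ (κ / 2)) :=
          mul_le_mul h5 h9 h15 (by positivity)
      _ = C7 * C8 * ((K : ℝ) ^ (1 - κ) * (K : ℝ) ^ (κ / 2)) := by ring
      _ = C7 * C8 * ((K : ℝ) ^ (-(κ / 2)) * (K : ℝ) ^ (1 : ℝ)) := by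
          rw [← Real.rpow_add hK0, ← Real.rpow_add hK0]
          congr 2
          ring
      _ = _ := by rw [Real.rpow_one]; ring
  have h16 : Real.exp (C7 * C8 * (K : ℝ) ^ (-(κ / 2)) * K) ≤ Real.exp (δ / 2 * K) :=
    Real.exp_le_exp.2 (mul_le_mul_of_nonneg_right h2.le hK0.le)
  calc E * (N * (c * (N + 1)) ^ N * Real.exp (-(δ * K)))
      ≤ E * (Real.exp (δ / 2 * K) * Real.exp (-(δ * K))) := by
        apply mul_le_mul_of_nonneg_left _ hE
        exact mul_le_mul_of_nonneg_right (h12.trans h16) (Real.exp_pos _).le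
    _ = E * Real.exp (-(δ / 2 * K)) := by
        rw [← Real.exp_add]
        congr 2
        ring
    _ < m := h4

/-- **Upper bound.** -/
theorem upper {X : ℂ → ℂ} (hX : Dat X) {a : ℕ → ℂ} (ha : Ser X a) {Θ : ℝ} (hΘ : 0 ≤ Θ)
    (hz : ∀ z, X z = 0 → z.re ≤ Θ) : ∃ C : ℝ, 0 < C ∧ ∀ x : ℝ, 1 ≤ x → ‖SS a x‖ ≤ C * x ^ Θ := by
  obtain ⟨C1, N, ρ, hC1, hρ, -, hρs, hlim⟩ := hX.ef
  obtain ⟨C2, hC2, hform⟩ := formula hX ha
  have hpi := Real.pi_pos
  refine ⟨16 * C1 + C2 + 1, by positivity, fun x hx => ?_⟩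
  have hx0 : 0 < x := by linarith
  have h1 := hform 1 (fun _ => 1) (fun _ => x) (fun _ => hx)
  simp only [Finset.sum_range_one, norm_one, one_mul, mul_one] at h1
  set h := hh 1 (fun _ => 1) (fun _ => x) with hh'
  have hT : Tst h _ := hh_tst (m := 1) (c := fun _ => 1) (y := fun _ => x) (fun _ => hx)
  have h2 := hlim h _ hT
  have hxT : 1 ≤ x ^ Θ := Real.one_le_rpow hx hΘ
  have h3 : ∀ n, ‖2 * π * ∑ i ∈ range (N n), h (ρ n i)‖ ≤ 2 * π * (16 * C1 * x ^ Θ) := by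
    intro n
    rw [norm_mul, norm_mul, Complex.norm_real, Real.norm_eq_abs, abs_of_pos hpi]
    have h20 : ‖(2 : ℂ)‖ = 2 := by norm_num
    rw [h20]
    apply mul_le_mul_of_nonneg_left _ (by positivity)
    calc ‖∑ i ∈ range (N n), h (ρ n i)‖ ≤ ∑ i ∈ range (N n), ‖h (ρ n i)‖ := norm_sum_le _ _
      _ ≤ ∑ i ∈ range (N n), 16 * x ^ Θ * Real.exp (-|(ρ n i).im|) := by
          apply Finset.sum_le_sum
          intro i hi
          have hz0 := hρ n i (Finset.mem_range.1 hi)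
          have hs := hX.strip _ hz0
          have h4 := hh_bd (m := 1) (c := fun _ => 1) (y := fun _ => x) (fun _ => hx) (z := ρ n i)
            (by linarith)
          simp only [Finset.sum_range_one, norm_one, one_mul] at h4
          have h5 : x ^ (ρ n i).re ≤ x ^ Θ := Real.rpow_le_rpow_of_exponent_le hx (hz _ hz0)
          have h6 : Real.exp (-(3 / 2 * |(ρ n i).im|)) ≤ Real.exp (-|(ρ n i).im|) :=
            Real.exp_le_exp.2 (by linarith [abs_nonneg (ρ n i).im])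
          refine h4.trans ?_
          have h7 : 0 ≤ x ^ (ρ n i).re := Real.rpow_nonneg hx0.le _
          gcongr
      _ ≤ 16 * C1 * x ^ Θ := by
          rw [← Finset.mul_sum]
          have := mul_le_mul_of_nonneg_left (hρs n) (show 0 ≤ 16 * x ^ Θ by positivity)
          linarith
  have h4 : ‖JJ X h‖ ≤ 2 * π * (16 * C1 * x ^ Θ) := le_of_tendsto h2.norm (Eventually.of_forall h3)
  have h5 : ‖2 * π * SS a x‖ ≤ C2 + 2 * π * (16 * C1 * x ^ Θ) := by
    have : 2 * π * SS a x = (JJ X h + 2 * π * SS a x) - JJ X h := by ring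
    rw [this]
    calc _ ≤ ‖JJ X h + 2 * π * SS a x‖ + ‖JJ X h‖ := norm_sub_le _ _
      _ ≤ _ := add_le_add h1 h4
  rw [norm_mul, norm_mul, Complex.norm_real, Real.norm_eq_abs, abs_of_pos hpi] at h5
  have h20 : ‖(2 : ℂ)‖ = 2 := by norm_num
  rw [h20] at h5
  have h6 : 1 ≤ 2 * π := by linarith [Real.pi_gt_three]
  have h7 : C2 ≤ 2 * π * (C2 * x ^ Θ) := by
    have : C2 ≤ C2 * x ^ Θ := le_mul_of_one_le_right hC2 hxT
    nlinarith
  have h8 : 2 * π * ‖SS a x‖ ≤ 2 * π * ((16 * C1 + C2) * x ^ Θ) := by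
    calc _ ≤ C2 + 2 * π * (16 * C1 * x ^ Θ) := h5
      _ ≤ 2 * π * (C2 * x ^ Θ) + 2 * π * (16 * C1 * x ^ Θ) := by linarith
      _ = _ := by ring
  have h9 := le_of_mul_le_mul_left h8 (by positivity)
  have : 0 < x ^ Θ := by linarith
  nlinarith

lemma pow_cpow {q : ℝ} (hq : 0 < q) (j : ℕ) (z : ℂ) :
    ((q ^ j : ℝ) : ℂ) ^ z = (cexp (Real.log q * z)) ^ j := by
  have h1 : ((q ^ j : ℝ) : ℂ) ≠ 0 := by
    have : (0 : ℝ) < q ^ j := by positivity
    exact_mod_cast this.ne'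
  rw [Complex.cpow_def_of_ne_zero h1, ← Complex.ofReal_log (by positivity), Real.log_pow, ← Complex.exp_nat_mul]
  congr 1
  push_cast
  ring

lemma finite_of_dens {Z : Set ℂ} {B : ℝ} (h : ∀ S : Finset ℂ, (∀ s ∈ S, s ∈ Z) → (S.card : ℝ) ≤ B) : Z.Finite := by
  by_contra hinf
  obtain ⟨S, hS, hc⟩ := Set.Infinite.exists_subset_card_eq hinf (⌈B⌉₊ + 1)
  have h1 := h S fun s hs => hS hs
  rw [hc] at h1
  push_cast at h1
  have := Nat.le_ceil B
  linarith

lemma ev1 {C L κ : ℝ} (hC : 0 < C) (hL : 0 < L) (hκ : 0 < κ) (hκ1 : κ < 1) :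
    ∀ᶠ K : ℕ in atTop, C * (L * K + 2) ^ (1 - κ) ≤ (K : ℝ) ^ (1 - κ / 2) := by
  have t1 : Tendsto (fun K : ℕ => (K : ℝ) ^ (κ / 2)) atTop atTop :=
    (tendsto_rpow_atTop (by positivity)).comp tendsto_natCast_atTop_atTop
  filter_upwards [eventually_ge_atTop 1, t1.eventually_ge_atTop (C * (L + 2) ^ (1 - κ))] with K hK1 h2
  have hK : (1 : ℝ) ≤ K := by exact_mod_cast hK1
  have hK0 : (0 : ℝ) < K := by linarith
  have h6 : (L * K + 2) ^ (1 - κ) ≤ ((L + 2) * K) ^ (1 - κ) := by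
    apply Real.rpow_le_rpow (by positivity) (by nlinarith) (by linarith)
  rw [Real.mul_rpow (by positivity) hK0.le] at h6
  calc C * (L * K + 2) ^ (1 - κ) ≤ C * ((L + 2) ^ (1 - κ) * (K : ℝ) ^ (1 - κ)) := by gcongr
    _ = (C * (L + 2) ^ (1 - κ)) * (K : ℝ) ^ (1 - κ) := by ring
    _ ≤ (K : ℝ) ^ (κ / 2) * (K : ℝ) ^ (1 - κ) := by gcongr
    _ = (K : ℝ) ^ (1 - κ / 2) := by
        rw [← Real.rpow_add hK0]
        congr 1
        ring

/-- **Lower bound.** -/
theorem lower {X : ℂ → ℂ} (hX : Dat X) {a : ℕ → ℂ} (ha : Ser X a) (hD : Dens X) {ρ0 : ℂ} (h0 : X ρ0 = 0)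
    {q ε : ℝ} (hq : 1 < q) (hε : 0 < ε) (hεβ : ε < ρ0.re) {ℓ : ℕ → ℕ}
    (hℓ : ∀ δ : ℝ, 0 < δ → ∀ᶠ K : ℕ in atTop, (K : ℝ) ^ (1 - δ) ≤ ℓ K) :
    ∀ᶠ K : ℕ in atTop, ∃ n, K ≤ n ∧ n ≤ K + ℓ K ∧ q ^ ((n : ℝ) * (ρ0.re - ε)) ≤ ‖SS a (q ^ n)‖ := by
  classical
  have hpi := Real.pi_pos
  have hq0 : 0 < q := by linarith
  have hβ2' : ρ0.re ≤ 1 / 2 := (le_abs_self _).trans (hX.strip _ h0)
  obtain ⟨β, hβ⟩ : ∃ β : ℝ, β = ρ0.re := ⟨_, rfl⟩
  rw [← hβ] at hβ2' hεβ ⊢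
  have hβ2 := hβ2'
  obtain ⟨d0, hd0⟩ : ∃ d0 : ℝ, d0 = β - ε := ⟨_, rfl⟩
  rw [← hd0]
  have hd00 : 0 < d0 := by linarith
  have hd01 : d0 ≤ 1 := by linarith
  obtain ⟨L, hL⟩ : ∃ L : ℝ, L = Real.log q := ⟨_, rfl⟩
  have hL0 : 0 < L := by rw [hL]; exact Real.log_pos hq
  obtain ⟨κ, C3, hκ, hκ1, hC3, hDens⟩ := hD d0 hd00
  obtain ⟨C1, Nn, ρ, hC1, hρ, hρall, hρs, hlim⟩ := hX.ef
  obtain ⟨C2, hC2, hform⟩ := formula hX ha
  obtain ⟨r1, hr1⟩ : ∃ r1 : ℝ, r1 = q ^ (β - 2 * ε / 3) := ⟨_, rfl⟩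
  obtain ⟨r2, hr2⟩ : ∃ r2 : ℝ, r2 = q ^ (β - ε / 3) := ⟨_, rfl⟩
  have hr12 : r1 < r2 := by rw [hr1, hr2]; exact Real.rpow_lt_rpow_of_exponent_lt hq (by linarith)
  have hr11 : 1 ≤ r1 := by rw [hr1]; exact Real.one_le_rpow hq.le (by linarith)
  obtain ⟨c5, hc5⟩ : ∃ c5 : ℝ, c5 = (q + r2) * 2 / (r2 - r1) * q := ⟨_, rfl⟩
  have hr210 : 0 < r2 - r1 := by linarith
  have hc51 : 1 ≤ c5 := by
    rw [hc5]
    have h1 : 1 ≤ (q + r2) * 2 / (r2 - r1) := by
      rw [le_div_iff₀ hr210]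
      linarith
    nlinarith
  obtain ⟨m0, hm0⟩ : ∃ m0 : ℝ, m0 = (MM ρ0).re := ⟨_, rfl⟩
  have hm00 : 0 < m0 := by
    rw [hm0]
    exact MM_re (by rw [← hβ, abs_of_pos (by linarith)]; linarith)
  have hasy := asy (κ := κ) (C := C3) (L := L) (c := c5) (δ := L * ε / 3) (m := m0) (E := 1 + C2 + 16 * C1)
    hκ hκ1 hC3 hL0 hc51 (by positivity) hm00 (by positivity)
  have hfar : ∀ᶠ K : ℕ in atTop, |ρ0.im| ≤ L * K + 2 := by
    have : Tendsto (fun K : ℕ => L * (K : ℝ) + 2) atTop atTop :=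
      tendsto_atTop_add_const_right _ _ (tendsto_natCast_atTop_atTop.const_mul_atTop hL0)
    exact this.eventually_ge_atTop _
  filter_upwards [hasy, ev1 hC3 hL0 hκ hκ1, hℓ (κ / 2) (by positivity), hfar, eventually_ge_atTop 1]
    with K hK1 hK2 hK3 hK4 hK5
  have hKr : (1 : ℝ) ≤ K := by exact_mod_cast hK5
  by_contra hcon
  push Not at hcon
  -- the nodes
  obtain ⟨T, hT⟩ : ∃ T : ℝ, T = L * K + 2 := ⟨_, rfl⟩
  rw [← hT] at hK1 hK2 hK4
  have hT2 : 2 ≤ T := by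
    rw [hT]
    have : 0 ≤ L * K := by positivity
    linarith
  obtain ⟨Z, hZ⟩ : ∃ Z : Set ℂ, Z = {z | X z = 0 ∧ d0 ≤ z.re ∧ |z.im| ≤ T} := ⟨_, rfl⟩
  have hZi : ∀ z, z ∈ Z ↔ (X z = 0 ∧ d0 ≤ z.re ∧ |z.im| ≤ T) := by
    intro z
    rw [hZ]
    exact Iff.rfl
  have hZf : Z.Finite := finite_of_dens (B := C3 * T ^ (1 - κ)) fun S hS =>
    hDens T hT2 S fun s hs => (hZi s).1 (hS s hs)
  obtain ⟨Zf, hZf'⟩ : ∃ Zf : Finset ℂ, Zf = hZf.toFinset := ⟨_, rfl⟩
  have hZfi : ∀ z, z ∈ Zf ↔ z ∈ Z := by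
    intro z
    rw [hZf']
    exact hZf.mem_toFinset
  obtain ⟨W, hW⟩ : ∃ W : Finset ℂ, W = Zf.image (fun z => cexp (L * z)) := ⟨_, rfl⟩
  obtain ⟨N, hN⟩ : ∃ N : ℕ, N = W.card := ⟨_, rfl⟩
  have hNle : (N : ℝ) ≤ C3 * T ^ (1 - κ) := by
    have h1 : N ≤ Zf.card := by rw [hN, hW]; exact Finset.card_image_le
    have h2 := hDens T hT2 Zf fun s hs => (hZi s).1 ((hZfi s).1 hs)
    exact (Nat.cast_le.2 h1).trans h2
  have hNK : (N : ℝ) ≤ (K : ℝ) ^ (1 - κ / 2) := hNle.trans hK2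
  have hNℓ : N ≤ ℓ K := by exact_mod_cast hNK.trans hK3
  have hNK' : N ≤ K := by
    have h1 : (K : ℝ) ^ (1 - κ / 2) ≤ K := by
      calc (K : ℝ) ^ (1 - κ / 2) ≤ (K : ℝ) ^ (1 : ℝ) := Real.rpow_le_rpow_of_exponent_le hKr (by linarith)
        _ = K := Real.rpow_one _
    exact_mod_cast hNK.trans h1
  have hρ0Z : ρ0 ∈ Z := (hZi _).2 ⟨h0, by rw [← hβ]; linarith, hK4⟩
  have hWmem : ∀ z ∈ Z, cexp (L * z) ∈ W := fun z hz => by
    rw [hW]
    exact Finset.mem_image_of_mem _ ((hZfi z).2 hz)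
  have hWne : W.Nonempty := ⟨_, hWmem ρ0 hρ0Z⟩
  have hWn : ∀ z : ℂ, ‖cexp (L * z)‖ = q ^ z.re := by
    intro z
    rw [Complex.norm_exp, Complex.re_ofReal_mul, Real.rpow_def_of_pos hq0, hL]
  obtain ⟨r, hrr1, hrr2, hsep⟩ := radius (W.image (fun w => ‖w‖)) hr12
  obtain ⟨η, hη⟩ : ∃ η : ℝ, η = (r2 - r1) / (2 * ((N : ℝ) + 1)) := ⟨_, rfl⟩
  have hη0 : 0 < η := by rw [hη]; positivity
  have hr1' : 1 ≤ r := by linarith
  have hr0 : 0 < r := by linarith
  have hsep' : ∀ w ∈ W, η ≤ |‖w‖ - r| := by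
    intro w hw
    refine le_trans ?_ (hsep _ (Finset.mem_image_of_mem _ hw))
    rw [hη]
    apply div_le_div_of_nonneg_left hr210.le (by positivity)
    have h1 : (W.image (fun w => ‖w‖)).card ≤ N := by rw [hN]; exact Finset.card_image_le
    have h2 : ((W.image (fun w => ‖w‖)).card : ℝ) ≤ N := by exact_mod_cast h1
    linarith
  obtain ⟨c, hc1, hc2⟩ := select hWne (R := q) hr1' hη0 hq.le (by
    intro w hw
    rw [hW] at hw
    obtain ⟨z, hz, rfl⟩ := Finset.mem_image.1 hw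
    rw [hWn]
    have hz' := (hZi z).1 ((hZfi z).1 hz)
    have h1 : z.re ≤ 1 := (le_abs_self _).trans ((hX.strip _ hz'.1).trans (by norm_num))
    calc q ^ z.re ≤ q ^ (1 : ℝ) := Real.rpow_le_rpow_of_exponent_le hq.le h1
      _ = q := Real.rpow_one q) (by
    intro w hw
    rw [hW] at hw
    obtain ⟨z, _, rfl⟩ := Finset.mem_image.1 hw
    exact Complex.exp_ne_zero _) hsep' (hN ▸ hNK')
  rw [← hN] at hc1 hc2
  obtain ⟨D, hDdef⟩ : ∃ D : ℝ, D = (q + r) / η := ⟨_, rfl⟩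
  rw [← hDdef] at hc2
  have hD0 : 0 < D := by rw [hDdef]; positivity
  obtain ⟨y, hy⟩ : ∃ y : ℕ → ℝ, y = fun k => q ^ (K + k) := ⟨_, rfl⟩
  have hy1 : ∀ k, 1 ≤ y k := fun k => by rw [hy]; exact one_le_pow₀ hq.le
  obtain ⟨Q, hQ⟩ : ∃ Q : ℝ, Q = (N : ℝ) * ((r ^ K)⁻¹ * D ^ N) * (q ^ ((K : ℝ) * d0) * q ^ N) := ⟨_, rfl⟩
  have hQ0 : 0 ≤ Q := by rw [hQ]; positivity
  have hqKd : 1 ≤ q ^ ((K : ℝ) * d0) := Real.one_le_rpow hq.le (by positivity)
  have hqN : 1 ≤ q ^ N := one_le_pow₀ hq.le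
  have hcb : ∀ k, ‖c k‖ ≤ (r ^ K)⁻¹ * D ^ N := hc2
  have hcs : ∑ k ∈ range N, ‖c k‖ ≤ N * ((r ^ K)⁻¹ * D ^ N) := by
    calc ∑ k ∈ range N, ‖c k‖ ≤ ∑ k ∈ range N, (r ^ K)⁻¹ * D ^ N := Finset.sum_le_sum fun k _ => hcb k
      _ = _ := by rw [Finset.sum_const, Finset.card_range, nsmul_eq_mul]
  have hcs2 : ∑ k ∈ range N, ‖c k‖ ≤ Q := by
    refine hcs.trans ?_
    rw [hQ]
    exact le_mul_of_one_le_right (by positivity) (one_le_mul_of_one_le_of_one_le hqKd hqN)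
  -- small powers
  have hyk : ∀ k < N, ∀ s : ℝ, 0 ≤ s → s ≤ 1 → y k ^ s ≤ q ^ ((K : ℝ) * s) * q ^ N := by
    intro k hk s hs0 hs1
    rw [hy]
    beta_reduce
    rw [← Real.rpow_natCast q (K + k), ← Real.rpow_mul hq0.le, ← Real.rpow_natCast q N, ← Real.rpow_add hq0]
    apply Real.rpow_le_rpow_of_exponent_le hq.le
    push_cast
    have h1 : (k : ℝ) ≤ N := by exact_mod_cast hk.le
    have h2 : (0 : ℝ) ≤ k := Nat.cast_nonneg k
    have h3 : (k : ℝ) * s ≤ k * 1 := mul_le_mul_of_nonneg_left hs1 h2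
    have e : ((K : ℝ) + k) * s = K * s + k * s := by ring
    linarith
  obtain ⟨h, hh'⟩ : ∃ h : ℂ → ℂ, h = hh N c y := ⟨_, rfl⟩
  have hTst : Tst h (16 * ∑ k ∈ range N, ‖c k‖ * y k ^ (3 / 4 : ℝ)) := by rw [hh']; exact hh_tst hy1
  have hf1 := hform N c y hy1
  rw [← hh'] at hf1
  -- the size of `JJ`
  have hSS : ‖∑ k ∈ range N, c k * SS a (y k)‖ ≤ Q := by
    calc _ ≤ ∑ k ∈ range N, ‖c k * SS a (y k)‖ := norm_sum_le _ _
      _ ≤ ∑ k ∈ range N, ((r ^ K)⁻¹ * D ^ N) * (q ^ ((K : ℝ) * d0) * q ^ N) := by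
          apply Finset.sum_le_sum
          intro k hk
          rw [Finset.mem_range] at hk
          rw [norm_mul]
          apply mul_le_mul (hcb k) _ (norm_nonneg _) (by positivity)
          have h1 := hcon (K + k) (by omega) (by omega)
          have h1' : ‖SS a (y k)‖ < q ^ (((K + k : ℕ) : ℝ) * d0) := by rw [hy]; exact h1
          refine h1'.le.trans ?_
          rw [← Real.rpow_natCast q N, ← Real.rpow_add hq0]
          apply Real.rpow_le_rpow_of_exponent_le hq.le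
          push_cast
          have h2 : (k : ℝ) ≤ N := by exact_mod_cast hk.le
          have h3 : (0 : ℝ) ≤ k := Nat.cast_nonneg k
          have h4 : (k : ℝ) * d0 ≤ k * 1 := mul_le_mul_of_nonneg_left hd01 h3
          have e : ((K : ℝ) + k) * d0 = K * d0 + k * d0 := by ring
          linarith
      _ = Q := by
          rw [Finset.sum_const, Finset.card_range, nsmul_eq_mul, hQ]
          ring
  have hJJ : ‖JJ X h‖ ≤ 2 * π * Q + C2 * Q := by
    have e : JJ X h = (JJ X h + 2 * π * ∑ k ∈ range N, c k * SS a (y k)) -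
        2 * π * ∑ k ∈ range N, c k * SS a (y k) := by ring
    rw [e]
    refine (norm_sub_le _ _).trans ?_
    rw [add_comm]
    apply add_le_add
    · rw [norm_mul, norm_mul, Complex.norm_real, Real.norm_eq_abs, abs_of_pos hpi]
      have h20 : ‖(2 : ℂ)‖ = 2 := by norm_num
      rw [h20]
      exact mul_le_mul_of_nonneg_left hSS (by positivity)
    · exact hf1.trans (mul_le_mul_of_nonneg_left hcs2 hC2)
  -- the values at the zeros
  have hval : ∀ z, h z = MM z * ∑ k ∈ range N, c k * (cexp (L * z)) ^ (K + k) := by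
    intro z
    rw [hh']
    unfold hh
    congr 1
    apply Finset.sum_congr rfl
    intro k _
    rw [hy]
    beta_reduce
    rw [pow_cpow hq0, hL]
  have hin : ∀ z ∈ Z, 0 ≤ (h z).re := by
    intro z hz
    rw [hval, hc1 _ (hWmem z hz)]
    have h1 : 0 < (MM z).re := MM_re (lt_of_le_of_lt (hX.strip _ ((hZi z).1 hz).1) (by norm_num))
    split_ifs
    · rw [mul_one]; exact h1.le
    · rw [mul_zero]; simp
  have hρ0 : m0 ≤ (h ρ0).re := by
    rw [hval, hc1 _ (hWmem ρ0 hρ0Z), if_pos, mul_one, hm0]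
    rw [hWn, ← hβ]
    refine lt_of_lt_of_le hrr2 ?_
    rw [hr2]
    exact Real.rpow_le_rpow_of_exponent_le hq.le (by linarith)
  have hout : ∀ z, X z = 0 → z ∉ Z → ‖h z‖ ≤ 16 * Q * Real.exp (-|z.im|) := by
    intro z hz hzZ
    have hs := hX.strip _ hz
    have hs' := abs_le.1 hs
    have h1 := hh_bd (m := N) (c := c) hy1 (z := z) (by linarith)
    rw [← hh'] at h1
    have him := abs_nonneg z.im
    rcases lt_or_ge z.re d0 with h2 | h2
    · have h3 : ∑ k ∈ range N, ‖c k‖ * y k ^ z.re ≤ Q := by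
        calc _ ≤ ∑ k ∈ range N, ((r ^ K)⁻¹ * D ^ N) * (q ^ ((K : ℝ) * d0) * q ^ N) := by
              apply Finset.sum_le_sum
              intro k hk
              rw [Finset.mem_range] at hk
              apply mul_le_mul (hcb k) _ (Real.rpow_nonneg (by linarith [hy1 k]) _) (by positivity)
              exact (Real.rpow_le_rpow_of_exponent_le (hy1 k) h2.le).trans (hyk k hk d0 hd00.le hd01)
          _ = Q := by
              rw [Finset.sum_const, Finset.card_range, nsmul_eq_mul, hQ]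
              ring
      refine h1.trans ?_
      have h4 : Real.exp (-(3 / 2 * |z.im|)) ≤ Real.exp (-|z.im|) := Real.exp_le_exp.2 (by linarith)
      have h5 : 0 ≤ ∑ k ∈ range N, ‖c k‖ * y k ^ z.re :=
        Finset.sum_nonneg fun k _ => mul_nonneg (norm_nonneg _) (Real.rpow_nonneg (by linarith [hy1 k]) _)
      exact mul_le_mul (by linarith) h4 (Real.exp_pos _).le (by positivity)
    · have h3 : T < |z.im| := by
        by_contra h
        exact hzZ ((hZi z).2 ⟨hz, h2, not_lt.1 h⟩)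
      have h4 : ∑ k ∈ range N, ‖c k‖ * y k ^ z.re ≤ Q * q ^ ((K : ℝ) * (1 / 2)) := by
        calc _ ≤ ∑ k ∈ range N, ((r ^ K)⁻¹ * D ^ N) * (q ^ ((K : ℝ) * (1 / 2)) * q ^ N) := by
              apply Finset.sum_le_sum
              intro k hk
              rw [Finset.mem_range] at hk
              apply mul_le_mul (hcb k) _ (Real.rpow_nonneg (by linarith [hy1 k]) _) (by positivity)
              exact (Real.rpow_le_rpow_of_exponent_le (hy1 k) hs'.2).trans
                (hyk k hk (1 / 2) (by norm_num) (by norm_num))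
          _ = (N : ℝ) * ((r ^ K)⁻¹ * D ^ N) * q ^ N * q ^ ((K : ℝ) * (1 / 2)) := by
              rw [Finset.sum_const, Finset.card_range, nsmul_eq_mul]
              ring
          _ ≤ Q * q ^ ((K : ℝ) * (1 / 2)) := by
              apply mul_le_mul_of_nonneg_right _ (by positivity)
              rw [hQ]
              apply mul_le_mul_of_nonneg_left _ (by positivity)
              exact le_mul_of_one_le_left (by positivity) hqKd
      have h5 : q ^ ((K : ℝ) * (1 / 2)) * Real.exp (-(3 / 2 * |z.im|)) ≤ Real.exp (-|z.im|) := by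
        rw [Real.rpow_def_of_pos hq0, ← Real.exp_add]
        apply Real.exp_le_exp.2
        rw [← hL]
        have e : L * ((K : ℝ) * (1 / 2)) = L * K / 2 := by ring
        rw [e]
        rw [hT] at h3
        linarith
      calc ‖h z‖ ≤ 16 * (∑ k ∈ range N, ‖c k‖ * y k ^ z.re) * Real.exp (-(3 / 2 * |z.im|)) := h1
        _ ≤ 16 * (Q * q ^ ((K : ℝ) * (1 / 2))) * Real.exp (-(3 / 2 * |z.im|)) :=
            mul_le_mul_of_nonneg_right (mul_le_mul_of_nonneg_left h4 (by norm_num)) (Real.exp_pos _).le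
        _ = 16 * Q * (q ^ ((K : ℝ) * (1 / 2)) * Real.exp (-(3 / 2 * |z.im|))) := by ring
        _ ≤ _ := mul_le_mul_of_nonneg_left h5 (by positivity)
  -- the real part of the sum over the zeros
  have hre : ∀ z, X z = 0 → 0 ≤ (h z).re + 16 * Q * Real.exp (-|z.im|) := by
    intro z hz
    by_cases hzZ : z ∈ Z
    · have := hin z hzZ
      positivity
    · have h1 := hout z hz hzZ
      have h2 := (abs_le.1 (Complex.abs_re_le_norm (h z))).1
      linarith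
  have hlow : ∀ᶠ n in atTop, 2 * π * (m0 - 16 * C1 * Q) ≤ (2 * π * ∑ i ∈ range (Nn n), h (ρ n i)).re := by
    filter_upwards [hρall ρ0 h0] with n hn
    obtain ⟨i0, hi0, hi0'⟩ := hn
    have e : (2 * π * ∑ i ∈ range (Nn n), h (ρ n i)).re = 2 * π * ∑ i ∈ range (Nn n), (h (ρ n i)).re := by
      rw [show (2 * π * ∑ i ∈ range (Nn n), h (ρ n i) : ℂ) = ((2 * π : ℝ) : ℂ) * ∑ i ∈ range (Nn n), h (ρ n i) by
        push_cast; rfl, Complex.re_ofReal_mul, Complex.re_sum]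
    rw [e]
    apply mul_le_mul_of_nonneg_left _ (by positivity)
    have h1 := Finset.single_le_sum (s := range (Nn n))
      (f := fun i => (h (ρ n i)).re + 16 * Q * Real.exp (-|(ρ n i).im|))
      (fun i hi => hre _ (hρ n i (Finset.mem_range.1 hi))) (Finset.mem_range.2 hi0)
    beta_reduce at h1
    rw [hi0', Finset.sum_add_distrib, ← Finset.mul_sum] at h1
    have h2 := mul_le_mul_of_nonneg_left (hρs n) (show 0 ≤ 16 * Q by positivity)
    have h3 : 0 ≤ 16 * Q * Real.exp (-|ρ0.im|) := by positivity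
    linarith
  have hJre : 2 * π * (m0 - 16 * C1 * Q) ≤ (JJ X h).re :=
    ge_of_tendsto ((Complex.continuous_re.tendsto _).comp (hlim h _ hTst)) hlow
  have hfin : m0 ≤ (1 + C2 + 16 * C1) * Q := by
    have h1 := (Complex.re_le_norm _).trans hJJ
    have h2 : C2 * Q ≤ 2 * π * (C2 * Q) := by
      have : 1 ≤ 2 * π := by linarith [Real.pi_gt_three]
      exact le_mul_of_one_le_left (by positivity) this
    have h3 : 2 * π * m0 ≤ 2 * π * ((1 + C2 + 16 * C1) * Q) := by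
      have e1 : 2 * π * (m0 - 16 * C1 * Q) = 2 * π * m0 - 2 * π * (16 * C1 * Q) := by ring
      have e2 : 2 * π * ((1 + C2 + 16 * C1) * Q) = 2 * π * Q + 2 * π * (C2 * Q) + 2 * π * (16 * C1 * Q) := by ring
      linarith
    exact le_of_mul_le_mul_left h3 (by positivity)
  have hQb : Q ≤ N * (c5 * (N + 1)) ^ N * Real.exp (-(L * ε / 3 * K)) := by
    have h1 : D * q ≤ c5 * (N + 1) := by
      rw [hDdef, hη, hc5, div_div_eq_mul_div, div_mul_eq_mul_div, div_mul_eq_mul_div, div_mul_eq_mul_div]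
      apply div_le_div_of_nonneg_right _ hr210.le
      have h2 : (q + r) ≤ q + r2 := by linarith
      calc (q + r) * (2 * ((N : ℝ) + 1)) * q ≤ (q + r2) * (2 * ((N : ℝ) + 1)) * q :=
            mul_le_mul_of_nonneg_right (mul_le_mul_of_nonneg_right h2 (by positivity)) hq0.le
        _ = _ := by ring
    have h2 : (r ^ K)⁻¹ * q ^ ((K : ℝ) * d0) ≤ Real.exp (-(L * ε / 3 * K)) := by
      have h3 : r1 ^ K ≤ r ^ K := pow_le_pow_left₀ (by linarith) hrr1.le K
      have h4 : (r1 ^ K)⁻¹ * q ^ ((K : ℝ) * d0) = Real.exp (-(L * ε / 3 * K)) := by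
        rw [hr1, ← Real.rpow_natCast, ← Real.rpow_mul hq0.le, ← Real.rpow_neg hq0.le, ← Real.rpow_add hq0,
          Real.rpow_def_of_pos hq0, ← hL, hd0]
        congr 1
        ring
      rw [← h4]
      apply mul_le_mul_of_nonneg_right _ (by positivity)
      exact inv_anti₀ (by positivity) h3
    calc Q = N * (D * q) ^ N * ((r ^ K)⁻¹ * q ^ ((K : ℝ) * d0)) := by
          rw [hQ, mul_pow]
          ring
      _ ≤ N * (c5 * (N + 1)) ^ N * Real.exp (-(L * ε / 3 * K)) := by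
          apply mul_le_mul _ h2 (by positivity) (by positivity)
          exact mul_le_mul_of_nonneg_left (pow_le_pow_left₀ (by positivity) h1 N) (Nat.cast_nonneg N)
  have h1 := hK1 N hNle
  have h2 := mul_le_mul_of_nonneg_left hQb (show 0 ≤ 1 + C2 + 16 * C1 by positivity)
  linarith

end Pool.Agent.Run7.h91.SP
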