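import Pool.Agent.Run7.h91.SP.EC2

/-!
# The sampling theorem for families of twists
-/

set_option autoImplicit false

open Complex Metric Finset Filter Topology MeasureTheory
open UpperHalfPlane hiding I
open MatrixGroups
open CongruenceSubgroup hiding Gamma
open scoped Real ComplexConjugate

namespace Pool.Agent.Run7.h91.SP

open Pool.Agent.R838.TW (PL Sy)
open Pool.Agent.W355.UN (lam2 facE)
open Pool.Agent.W169.HF (IsForm coef)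

variable {N : ℕ} [NeZero N] {f : CuspForm (Gamma0 N : Subgroup (GL (Fin 2) ℝ)) 2} {w : ℝ}
variable {ι : Type} [Fintype ι] [DecidableEq ι] [Nonempty ι] {q : ι → ℕ} [∀ i, NeZero (q i)]
  {χ : ∀ i, DirichletCharacter ℂ (q i)} {X : ℂ → ℂ} {v : ℂ} {c : ℕ → ℂ}

lemma lam2_prime {p : ℕ} : lam2 f p = coef f p * (((p : ℝ) ^ (-(1 / 2) : ℝ) : ℝ) : ℂ) := by
  unfold lam2 coef
  rfl

lemma Fam.primes (h : Fam q χ f X v c) {D : ℕ} (hD : D ≠ 0) {good : ℕ → Prop} [DecidablePred good] {α : ℕ → ℝ}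
    (hg : ∀ n, good n → n.Prime) (hg1 : ∀ p : ℕ, good p → coef f p = ((α p : ℝ) : ℂ))
    (hg1' : ∀ p : ℕ, good p → ∑ i, χ i (p : ZMod (q i)) = (Fintype.card ι : ℂ))
    (hg2 : ∀ p : ℕ, p.Prime → ¬ p ∣ D → ¬ good p → ∑ i, χ i (p : ZMod (q i)) = 0) {δ : ℝ} (hδ : 0 < δ) (hδ1 : δ ≤ 1) :
    ∃ C : ℝ, ∀ x : ℝ, 1 ≤ x → ‖SS (cf c) x - (Fintype.card ι : ℝ) * PS good α x‖ ≤ C * x ^ δ := by
  refine prime_part h.bd hD hg (κ0 := (Fintype.card ι : ℝ)) (fun p hp => ?_) (fun p hp hpD hpg => ?_) hδ hδ1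
  · have hpp := hg p hp
    have hp0 : (0 : ℝ) < p := by exact_mod_cast hpp.pos
    unfold cf
    rw [h.pr p hpp, hg1' p hp, lam2_prime, hg1 p hp, ArithmeticFunction.vonMangoldt_apply_prime hpp]
    have e1 : (((p : ℝ) ^ (-(1 / 2) : ℝ) : ℝ) : ℂ) * (((p : ℝ) ^ (-(1 / 2) : ℝ) : ℝ) : ℂ) = ((1 / (p : ℝ) : ℝ) : ℂ) := by
      rw [← Complex.ofReal_mul, ← Real.rpow_add hp0]
      norm_num [Real.rpow_neg_one]
    calc _ = ((Real.log p : ℝ) : ℂ) * ((Fintype.card ι : ℂ) * (α p : ℂ)) *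
          ((((p : ℝ) ^ (-(1 / 2) : ℝ) : ℝ) : ℂ) * (((p : ℝ) ^ (-(1 / 2) : ℝ) : ℝ) : ℂ)) := by ring
      _ = _ := by
        rw [e1]
        push_cast
        ring
  · unfold cf
    rw [h.pr p hp, hg2 p hp hpD hpg]
    ring

/-- a zero, or its reflection, on the right -/
lemma Fam.reflect (h : Fam q χ f X v c) {z : ℂ} (hz : X z = 0) : ∃ z', X z' = 0 ∧ z'.re = |z.re| := by
  rcases le_total 0 z.re with h1 | h1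
  · exact ⟨z, hz, (abs_of_nonneg h1).symm⟩
  · refine ⟨-(conj z), ?_, ?_⟩
    · rw [h.pl.sy.symm, hz, map_zero]
    · rw [Complex.neg_re, Complex.conj_re, abs_of_nonpos h1]

section
variable {X2 : ℂ → ℂ} {v2 : ℂ} {c2 : ℕ → ℂ} {D : ℕ} {good : ℕ → Prop} [DecidablePred good] {α : ℕ → ℝ} {Λ : ℂ → ℂ}
  {r : ℝ} {ℓ : ℕ → ℕ}

lemma Fam.zeros (h : Fam q χ f X v c) (hΛ : ∀ s, Λ s = 0 ↔ X (s - 1) = 0) (θ : ℝ) :
    (∀ s, Λ s = 0 → |s.re - 1| ≤ θ) ↔ ∀ z, X z = 0 → z.re ≤ θ := by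
  constructor
  · intro h1 z hz
    have h2 := h1 (z + 1) ((hΛ _).2 (by rwa [add_sub_cancel_right]))
    rw [Complex.add_re, Complex.one_re, add_sub_cancel_right] at h2
    exact (le_abs_self _).trans h2
  · intro h1 s hs
    obtain ⟨z', hz', hre⟩ := h.reflect ((hΛ s).1 hs)
    rw [Complex.sub_re, Complex.one_re] at hre
    rw [← hre]
    exact h1 z' hz'

theorem Fam.lower (hf : IsForm N f w) (h : Fam q χ f X v c) (h2 : Fam q (fun i => (χ i)⁻¹) f X2 v2 c2)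
    (hD : D ≠ 0) (hg : ∀ n, good n → n.Prime) (hg1 : ∀ p : ℕ, good p → coef f p = ((α p : ℝ) : ℂ))
    (hg1' : ∀ p : ℕ, good p → ∑ i, χ i (p : ZMod (q i)) = (Fintype.card ι : ℂ))
    (hg2 : ∀ p : ℕ, p.Prime → ¬ p ∣ D → ¬ good p → ∑ i, χ i (p : ZMod (q i)) = 0)
    (hΛ : ∀ s, Λ s = 0 ↔ X (s - 1) = 0) (hr : 1 < r) (hℓ : Win ℓ) {ρ : ℂ} (hρ : Λ ρ = 0) {ε : ℝ} (hε : 0 < ε)
    (hερ : ε < |ρ.re - 1|) :
    ∀ᶠ K : ℕ in atTop, ∃ n, K ≤ n ∧ n ≤ K + ℓ K ∧ (r ^ n : ℝ) ^ (|ρ.re - 1| - ε) ≤ |PS good α (r ^ n)| := by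
  obtain ⟨z', hz', hre⟩ := h.reflect ((hΛ ρ).1 hρ)
  rw [Complex.sub_re, Complex.one_re] at hre
  have hκ : (0 : ℝ) < Fintype.card ι := by exact_mod_cast Fintype.card_pos
  have h3 := low_P h.dat h.ser (h.dens hf h2) hκ (fun δ hδ hδ1 => h.primes hD hg hg1 hg1' hg2 hδ hδ1) hz' hr hε
    (by rw [hre]; exact hερ) hℓ
  rw [hre] at h3
  filter_upwards [h3] with K hK
  obtain ⟨n, hn1, hn2, hn3⟩ := hK
  exact ⟨n, hn1, hn2, by rwa [qn_rpow hr]⟩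

theorem Fam.equiv (hf : IsForm N f w) (h : Fam q χ f X v c) (h2 : Fam q (fun i => (χ i)⁻¹) f X2 v2 c2)
    (hD : D ≠ 0) (hg : ∀ n, good n → n.Prime) (hg1 : ∀ p : ℕ, good p → coef f p = ((α p : ℝ) : ℂ))
    (hg1' : ∀ p : ℕ, good p → ∑ i, χ i (p : ZMod (q i)) = (Fintype.card ι : ℂ))
    (hg2 : ∀ p : ℕ, p.Prime → ¬ p ∣ D → ¬ good p → ∑ i, χ i (p : ZMod (q i)) = 0)
    (hΛ : ∀ s, Λ s = 0 ↔ X (s - 1) = 0) (hr : 1 < r) (hℓ : Win ℓ) {θ : ℝ} (hθ : 0 ≤ θ) :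
    (∀ s, Λ s = 0 → |s.re - 1| ≤ θ) ↔ ∀ ε : ℝ, 0 < ε → ∃ᶠ K : ℕ in atTop, ∀ n, K ≤ n → n ≤ K + ℓ K →
      |PS good α (r ^ n)| ≤ (r ^ n : ℝ) ^ (θ + ε) := by
  have hκ : (0 : ℝ) < Fintype.card ι := by exact_mod_cast Fintype.card_pos
  rw [h.zeros hΛ, iff_P h.dat h.ser (h.dens hf h2) hκ (fun δ hδ hδ1 => h.primes hD hg hg1 hg1' hg2 hδ hδ1) hθ hr hℓ]
  simp only [qn_rpow hr]

theorem Fam.upper (h : Fam q χ f X v c)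
    (hD : D ≠ 0) (hg : ∀ n, good n → n.Prime) (hg1 : ∀ p : ℕ, good p → coef f p = ((α p : ℝ) : ℂ))
    (hg1' : ∀ p : ℕ, good p → ∑ i, χ i (p : ZMod (q i)) = (Fintype.card ι : ℂ))
    (hg2 : ∀ p : ℕ, p.Prime → ¬ p ∣ D → ¬ good p → ∑ i, χ i (p : ZMod (q i)) = 0)
    (hΛ : ∀ s, Λ s = 0 ↔ X (s - 1) = 0) {θ : ℝ} (hθ : 0 ≤ θ) (hz : ∀ s, Λ s = 0 → |s.re - 1| ≤ θ) {ε : ℝ} (hε : 0 < ε) :
    ∃ C : ℝ, 0 < C ∧ ∀ x : ℝ, 1 ≤ x → |PS good α x| ≤ C * x ^ (θ + ε) := by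
  have hκ : (0 : ℝ) < Fintype.card ι := by exact_mod_cast Fintype.card_pos
  exact up_P h.dat h.ser hκ (fun δ hδ hδ1 => h.primes hD hg hg1 hg1' hg2 hδ hδ1) hθ hε ((h.zeros hΛ θ).1 hz)

end

end Pool.Agent.Run7.h91.SP
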