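import Mathlib

/-!
# The prime powers with exponent at least two contribute little
-/

set_option autoImplicit false

open Finset Filter Topology

namespace Pool.Agent.Run7.h91.SP

lemma vm_sum' {σ : ℝ} (hσ : 1 < σ) : Summable fun n : ℕ => ArithmeticFunction.vonMangoldt n * (n : ℝ) ^ (-σ) := by
  have h1 := ArithmeticFunction.LSeriesSummable_vonMangoldt (s := (σ : ℂ)) (by simpa using hσ)
  refine (h1.norm).congr fun n => ?_
  rcases eq_or_ne n 0 with rfl | hn
  · simp
  · rw [LSeries.norm_term_eq, if_neg hn, Complex.ofReal_re, Complex.norm_real, Real.norm_eq_abs,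
      abs_of_nonneg ArithmeticFunction.vonMangoldt_nonneg, Real.rpow_neg (Nat.cast_nonneg n), div_eq_mul_inv]

/-- the set of proper prime powers -/
def PP : Set ℕ := {n | IsPrimePow n ∧ ¬ n.Prime}

lemma PP_spec {n : ℕ} (hn : n ∈ PP) : ∃ p k : ℕ, p.Prime ∧ 2 ≤ k ∧ n = p ^ k := by
  obtain ⟨h1, h2⟩ := hn
  rw [isPrimePow_nat_iff] at h1
  obtain ⟨p, k, hp, hk, rfl⟩ := h1
  refine ⟨p, k, hp, ?_, rfl⟩
  by_contra h
  have : k = 1 := by omega
  rw [this, pow_one] at h2
  exact h2 hp

theorem npp_sum {σ : ℝ} (hσ : 1 / 2 < σ) :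
    Summable fun n : ℕ => (if n.Prime then 0 else ArithmeticFunction.vonMangoldt n * (n : ℝ) ^ (-σ)) := by
  classical
  have h1 : (fun n : ℕ => (if n.Prime then 0 else ArithmeticFunction.vonMangoldt n * (n : ℝ) ^ (-σ))) =
      PP.indicator fun n : ℕ => ArithmeticFunction.vonMangoldt n * (n : ℝ) ^ (-σ) := by
    funext n
    by_cases hp : n.Prime
    · rw [if_pos hp, Set.indicator_of_notMem]
      exact fun h => h.2 hp
    · rw [if_neg hp]
      by_cases hpp : IsPrimePow n
      · rw [Set.indicator_of_mem]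
        exact ⟨hpp, hp⟩
      · rw [Set.indicator_of_notMem (fun h => hpp h.1), ArithmeticFunction.vonMangoldt_eq_zero_iff.2 hpp, zero_mul]
  rw [h1, ← summable_subtype_iff_indicator]
  choose! p k hp hk hn using fun n : ℕ => @PP_spec n
  have hg : Summable fun x : ℕ × Bool => (ArithmeticFunction.vonMangoldt x.1 * (x.1 : ℝ) ^ (-(2 * σ))) * 1 := by
    apply Summable.mul_of_nonneg (vm_sum' (by linarith)) (g := fun _ : Bool => (1 : ℝ))
      (Summable.of_finite) ?_ ?_
    · intro n
      exact mul_nonneg ArithmeticFunction.vonMangoldt_nonneg (Real.rpow_nonneg (Nat.cast_nonneg _) _)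
    · intro _
      exact zero_le_one
  set i : PP → ℕ × Bool := fun n => (p n ^ (k n / 2), decide (k n % 2 = 1)) with hi
  have hinj : Function.Injective i := by
    intro a b hab
    have hpa := hp a a.2
    have hpb := hp b b.2
    have hka := hk a a.2
    have hkb := hk b b.2
    rw [hi] at hab
    simp only [Prod.mk.injEq] at hab
    obtain ⟨e1, e2⟩ := hab
    have e3 : p a = p b := by
      have h2 := congrArg Nat.minFac e1
      rwa [hpa.pow_minFac (by omega), hpb.pow_minFac (by omega)] at h2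
    rw [e3] at e1
    have e4 : k a / 2 = k b / 2 := Nat.pow_right_injective hpb.two_le e1
    have e5 : (k a % 2 = 1) ↔ (k b % 2 = 1) := decide_eq_decide.1 e2
    have e6 : k a = k b := by omega
    apply Subtype.ext
    rw [hn a a.2, hn b b.2, e3, e6]
  have hc := hg.comp_injective hinj
  refine hc.of_nonneg_of_le (fun n => ?_) fun n => ?_
  · exact mul_nonneg ArithmeticFunction.vonMangoldt_nonneg (Real.rpow_nonneg (Nat.cast_nonneg _) _)
  · have hpn := hp n n.2
    have hkn := hk n n.2
    have hnn := hn n n.2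
    simp only [Function.comp_apply, hi, mul_one]
    have e1 : ArithmeticFunction.vonMangoldt (n : ℕ) = ArithmeticFunction.vonMangoldt (p n ^ (k n / 2)) := by
      conv_lhs => rw [hnn]
      rw [ArithmeticFunction.vonMangoldt_apply_pow (by omega), ArithmeticFunction.vonMangoldt_apply_pow (by omega)]
    rw [e1]
    apply mul_le_mul_of_nonneg_left _ ArithmeticFunction.vonMangoldt_nonneg
    have hp0 : (0 : ℝ) < p n := by exact_mod_cast hpn.pos
    have h2 : ((p n ^ (k n / 2) : ℕ) : ℝ) ^ 2 ≤ ((n : ℕ) : ℝ) := by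
      have h3 : (p n ^ (k n / 2)) ^ 2 ≤ (n : ℕ) := by
        conv_rhs => rw [hnn]
        rw [← pow_mul]
        exact Nat.pow_le_pow_right hpn.pos (by omega)
      exact_mod_cast h3
    have h4 : (0 : ℝ) < ((p n ^ (k n / 2) : ℕ) : ℝ) := by
      have := pow_pos hpn.pos (k n / 2)
      exact_mod_cast this
    have h5 : ((p n ^ (k n / 2) : ℕ) : ℝ) ^ (-(2 * σ)) = (((p n ^ (k n / 2) : ℕ) : ℝ) ^ 2) ^ (-σ) := by
      rw [← Real.rpow_natCast, ← Real.rpow_mul h4.le]
      congr 1
      push_cast
      ring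
    rw [h5]
    exact Real.rpow_le_rpow_of_nonpos (by positivity) h2 (by linarith)

end Pool.Agent.Run7.h91.SP
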