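import Mathlib

/-!
# Partial fractions of entire functions of order at most `3/2`
-/

set_option autoImplicit false

open Complex Metric Finset Filter Topology
open scoped Real

namespace Pool.Agent.Run7.h91.SP

/-- division by a zero -/
lemma div_zero' {G : ℂ → ℂ} (hG : Differentiable ℂ G) {v : ℂ} (hv : G v = 0) (hv0 : v ≠ 0) :
    ∃ G1 : ℂ → ℂ, Differentiable ℂ G1 ∧ ∀ w, G w = (1 - w / v) * G1 w := by
  have hds : Differentiable ℂ (dslope G v) := by
    have := (Complex.differentiableOn_dslope (s := Set.univ) (c := v) (f := G) Filter.univ_mem).2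
      hG.differentiableOn
    exact differentiableOn_univ.1 this
  refine ⟨fun w => -v * dslope G v w, by fun_prop, fun w => ?_⟩
  have h1 := sub_smul_dslope G v w
  rw [smul_eq_mul, hv, sub_zero] at h1
  rw [← h1]
  field_simp
  ring

/-- the number of zeros -/
lemma jen {F G : ℂ → ℂ} (hG : Differentiable ℂ G) {S : Finset ℕ} {u : ℕ → ℂ} {r M : ℝ} (hr : 0 < r)
    (hF : ∀ w, F w = (∏ i ∈ S, (1 - w / u i)) * G w) (hu : ∀ i ∈ S, ‖u i‖ ≤ r) (hu0 : ∀ i ∈ S, u i ≠ 0)
    (hM : ∀ w, ‖w‖ = 3 * r → ‖F w‖ ≤ Real.exp M) : ‖F 0‖ * 2 ^ S.card ≤ Real.exp M := by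
  have h3 : (3 * r) ≠ 0 := by positivity
  have hfr : ∀ w ∈ frontier (ball (0 : ℂ) (3 * r)), ‖G w‖ ≤ Real.exp M / 2 ^ S.card := by
    intro w hw
    rw [frontier_ball _ h3] at hw
    have hw' : ‖w‖ = 3 * r := by simpa using hw
    have h1 := hM w hw'
    rw [hF, norm_mul, norm_prod] at h1
    have h2 : (2 : ℝ) ^ S.card ≤ ∏ i ∈ S, ‖1 - w / u i‖ := by
      calc (2 : ℝ) ^ S.card = ∏ i ∈ S, (2 : ℝ) := by simp
        _ ≤ _ := by
          apply Finset.prod_le_prod (fun _ _ => by norm_num)
          intro i hi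
          have h4 := hu i hi
          have h5 : 0 < ‖u i‖ := norm_pos_iff.2 (hu0 i hi)
          have h6 : 3 ≤ ‖w / u i‖ := by
            rw [norm_div, hw', le_div_iff₀ h5]
            linarith
          have h7 : ‖w / u i‖ ≤ ‖1 - w / u i‖ + 1 := by
            have := norm_sub_le (1 : ℂ) (1 - w / u i)
            rw [sub_sub_cancel, norm_one] at this
            linarith
          linarith
    rw [le_div_iff₀ (by positivity)]
    calc ‖G w‖ * 2 ^ S.card ≤ ‖G w‖ * ∏ i ∈ S, ‖1 - w / u i‖ :=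
          mul_le_mul_of_nonneg_left h2 (norm_nonneg _)
      _ ≤ Real.exp M := by rw [mul_comm]; exact h1
  have h0 := Complex.norm_le_of_forall_mem_frontier_norm_le isBounded_ball
    (hG.diffContOnCl (s := ball (0 : ℂ) (3 * r))) hfr (z := 0)
    (subset_closure (mem_ball_self (by positivity)))
  have hF0 : F 0 = G 0 := by rw [hF]; simp
  rw [hF0]
  rwa [le_div_iff₀ (by positivity)] at h0

/-- splitting off the zeros in a disc -/
theorem split {F : ℂ → ℂ} (hF : Differentiable ℂ F) (h0 : F 0 ≠ 0) {R : ℝ} (hR : 0 < R) :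
    ∃ (n : ℕ) (u : ℕ → ℂ) (G : ℂ → ℂ), Differentiable ℂ G ∧
      (∀ w, F w = (∏ i ∈ range n, (1 - w / u i)) * G w) ∧ (∀ i < n, ‖u i‖ ≤ R ∧ u i ≠ 0) ∧
      ∀ w, ‖w‖ ≤ R → G w ≠ 0 := by
  by_contra hcon
  push Not at hcon
  have hstep : ∀ n : ℕ, ∃ (u : ℕ → ℂ) (G : ℂ → ℂ), Differentiable ℂ G ∧
      (∀ w, F w = (∏ i ∈ range n, (1 - w / u i)) * G w) ∧ (∀ i < n, ‖u i‖ ≤ R ∧ u i ≠ 0) := by
    intro n
    induction n with
    | zero => exact ⟨fun _ => 0, F, hF, fun w => by simp, fun i hi => absurd hi (Nat.not_lt_zero i)⟩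
    | succ n ih =>
      obtain ⟨u, G, hG, hFG, hu⟩ := ih
      obtain ⟨v, hv, hGv⟩ := hcon n u G hG hFG hu
      have hG0 : G 0 ≠ 0 := by
        intro h
        apply h0
        rw [hFG, h, mul_zero]
      have hv0 : v ≠ 0 := by
        rintro rfl
        exact hG0 hGv
      obtain ⟨G1, hG1, hGG⟩ := div_zero' hG hGv hv0
      refine ⟨fun i => if i = n then v else u i, G1, hG1, fun w => ?_, fun i hi => ?_⟩
      · rw [Finset.prod_range_succ, hFG, hGG]
        beta_reduce
        rw [if_pos rfl]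
        have : ∏ i ∈ range n, (1 - w / (if i = n then v else u i)) = ∏ i ∈ range n, (1 - w / u i) := by
          apply Finset.prod_congr rfl
          intro i hi
          rw [Finset.mem_range] at hi
          rw [if_neg (by omega)]
        rw [this]
        ring
      · beta_reduce
        rcases eq_or_ne i n with rfl | hin
        · rw [if_pos rfl]
          exact ⟨hv, hv0⟩
        · rw [if_neg hin]
          exact hu i (by omega)
  -- a bound on a circle
  obtain ⟨B, hB⟩ : ∃ B : ℝ, ∀ w, ‖w‖ = 3 * R → ‖F w‖ ≤ B := by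
    obtain ⟨B, hB⟩ := (isCompact_sphere (0 : ℂ) (3 * R)).exists_bound_of_continuousOn
      hF.continuous.continuousOn
    exact ⟨B, fun w hw => hB w (by simpa using hw)⟩
  have hF0 : 0 < ‖F 0‖ := norm_pos_iff.2 h0
  obtain ⟨n, hn⟩ := pow_unbounded_of_one_lt (Real.exp (Real.log (max B 1)) / ‖F 0‖) (one_lt_two (α := ℝ))
  obtain ⟨u, G, hG, hFG, hu⟩ := hstep n
  have h1 := jen hG hR hFG (fun i hi => (hu i (Finset.mem_range.1 hi)).1)
    (fun i hi => (hu i (Finset.mem_range.1 hi)).2) (M := Real.log (max B 1))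
    (fun w hw => by
      rw [Real.exp_log (lt_max_of_lt_right one_pos)]
      exact (hB w hw).trans (le_max_left _ _))
  rw [Finset.card_range] at h1
  rw [div_lt_iff₀ hF0] at hn
  linarith

/-- the zero-free factor -/
theorem log_free {G : ℂ → ℂ} (hG : Differentiable ℂ G) {R A : ℝ} (hR : 0 < R)
    (hnz : ∀ w, ‖w‖ ≤ R → G w ≠ 0) (hA : ∀ w, ‖w‖ < R → ‖G w‖ ≤ ‖G 0‖ * Real.exp A) {w : ℂ}
    (hw : ‖w‖ ≤ R / 8) :
    ‖logDeriv G w - logDeriv G 0‖ ≤ 128 * A * ‖w‖ / R ^ 2 := by
  have h0 : G 0 ≠ 0 := hnz 0 (by simpa using hR.le)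
  have h0n : 0 < ‖G 0‖ := norm_pos_iff.2 h0
  have hnz' : ∀ z ∈ ball (0 : ℂ) R, G z ≠ 0 := fun z hz => hnz z (by simpa using (mem_ball.1 hz).le)
  have hg : DifferentiableOn ℂ (fun z => deriv G z / G z) (ball 0 R) := by
    refine DifferentiableOn.div ?_ hG.differentiableOn hnz'
    exact (hG.contDiff (n := 2)).differentiable_deriv_two.differentiableOn
  obtain ⟨L0, hL0⟩ := hg.isExactOn_ball
  set L : ℂ → ℂ := fun z => L0 z - L0 0 with hLdef
  have hL : ∀ z ∈ ball (0 : ℂ) R, HasDerivAt L (deriv G z / G z) z := fun z hz =>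
    (hL0 z hz).sub_const _
  have hLz : L 0 = 0 := by simp [hLdef]
  have hconst : ∀ z ∈ ball (0 : ℂ) R, G z * cexp (-L z) = G 0 := by
    intro z hz
    have hd : ∀ x ∈ ball (0 : ℂ) R, HasDerivAt (fun y => G y * cexp (-L y)) 0 x := by
      intro x hx
      have h1 := (hG x).hasDerivAt.mul ((hL x hx).neg.cexp)
      have e : deriv G x * cexp (-L x) + G x * (cexp (-L x) * -(deriv G x / G x)) = 0 := by
        have hx' := hnz' x hx
        field_simp
        ring
      have h1' : HasDerivAt (fun y => G y * cexp (-L y))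
        (deriv G x * cexp (-L x) + G x * (cexp (-L x) * -(deriv G x / G x))) x := h1
      rwa [e] at h1'
    have h2 := (convex_ball (0 : ℂ) R).is_const_of_fderivWithin_eq_zero (𝕜 := ℂ)
      (f := fun y => G y * cexp (-L y))
      (fun x hx => (hd x hx).differentiableAt.differentiableWithinAt) (by
        intro x hx
        rw [((hd x hx).hasFDerivAt.hasFDerivWithinAt (s := ball (0 : ℂ) R)).fderivWithin
          (isOpen_ball.uniqueDiffWithinAt hx)]
        ext
        simp) hz (mem_ball_self hR)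
    simpa [hLz] using h2
  have hre : ∀ z ∈ ball (0 : ℂ) R, (L z).re ≤ A := by
    intro z hz
    have e1 : G z = G 0 * cexp (L z) := by
      rw [← hconst z hz, mul_assoc, ← Complex.exp_add]
      simp
    have h1 := hA z (by simpa using hz)
    rw [e1, norm_mul, Complex.norm_exp] at h1
    exact Real.exp_le_exp.1 (le_of_mul_le_mul_left h1 h0n)
  have hA0 : 0 ≤ A := by
    have := hre 0 (mem_ball_self hR)
    rwa [hLz] at this
  have hLb : ∀ z : ℂ, ‖z‖ < R / 2 → ‖L z‖ ≤ 2 * A := by
    intro z hz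
    have hzR : ‖z‖ < R := by linarith
    have hzb : z ∈ ball (0 : ℂ) R := by simpa using hzR
    have hden : 0 < R - ‖z‖ := by linarith
    refine le_of_forall_pos_le_add (fun δ hδ => ?_)
    have h1 := Complex.borelCaratheodory_zero (f := L) (R := R) (z := z)
      (M := A + δ / 2) (by linarith)
      (fun z hz => (hL z hz).differentiableAt.differentiableWithinAt)
      (fun z hz => by
        show (L z).re ≤ _
        linarith [hre z hz]) hR hzb hLz
    refine h1.trans ?_
    rw [div_le_iff₀ hden]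
    have h2 : 2 * (A + δ / 2) * ‖z‖ ≤ 2 * (A + δ / 2) * (R - ‖z‖) :=
      mul_le_mul_of_nonneg_left (by linarith) (by linarith)
    linarith
  have hLdo : DifferentiableOn ℂ L (ball 0 R) := fun z hz =>
    (hL z hz).differentiableAt.differentiableWithinAt
  -- first Cauchy estimate
  have hD1 : ∀ z : ℂ, ‖z‖ < R / 4 → ‖deriv L z‖ ≤ 2 * A / (R / 4) := by
    intro z hz
    have hsub : closedBall z (R / 4) ⊆ ball (0 : ℂ) (R / 2) := by
      intro y hy
      rw [mem_closedBall, dist_eq_norm] at hy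
      rw [mem_ball_zero_iff]
      calc ‖y‖ ≤ ‖y - z‖ + ‖z‖ := by simpa using norm_add_le (y - z) z
        _ < R / 2 := by linarith
    apply Complex.norm_deriv_le_of_forall_mem_sphere_norm_le (by positivity)
    · have h1 : DifferentiableOn ℂ L (closedBall z (R / 4)) := hLdo.mono
        (hsub.trans (ball_subset_ball (by linarith)))
      refine ⟨h1.mono ball_subset_closedBall, ?_⟩
      exact (h1.continuousOn).mono closure_ball_subset_closedBall
    · intro y hy
      exact hLb y (by simpa using hsub (sphere_subset_closedBall hy))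
  have hdd : DifferentiableOn ℂ (deriv L) (ball 0 R) := hLdo.deriv isOpen_ball
  have hD2 : ∀ z : ℂ, ‖z‖ ≤ R / 8 → ‖deriv (deriv L) z‖ ≤ 2 * A / (R / 4) / (R / 16) := by
    intro z hz
    have hsub : closedBall z (R / 16) ⊆ ball (0 : ℂ) (R / 4) := by
      intro y hy
      rw [mem_closedBall, dist_eq_norm] at hy
      rw [mem_ball_zero_iff]
      calc ‖y‖ ≤ ‖y - z‖ + ‖z‖ := by simpa using norm_add_le (y - z) z
        _ < R / 4 := by linarith
    apply Complex.norm_deriv_le_of_forall_mem_sphere_norm_le (by positivity)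
    · have h1 : DifferentiableOn ℂ (deriv L) (closedBall z (R / 16)) := hdd.mono
        (hsub.trans (ball_subset_ball (by linarith)))
      refine ⟨h1.mono ball_subset_closedBall, ?_⟩
      exact (h1.continuousOn).mono closure_ball_subset_closedBall
    · intro y hy
      exact hD1 y (by simpa using hsub (sphere_subset_closedBall hy))
  have hLG : ∀ z ∈ ball (0 : ℂ) R, deriv L z = logDeriv G z := fun z hz => by
    rw [(hL z hz).deriv, logDeriv_apply]
  have hwb : w ∈ closedBall (0 : ℂ) (R / 8) := by simpa using hw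
  have hball : ∀ z ∈ closedBall (0 : ℂ) (R / 8), z ∈ ball (0 : ℂ) R := by
    intro z hz
    rw [mem_closedBall_zero_iff] at hz
    rw [mem_ball_zero_iff]
    linarith
  have h3 := (convex_closedBall (0 : ℂ) (R / 8)).norm_image_sub_le_of_norm_deriv_le (f := deriv L)
    (C := 2 * A / (R / 4) / (R / 16)) (x := 0) (y := w)
    (fun z hz => (hdd z (hball z hz)).differentiableAt (isOpen_ball.mem_nhds (hball z hz)))
    (fun z hz => hD2 z (by simpa using hz)) (mem_closedBall_self (by positivity)) hwb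
  rw [hLG w (hball w hwb), hLG 0 (mem_ball_self hR), sub_zero] at h3
  refine h3.trans ?_
  apply le_of_eq
  field_simp
  ring

lemma r32 {x : ℝ} (hx : 0 ≤ x) : x ^ (3 / 2 : ℝ) = x * Real.sqrt x := by
  rcases hx.eq_or_lt with rfl | hx
  · rw [Real.zero_rpow (by norm_num), zero_mul]
  · rw [show (3 / 2 : ℝ) = 1 + 1 / 2 by norm_num, Real.rpow_add hx, Real.rpow_one, Real.sqrt_eq_rpow]

lemma r32_le {x y : ℝ} (hx : 0 ≤ x) {c d : ℝ} (hc : 0 ≤ c) (hy : 0 ≤ y) (hxy : x ≤ c * y)
    (hcd : c * c * c ≤ d * d) (hd : 0 ≤ d) : x ^ (3 / 2 : ℝ) ≤ d * (y * Real.sqrt y) := by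
  have h1 : x ^ (3 / 2 : ℝ) ≤ (c * y) ^ (3 / 2 : ℝ) := Real.rpow_le_rpow hx hxy (by norm_num)
  refine h1.trans ?_
  rw [r32 (by positivity), Real.sqrt_mul hc]
  have h2 : c * Real.sqrt c ≤ d := by
    apply le_of_sq_le_sq _ hd
    calc (c * Real.sqrt c) ^ 2 = c * c * (Real.sqrt c * Real.sqrt c) := by ring
      _ = c * c * c := by rw [Real.mul_self_sqrt hc]
      _ ≤ d ^ 2 := by rw [sq]; exact hcd
  calc c * y * (Real.sqrt c * Real.sqrt y) = c * Real.sqrt c * (y * Real.sqrt y) := by ring
    _ ≤ d * (y * Real.sqrt y) := mul_le_mul_of_nonneg_right h2 (by positivity)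

/-- **Partial fractions.** -/
theorem pfrac {F : ℂ → ℂ} (hF : Differentiable ℂ F) (h0 : F 0 ≠ 0) {K : ℝ} (hK : 0 ≤ K)
    (hb : ∀ w, ‖F w‖ ≤ Real.exp (K * (1 + ‖w‖) ^ (3 / 2 : ℝ))) (hfar : ∀ w, F w = 0 → 1 / 4 ≤ ‖w‖) :
    ∃ C : ℝ, 0 < C ∧ ∀ R : ℝ, 1 ≤ R → ∃ (n : ℕ) (u : ℕ → ℂ), (∀ i < n, F (u i) = 0) ∧
      (∀ w, ‖w‖ ≤ R → F w = 0 → ∃ i < n, u i = w) ∧ (∑ i ∈ range n, 1 / ‖u i‖ ^ 2 ≤ C) ∧
      ∀ w, F w ≠ 0 → ‖w‖ ≤ R / 8 →
        ‖logDeriv F w - logDeriv F 0 - ∑ i ∈ range n, (1 / (w - u i) + 1 / u i)‖ ≤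
          C * ‖w‖ / Real.sqrt R := by
  have hF0 : 0 < ‖F 0‖ := norm_pos_iff.2 h0
  set l := |Real.log ‖F 0‖| with hl
  have hl0 : 0 ≤ l := abs_nonneg _
  set D := 2 * (8 * K + l) with hD
  have hD0 : 0 ≤ D := by positivity
  refine ⟨64 * D + 128 * (6 * K + l) + 1, by positivity, fun R hR => ?_⟩
  have hR0 : 0 < R := by linarith
  have hsR : 0 < Real.sqrt R := Real.sqrt_pos.2 hR0
  obtain ⟨n, u, G, hG, hFG, hu, hGnz⟩ := split hF h0 hR0
  have hz : ∀ i < n, F (u i) = 0 := by
    intro i hi
    rw [hFG, Finset.prod_eq_zero (Finset.mem_range.2 hi) (by rw [div_self (hu i hi).2, sub_self]), zero_mul]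
  refine ⟨n, u, hz, fun w hw hFw => ?_, ?_, ?_⟩
  · rw [hFG, mul_eq_zero] at hFw
    rcases hFw with h1 | h1
    · rw [Finset.prod_eq_zero_iff] at h1
      obtain ⟨i, hi, h2⟩ := h1
      rw [Finset.mem_range] at hi
      refine ⟨i, hi, ?_⟩
      have h3 := (hu i hi).2
      rw [sub_eq_zero, eq_div_iff h3, one_mul] at h2
      exact h2
    · exact absurd h1 (hGnz w hw)
  · -- the sum of squares
    have hcount : ∀ r : ℝ, 1 ≤ r → (((range n).filter (fun i => ‖u i‖ ≤ r)).card : ℝ) ≤ D * (r * Real.sqrt r) := by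
      intro r hr
      have hr0 : 0 < r := by linarith
      set S := (range n).filter (fun i => ‖u i‖ ≤ r) with hS
      have h1 := jen (S := S) (u := u) (F := F)
        (G := fun w => (∏ i ∈ (range n).filter (fun i => ¬ ‖u i‖ ≤ r), (1 - w / u i)) * G w)
        (by
          apply Differentiable.mul _ hG
          apply Differentiable.fun_finsetProd
          intro i _
          fun_prop) hr0 (fun w => by
            rw [hFG, ← mul_assoc, Finset.prod_filter_mul_prod_filter_not])
        (fun i hi => (Finset.mem_filter.1 hi).2)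
        (fun i hi => (hu i (Finset.mem_range.1 (Finset.mem_filter.1 hi).1)).2)
        (M := K * (8 * (r * Real.sqrt r))) (fun w hw => by
          refine (hb w).trans (Real.exp_le_exp.2 (mul_le_mul_of_nonneg_left ?_ hK))
          rw [hw]
          exact r32_le (c := 4) (by positivity) (by norm_num) hr0.le (by linarith) (by norm_num) (by norm_num))
      have h2 := Real.log_le_log (by positivity) h1
      rw [Real.log_exp, Real.log_mul hF0.ne' (by positivity), Real.log_pow] at h2
      have h3 : -l ≤ Real.log ‖F 0‖ := neg_abs_le _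
      have h4 : (1 : ℝ) / 2 < Real.log 2 := by linarith [Real.log_two_gt_d9]
      have h5 : 1 ≤ r * Real.sqrt r := by
        have : 1 ≤ Real.sqrt r := by rw [Real.one_le_sqrt]; exact hr
        nlinarith
      have h6 : (S.card : ℝ) * (1 / 2) ≤ S.card * Real.log 2 :=
        mul_le_mul_of_nonneg_left h4.le (Nat.cast_nonneg _)
      rw [hD]
      nlinarith
    obtain ⟨J, hJ⟩ : ∃ J : ℕ, R ≤ 2 ^ J := by
      obtain ⟨J, hJ⟩ := pow_unbounded_of_one_lt R (one_lt_two (α := ℝ))
      exact ⟨J, hJ.le⟩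
    have hone : ∀ i ∈ range n, 1 / ‖u i‖ ^ 2 ≤
        ∑ j ∈ range (J + 1), if ‖u i‖ ≤ 2 ^ j then 16 * (1 / 4 : ℝ) ^ j else 0 := by
      intro i hi
      rw [Finset.mem_range] at hi
      have h1 := hfar _ (hz i hi)
      have h2 : 0 < ‖u i‖ := by linarith
      have hex : ∃ j : ℕ, ‖u i‖ ≤ 2 ^ j := ⟨J, (hu i hi).1.trans hJ⟩
      classical
      set j := Nat.find hex with hj
      have hj1 : ‖u i‖ ≤ 2 ^ j := Nat.find_spec hex
      have hjJ : j ≤ J := Nat.find_min' hex ((hu i hi).1.trans hJ)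
      have h3 : 1 / ‖u i‖ ^ 2 ≤ 16 * (1 / 4 : ℝ) ^ j := by
        rw [div_le_iff₀ (by positivity)]
        rcases Nat.eq_zero_or_pos j with h4 | h4
        · rw [h4, pow_zero, mul_one]
          nlinarith
        · have h5 : 2 ^ (j - 1) < ‖u i‖ := by
            have := Nat.find_min hex (show j - 1 < j by omega)
            exact not_le.1 this
          have h6 : (2 : ℝ) ^ j = 2 * 2 ^ (j - 1) := by
            rw [← pow_succ']
            congr 1
            omega
          have h7 : (2 : ℝ) ^ j ≤ 2 * ‖u i‖ := by rw [h6]; linarith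
          have h8 : ((2 : ℝ) ^ j) ^ 2 ≤ (2 * ‖u i‖) ^ 2 := pow_le_pow_left₀ (by positivity) h7 2
          have h9 : ((2 : ℝ) ^ j) ^ 2 * (1 / 4) ^ j = 1 := by
            rw [← pow_mul, mul_comm j 2, pow_mul, ← mul_pow]
            norm_num
          have h10 : (0 : ℝ) < (1 / 4) ^ j := by positivity
          nlinarith
      refine h3.trans ?_
      have h4 := Finset.single_le_sum (f := fun j : ℕ => if ‖u i‖ ≤ 2 ^ j then 16 * (1 / 4 : ℝ) ^ j else 0)
        (s := range (J + 1)) (fun j _ => by positivity) (Finset.mem_range.2 (show j < J + 1 by omega))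
      refine le_trans (le_of_eq ?_) h4
      beta_reduce
      rw [if_pos hj1]
    have hsum : ∑ i ∈ range n, 1 / ‖u i‖ ^ 2 ≤ ∑ j ∈ range (J + 1), 16 * D * (3 / 4 : ℝ) ^ j := by
      refine (Finset.sum_le_sum hone).trans ?_
      rw [Finset.sum_comm]
      apply Finset.sum_le_sum
      intro j _
      rw [← Finset.sum_filter, Finset.sum_const, nsmul_eq_mul]
      have h1 := hcount (2 ^ j) (one_le_pow₀ (by norm_num))
      have h2 : (2 : ℝ) ^ j * Real.sqrt (2 ^ j) ≤ 3 ^ j := by
        apply le_of_sq_le_sq _ (by positivity)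
        calc ((2 : ℝ) ^ j * Real.sqrt (2 ^ j)) ^ 2 = 2 ^ j * 2 ^ j * (Real.sqrt (2 ^ j) * Real.sqrt (2 ^ j)) := by ring
          _ = 2 ^ j * 2 ^ j * 2 ^ j := by rw [Real.mul_self_sqrt (by positivity)]
          _ = 8 ^ j := by rw [← mul_pow, ← mul_pow]; norm_num
          _ ≤ 9 ^ j := by gcongr; norm_num
          _ = (3 ^ j) ^ 2 := by rw [← pow_mul, mul_comm j 2, pow_mul]; norm_num
      calc (((range n).filter (fun i => ‖u i‖ ≤ 2 ^ j)).card : ℝ) * (16 * (1 / 4) ^ j)
          ≤ (D * 3 ^ j) * (16 * (1 / 4) ^ j) := by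
            apply mul_le_mul_of_nonneg_right _ (by positivity)
            exact h1.trans (mul_le_mul_of_nonneg_left h2 hD0)
        _ = 16 * D * (3 / 4) ^ j := by
            rw [show (3 / 4 : ℝ) = 3 * (1 / 4) by norm_num, mul_pow]
            ring
    refine hsum.trans ?_
    rw [← Finset.mul_sum]
    have h1 : ∑ j ∈ range (J + 1), (3 / 4 : ℝ) ^ j ≤ 4 := by
      rw [geom_sum_eq (by norm_num)]
      have : (0 : ℝ) < (3 / 4) ^ (J + 1) := by positivity
      rw [div_le_iff_of_neg (by norm_num)]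
      linarith
    nlinarith
  · -- the logarithmic derivative
    intro w hFw hw
    set A := K * (6 * (R * Real.sqrt R)) + l with hA
    have hG0 : G 0 = F 0 := by rw [hFG]; simp
    have hGb : ∀ z, ‖z‖ < R → ‖G z‖ ≤ ‖G 0‖ * Real.exp A := by
      have h2R : (2 * R) ≠ 0 := by positivity
      have hfr : ∀ z ∈ frontier (ball (0 : ℂ) (2 * R)), ‖G z‖ ≤ Real.exp (K * (6 * (R * Real.sqrt R))) := by
        intro z hz
        rw [frontier_ball _ h2R] at hz
        have hz' : ‖z‖ = 2 * R := by simpa using hz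
        have h1 := hb z
        rw [hFG, norm_mul, norm_prod] at h1
        have h2 : 1 ≤ ∏ i ∈ range n, ‖1 - z / u i‖ := by
          calc (1 : ℝ) = ∏ i ∈ range n, (1 : ℝ) := by simp
            _ ≤ _ := by
              apply Finset.prod_le_prod (fun _ _ => by norm_num)
              intro i hi
              rw [Finset.mem_range] at hi
              have h4 := (hu i hi).1
              have h5 : 0 < ‖u i‖ := norm_pos_iff.2 (hu i hi).2
              have h6 : 2 ≤ ‖z / u i‖ := by
                rw [norm_div, hz', le_div_iff₀ h5]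
                linarith
              have h7 : ‖z / u i‖ ≤ ‖1 - z / u i‖ + 1 := by
                have := norm_sub_le (1 : ℂ) (1 - z / u i)
                rw [sub_sub_cancel, norm_one] at this
                linarith
              linarith
        calc ‖G z‖ = 1 * ‖G z‖ := (one_mul _).symm
          _ ≤ (∏ i ∈ range n, ‖1 - z / u i‖) * ‖G z‖ := mul_le_mul_of_nonneg_right h2 (norm_nonneg _)
          _ ≤ Real.exp (K * (1 + ‖z‖) ^ (3 / 2 : ℝ)) := h1
          _ ≤ _ := by
            apply Real.exp_le_exp.2 (mul_le_mul_of_nonneg_left _ hK)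
            rw [hz']
            exact r32_le (c := 3) (by positivity) (by norm_num) hR0.le (by linarith) (by norm_num) (by norm_num)
      intro z hz
      have h1 := Complex.norm_le_of_forall_mem_frontier_norm_le isBounded_ball
        (hG.diffContOnCl (s := ball (0 : ℂ) (2 * R))) hfr (z := z)
        (subset_closure (by rw [mem_ball_zero_iff]; linarith))
      refine h1.trans ?_
      rw [hG0, hA, Real.exp_add]
      have h2 : 1 ≤ Real.exp l * ‖F 0‖ := by
        calc (1 : ℝ) = Real.exp (-Real.log ‖F 0‖) * ‖F 0‖ := by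
              rw [Real.exp_neg, Real.exp_log hF0, inv_mul_cancel₀ hF0.ne']
          _ ≤ Real.exp l * ‖F 0‖ := by
              apply mul_le_mul_of_nonneg_right _ hF0.le
              exact Real.exp_le_exp.2 (neg_le_abs _)
      calc _ ≤ Real.exp (K * (6 * (R * Real.sqrt R))) * (Real.exp l * ‖F 0‖) :=
            le_mul_of_one_le_right (Real.exp_pos _).le h2
        _ = _ := by ring
    have h1 := log_free hG hR0 hGnz hGb hw
    have hld : ∀ z, F z ≠ 0 → logDeriv F z = ∑ i ∈ range n, 1 / (z - u i) + logDeriv G z := by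
      intro z hz
      have e1 : F = fun z => (∏ i ∈ range n, (1 - z / u i)) * G z := funext hFG
      have hPz : (∏ i ∈ range n, (1 - z / u i)) ≠ 0 := by
        intro h
        apply hz
        rw [hFG, h, zero_mul]
      have hGz : G z ≠ 0 := by
        intro h
        apply hz
        rw [hFG, h, mul_zero]
      have hPi : ∀ i ∈ range n, (1 - z / u i) ≠ 0 := Finset.prod_ne_zero_iff.1 hPz
      have hPdd : DifferentiableAt ℂ (fun z => ∏ i ∈ range n, (1 - z / u i)) z := by
        apply DifferentiableAt.fun_finsetProd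
        intro i _
        fun_prop
      rw [e1, logDeriv_mul z hPz hGz hPdd (hG z)]
      congr 1
      rw [logDeriv_prod (f := fun i z => 1 - z / u i) hPi (fun i _ => by fun_prop)]
      apply Finset.sum_congr rfl
      intro i hi
      have hui := (hu i (Finset.mem_range.1 hi)).2
      have h3 := hPi i hi
      have h4 : z - u i ≠ 0 := by
        intro h
        apply h3
        rw [sub_eq_zero.1 h, div_self hui, sub_self]
      have h5 : deriv (fun z => 1 - z / u i) z = -(1 / u i) := by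
        have : HasDerivAt (fun z => 1 - z / u i) (0 - 1 / u i) z :=
          (hasDerivAt_const z (1 : ℂ)).sub ((hasDerivAt_id z).div_const (u i))
        rw [this.deriv, zero_sub]
      rw [logDeriv_apply, h5]
      have h6 : u i - z ≠ 0 := by
        intro h
        apply h4
        linear_combination -h
      field_simp
      ring
    rw [hld w hFw, hld 0 h0]
    have e2 : ∑ i ∈ range n, 1 / (w - u i) + logDeriv G w - (∑ i ∈ range n, 1 / (0 - u i) + logDeriv G 0) -
        ∑ i ∈ range n, (1 / (w - u i) + 1 / u i) = logDeriv G w - logDeriv G 0 := by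
      rw [Finset.sum_add_distrib]
      have : ∑ i ∈ range n, 1 / (0 - u i) = - ∑ i ∈ range n, 1 / u i := by
        rw [← Finset.sum_neg_distrib]
        apply Finset.sum_congr rfl
        intro i _
        rw [zero_sub, div_neg]
      rw [this]
      ring
    rw [e2]
    refine h1.trans ?_
    rw [div_le_div_iff₀ (by positivity) hsR]
    have h2 : A ≤ (6 * K + l) * (R * Real.sqrt R) := by
      have h5 : 1 ≤ R * Real.sqrt R := by
        have : 1 ≤ Real.sqrt R := by rw [Real.one_le_sqrt]; exact hR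
        nlinarith
      rw [hA]
      nlinarith
    have h3 : 0 ≤ ‖w‖ := norm_nonneg _
    have hss : Real.sqrt R * Real.sqrt R = R := Real.mul_self_sqrt hR0.le
    calc 128 * A * ‖w‖ * Real.sqrt R ≤ 128 * ((6 * K + l) * (R * Real.sqrt R)) * ‖w‖ * Real.sqrt R := by
          gcongr
      _ = 128 * (6 * K + l) * ‖w‖ * R * (Real.sqrt R * Real.sqrt R) := by ring
      _ = 128 * (6 * K + l) * ‖w‖ * R ^ 2 := by rw [hss]; ring
      _ ≤ (64 * D + 128 * (6 * K + l) + 1) * ‖w‖ * R ^ 2 := by
          apply mul_le_mul_of_nonneg_right _ (by positivity)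
          apply mul_le_mul_of_nonneg_right _ h3
          linarith

end Pool.Agent.Run7.h91.SP
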