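import Pool.Agent.Run7.h91.SP.Fin
import Pool.Agent.Run7.h91.SP.Npp

/-!
# The primes in the smoothed sum
-/

set_option autoImplicit false

open Complex Metric Finset Filter Topology MeasureTheory
open scoped Real

namespace Pool.Agent.Run7.h91.SP

/-- the coefficients in the centred normalisation -/
noncomputable def cf (c : ℕ → ℂ) (n : ℕ) : ℂ :=
  ((ArithmeticFunction.vonMangoldt n : ℝ) : ℂ) * c n * (((n : ℝ) ^ (-(1 / 2) : ℝ) : ℝ) : ℂ)

lemma cf_norm {c : ℕ → ℂ} {B : ℝ} (hc : ∀ n, ‖c n‖ ≤ B) (n : ℕ) :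
    ‖cf c n‖ ≤ B * (ArithmeticFunction.vonMangoldt n * (n : ℝ) ^ (-(1 / 2) : ℝ)) := by
  unfold cf
  rw [norm_mul, norm_mul, Complex.norm_real, Complex.norm_real, Real.norm_eq_abs, Real.norm_eq_abs,
    abs_of_nonneg ArithmeticFunction.vonMangoldt_nonneg, abs_of_nonneg (Real.rpow_nonneg (Nat.cast_nonneg n) _)]
  have h1 : 0 ≤ ArithmeticFunction.vonMangoldt n := ArithmeticFunction.vonMangoldt_nonneg
  have h2 : 0 ≤ (n : ℝ) ^ (-(1 / 2) : ℝ) := Real.rpow_nonneg (Nat.cast_nonneg n) _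
  have h3 := mul_le_mul_of_nonneg_left (hc n) (mul_nonneg h1 h2)
  linarith

lemma cf_sum {c : ℕ → ℂ} {B : ℝ} (hc : ∀ n, ‖c n‖ ≤ B) :
    Summable fun n : ℕ => ‖cf c n‖ * (n : ℝ) ^ (-(3 / 4) : ℝ) := by
  have h1 := (vm_sum' (σ := 5 / 4) (by norm_num)).mul_left B
  refine h1.of_nonneg_of_le (fun n => mul_nonneg (norm_nonneg _) (Real.rpow_nonneg (Nat.cast_nonneg n) _))
    fun n => ?_
  rcases eq_or_ne n 0 with rfl | hn
  · simp [cf]
  · have hn0 : (0 : ℝ) < n := by exact_mod_cast Nat.pos_of_ne_zero hn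
    refine (mul_le_mul_of_nonneg_right (cf_norm hc n) (Real.rpow_nonneg (Nat.cast_nonneg n) _)).trans (le_of_eq ?_)
    rw [mul_assoc, mul_assoc, ← Real.rpow_add hn0]
    norm_num

/-- the sum over primes -/
noncomputable def PS (good : ℕ → Prop) [DecidablePred good] (α : ℕ → ℝ) (x : ℝ) : ℝ :=
  x * ∑' p : ℕ, if good p then α p * Real.log p / ((p : ℝ) ^ 2 + x ^ 2) else 0

lemma kap_le {δ : ℝ} (hδ : 0 < δ) (hδ1 : δ ≤ 1) {x : ℝ} (hx : 0 < x) {n : ℕ} (hn : n ≠ 0) :
    |(x / n) / (1 + (x / n) ^ 2)| ≤ (n : ℝ) ^ (-δ) * x ^ δ := by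
  have hn0 : (0 : ℝ) < n := by exact_mod_cast Nat.pos_of_ne_zero hn
  have hu : 0 < x / n := by positivity
  have h1 : (n : ℝ) ^ (-δ) * x ^ δ = (x / n) ^ δ := by
    rw [Real.div_rpow hx.le hn0.le, Real.rpow_neg hn0.le]
    field_simp
  rw [h1, abs_of_nonneg (by positivity), div_le_iff₀ (by positivity)]
  rcases le_total 1 (x / n) with h2 | h2
  · have h3 : 1 ≤ (x / n) ^ δ := Real.one_le_rpow h2 hδ.le
    nlinarith [sq_nonneg (x / n)]
  · have h3 : x / n ≤ (x / n) ^ δ := by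
      calc x / n = (x / n) ^ (1 : ℝ) := (Real.rpow_one _).symm
        _ ≤ (x / n) ^ δ := Real.rpow_le_rpow_of_exponent_ge hu h2 hδ1
    nlinarith [sq_nonneg (x / n)]

lemma SS_summable {a : ℕ → ℂ} (hs : Summable fun n : ℕ => ‖a n‖ * (n : ℝ) ^ (-(3 / 4) : ℝ)) {x : ℝ} (hx : 0 < x) :
    Summable fun n : ℕ => a n * (((x / n) / (1 + (x / n) ^ 2) : ℝ) : ℂ) := by
  refine Summable.of_norm_bounded (hs.mul_right (x ^ (3 / 4 : ℝ))) fun n => ?_
  rcases eq_or_ne n 0 with rfl | hn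
  · simp
  · rw [norm_mul, Complex.norm_real, Real.norm_eq_abs, mul_assoc]
    exact mul_le_mul_of_nonneg_left (kap_le (by norm_num) (by norm_num) hx hn) (norm_nonneg _)

theorem prime_part {c : ℕ → ℂ} {B : ℝ} (hc : ∀ n, ‖c n‖ ≤ B) {D : ℕ} (hD : D ≠ 0) {good : ℕ → Prop}
    [DecidablePred good] {α : ℕ → ℝ} {κ0 : ℝ} (h0 : ∀ n, good n → n.Prime)
    (h1 : ∀ p : ℕ, good p → cf c p = ((κ0 * (α p * Real.log p / p) : ℝ) : ℂ))
    (h2 : ∀ p : ℕ, p.Prime → ¬ p ∣ D → ¬ good p → cf c p = 0) {δ : ℝ} (hδ : 0 < δ) (hδ1 : δ ≤ 1) :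
    ∃ C : ℝ, ∀ x : ℝ, 1 ≤ x → ‖SS (cf c) x - κ0 * PS good α x‖ ≤ C * x ^ δ := by
  classical
  have hB : 0 ≤ B := (norm_nonneg _).trans (hc 0)
  set a1 : ℕ → ℂ := fun n => if good n then cf c n else 0 with ha1
  set a2 : ℕ → ℂ := fun n => if good n then 0 else cf c n with ha2
  have hsum2 : Summable fun n : ℕ => ‖a2 n‖ * (n : ℝ) ^ (-δ) := by
    have g1 := (npp_sum (σ := 1 / 2 + δ) (by linarith)).mul_left B
    have g2 : Summable fun n : ℕ => if n ∈ D.divisors then ‖cf c n‖ * (n : ℝ) ^ (-δ) else 0 := by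
      apply summable_of_hasFiniteSupport
      apply (D.divisors.finite_toSet).subset
      intro n hn
      by_contra h
      rw [Function.mem_support] at hn
      exact hn (if_neg h)
    refine (g1.add g2).of_nonneg_of_le
      (fun n => mul_nonneg (norm_nonneg _) (Real.rpow_nonneg (Nat.cast_nonneg n) _)) fun n => ?_
    have p1 : 0 ≤ B * (if n.Prime then 0 else ArithmeticFunction.vonMangoldt n * (n : ℝ) ^ (-(1 / 2 + δ))) := by
      apply mul_nonneg hB
      split_ifs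
      · exact le_rfl
      · exact mul_nonneg ArithmeticFunction.vonMangoldt_nonneg (Real.rpow_nonneg (Nat.cast_nonneg n) _)
    have p2 : 0 ≤ (if n ∈ D.divisors then ‖cf c n‖ * (n : ℝ) ^ (-δ) else 0) := by
      split_ifs
      · exact mul_nonneg (norm_nonneg _) (Real.rpow_nonneg (Nat.cast_nonneg n) _)
      · exact le_rfl
    rw [ha2]
    beta_reduce
    by_cases hg : good n
    · rw [if_pos hg, norm_zero, zero_mul]
      linarith
    · rw [if_neg hg]
      by_cases hn : n ∈ D.divisors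
      · rw [if_pos hn]
        linarith
      · rw [if_neg hn, add_zero]
        by_cases hp : n.Prime
        · have hnd : ¬ n ∣ D := fun h => hn (Nat.mem_divisors.2 ⟨h, hD⟩)
          rw [h2 n hp hnd hg, norm_zero, zero_mul]
          exact p1
        · rw [if_neg hp]
          rcases eq_or_ne n 0 with rfl | hn0
          · simp [cf]
          · have hn0' : (0 : ℝ) < n := by exact_mod_cast Nat.pos_of_ne_zero hn0
            refine (mul_le_mul_of_nonneg_right (cf_norm hc n) (Real.rpow_nonneg (Nat.cast_nonneg n) _)).trans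
              (le_of_eq ?_)
            rw [mul_assoc, mul_assoc, ← Real.rpow_add hn0']
            congr 3
            ring
  refine ⟨∑' n : ℕ, ‖a2 n‖ * (n : ℝ) ^ (-δ), fun x hx => ?_⟩
  have hx0 : 0 < x := by linarith
  have hs : ∀ a : ℕ → ℂ, (∀ n, ‖a n‖ ≤ ‖cf c n‖) → Summable fun n : ℕ => ‖a n‖ * (n : ℝ) ^ (-(3 / 4) : ℝ) :=
    fun a ha => (cf_sum hc).of_nonneg_of_le
      (fun n => mul_nonneg (norm_nonneg _) (Real.rpow_nonneg (Nat.cast_nonneg n) _))
      fun n => mul_le_mul_of_nonneg_right (ha n) (Real.rpow_nonneg (Nat.cast_nonneg n) _)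
  have s1 := SS_summable (hs a1 fun n => by
    rw [ha1]; beta_reduce; split_ifs; exacts [le_rfl, by rw [norm_zero]; exact norm_nonneg _]) hx0
  have s2 := SS_summable (hs a2 fun n => by
    rw [ha2]; beta_reduce; split_ifs; exacts [by rw [norm_zero]; exact norm_nonneg _, le_rfl]) hx0
  have e1 : SS (cf c) x = SS a1 x + SS a2 x := by
    unfold SS
    rw [← s1.tsum_add s2]
    apply tsum_congr
    intro n
    rw [ha1, ha2]
    beta_reduce
    split_ifs <;> ring
  have e2 : SS a1 x = κ0 * PS good α x := by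
    unfold SS PS
    rw [← Complex.ofReal_mul, ← mul_assoc, Complex.ofReal_mul, Complex.ofReal_tsum, ← tsum_mul_left]
    apply tsum_congr
    intro n
    rw [ha1]
    beta_reduce
    by_cases hg : good n
    · rw [if_pos hg, if_pos hg, h1 n hg, ← Complex.ofReal_mul, ← Complex.ofReal_mul]
      congr 1
      have hn0 : (0 : ℝ) < n := by exact_mod_cast (h0 n hg).pos
      field_simp
    · rw [if_neg hg, if_neg hg]
      simp
  rw [e1, e2, add_sub_cancel_left]
  exact small hδ hδ1 hsum2 hx0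

end Pool.Agent.Run7.h91.SP
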